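import Pool.Agent.Y282.RB.Stm

/-!
# The reflection principle: on the angular type `n + m` the operators `T ^ n` and `T ^ m` agree up to
the reflection in the real axis
-/

set_option autoImplicit false

open MeasureTheory Set Filter Topology
open Pool.Agent.Y282.RB (Tn)

namespace Pool.Agent.Q165.BP

/-- angular type `k` -/
def Cls (k : ℕ) (f : ℂ → ℂ) : Prop := ∀ a z : ℂ, ‖a‖ = 1 → f (a * z) = a ^ k * f z

/-- the Fourier transform, literal form -/
noncomputable def Fl (f : ℂ → ℂ) (ξ : ℂ) : ℂ :=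
  ∫ x : ℂ, Complex.exp (-(2 * (Real.pi : ℂ) * Complex.I * (((x.re * ξ.re + x.im * ξ.im : ℝ)) : ℂ))) * f x

lemma pair_rot {a : ℂ} (ha : ‖a‖ = 1) (y ξ : ℂ) :
    (a * y).re * (a * ξ).re + (a * y).im * (a * ξ).im = y.re * ξ.re + y.im * ξ.im := by
  have h : a.re ^ 2 + a.im ^ 2 = 1 := by
    have := Complex.normSq_eq_norm_sq a
    rw [ha, Complex.normSq_apply] at this
    nlinarith
  simp only [Complex.mul_re, Complex.mul_im]
  linear_combination (y.re * ξ.re + y.im * ξ.im) * h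

lemma Fl_rot {k : ℕ} {f : ℂ → ℂ} (hf : Cls k f) {a : ℂ} (ha : ‖a‖ = 1) (ξ : ℂ) :
    Fl f (a * ξ) = a ^ k * Fl f ξ := by
  set L : ℂ ≃ₗᵢ[ℝ] ℂ := rotation ⟨a, mem_sphere_zero_iff_norm.2 ha⟩ with hL
  have hLa : ∀ y, L y = a * y := fun y => rfl
  have h1 := L.measurePreserving.integral_comp L.toMeasurableEquiv.measurableEmbedding
    (fun x : ℂ => Complex.exp (-(2 * (Real.pi : ℂ) * Complex.I *
      (((x.re * (a * ξ).re + x.im * (a * ξ).im : ℝ)) : ℂ))) * f x)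
  unfold Fl
  rw [← h1, ← integral_const_mul]
  refine integral_congr_ae (Eventually.of_forall fun y => ?_)
  simp only [hLa]
  rw [pair_rot ha, hf a y ha]
  ring

/-- **the reflection principle** -/
theorem refl {n m : ℕ} {f : ℂ → ℂ} (hf : Cls (n + m) f) (z : ℂ) :
    Tn m f ((starRingEnd ℂ) z) = Tn n f z := by
  have h1 := Complex.conjLIE.measurePreserving.integral_comp Complex.conjLIE.toMeasurableEquiv.measurableEmbedding
    (fun ξ : ℂ => Complex.exp (2 * (Real.pi : ℂ) * Complex.I *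
      (((((starRingEnd ℂ) z).re * ξ.re + ((starRingEnd ℂ) z).im * ξ.im : ℝ)) : ℂ)) *
      ((starRingEnd ℂ ξ / ξ) ^ m * Fl f ξ))
  change ∫ ξ : ℂ, Complex.exp (2 * (Real.pi : ℂ) * Complex.I *
      (((((starRingEnd ℂ) z).re * ξ.re + ((starRingEnd ℂ) z).im * ξ.im : ℝ)) : ℂ)) *
      ((starRingEnd ℂ ξ / ξ) ^ m * Fl f ξ) = ∫ ξ : ℂ, Complex.exp (2 * (Real.pi : ℂ) * Complex.I *
      (((z.re * ξ.re + z.im * ξ.im : ℝ)) : ℂ)) * ((starRingEnd ℂ ξ / ξ) ^ n * Fl f ξ)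
  rw [← h1]
  have h0 : ∀ᵐ ξ : ℂ, ξ ≠ 0 := by
    rw [ae_iff]
    simp
  refine integral_congr_ae ?_
  filter_upwards [h0] with ξ hξ
  have hc : Complex.conjLIE ξ = (starRingEnd ℂ) ξ := rfl
  rw [hc]
  have hcξ : (starRingEnd ℂ) ξ ≠ 0 := (map_ne_zero _).2 hξ
  set a : ℂ := (starRingEnd ℂ) ξ / ξ with ha
  have ha1 : ‖a‖ = 1 := by
    rw [ha, norm_div, Complex.norm_conj]
    exact div_self (norm_ne_zero_iff.2 hξ)
  have ha2 : a * ξ = (starRingEnd ℂ) ξ := by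
    rw [ha]
    field_simp
  have ha0 : a ≠ 0 := by
    intro h
    rw [h, norm_zero] at ha1
    exact zero_ne_one ha1
  have h3 : Fl f ((starRingEnd ℂ) ξ) = a ^ (n + m) * Fl f ξ := by
    rw [← ha2]
    exact Fl_rot hf ha1 ξ
  rw [h3]
  have h4 : (starRingEnd ℂ) ((starRingEnd ℂ) ξ) / (starRingEnd ℂ) ξ = a⁻¹ := by
    rw [Complex.conj_conj, ha, inv_div]
  rw [h4]
  have h5 : ((starRingEnd ℂ) z).re * ((starRingEnd ℂ) ξ).re + ((starRingEnd ℂ) z).im * ((starRingEnd ℂ) ξ).im =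
      z.re * ξ.re + z.im * ξ.im := by
    simp
  rw [h5]
  have h6 : a⁻¹ ^ m * (a ^ (n + m) * Fl f ξ) = a ^ n * Fl f ξ := by
    rw [pow_add, inv_pow]
    field_simp
  rw [h6]

/-- the norms agree -/
theorem refl_norm {n m : ℕ} {f : ℂ → ℂ} (hf : Cls (n + m) f) (p : ENNReal) :
    eLpNorm (Tn n f) p (volume : Measure ℂ) = eLpNorm (Tn m f) p (volume : Measure ℂ) := by
  have h1 : Tn n f = (Tn m f) ∘ Complex.conjLIE := by
    funext z
    exact (refl hf z).symm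
  rw [h1]
  have h2 := Complex.conjLIE.measurePreserving
  have h3 := (Complex.conjLIE.toMeasurableEquiv.measurableEmbedding).eLpNorm_map_measure
    (g := Tn m f) (p := p) (μ := (volume : Measure ℂ))
  have h4 : Measure.map (Complex.conjLIE.toMeasurableEquiv) (volume : Measure ℂ) = volume := h2.map_eq
  rw [h4] at h3
  exact h3.symm

end Pool.Agent.Q165.BP
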