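import Pool.Agent.Q165.BP.Plane
import Pool.Agent.Q165.BP.Refl
import Pool.Agent.Y338.BP.E

/-!
# From smooth functions with compact support to all Schwartz functions of one angular type
-/

set_option autoImplicit false

open MeasureTheory Set Filter Topology
open scoped SchwartzMap ENNReal ContDiff
open Pool.Agent.Y282.RB (Tn)

namespace Pool.Agent.Q165.BP

open Pool.Agent.TH55.PowA (T Ft bs sm Adm T_integrand_int T_cont Ft_eq Ft_fun Ft_int bs_meas
  bs_norm_le norm_ex meas_ex)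

lemma adm_sy (n : ℕ) : Adm (fun ξ => bs ξ ^ n) :=
  ⟨bs_meas.pow_const n, fun ξ => by
    rw [norm_pow]
    exact pow_le_one₀ (norm_nonneg _) (bs_norm_le ξ)⟩

lemma Tn_eq (n : ℕ) (f : 𝓢(ℂ, ℂ)) : Tn n f = T (fun ξ => bs ξ ^ n) f := rfl

lemma norm_ex' (a : ℝ) : ‖Complex.exp (-(2 * (Real.pi : ℂ) * Complex.I * (a : ℂ)))‖ = 1 := by
  have : -(2 * (Real.pi : ℂ) * Complex.I * (a : ℂ)) = ((-(2 * Real.pi * a) : ℝ) : ℂ) * Complex.I := by
    push_cast; ring
  rw [this, Complex.norm_exp_ofReal_mul_I]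

lemma Ft_integrand (f : 𝓢(ℂ, ℂ)) (ξ : ℂ) : Integrable (fun x : ℂ =>
    Complex.exp (-(2 * (Real.pi : ℂ) * Complex.I * ((sm x ξ : ℝ) : ℂ))) * f x) := by
  refine f.integrable.mono ?_ (Eventually.of_forall fun x => ?_)
  · refine AEStronglyMeasurable.mul ?_ f.integrable.aestronglyMeasurable
    apply Measurable.aestronglyMeasurable
    unfold sm
    fun_prop
  · rw [norm_mul, norm_ex', one_mul]

lemma Ft_add (f g : 𝓢(ℂ, ℂ)) (ξ : ℂ) : Ft (f + g) ξ = Ft f ξ + Ft g ξ := by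
  unfold Ft
  rw [← integral_add (Ft_integrand f ξ) (Ft_integrand g ξ)]
  refine integral_congr_ae (Eventually.of_forall fun x => ?_)
  simp only [add_apply]
  ring

lemma Tn_add (n : ℕ) (f g : 𝓢(ℂ, ℂ)) : Tn n (f + g : 𝓢(ℂ, ℂ)) = fun z => Tn n f z + Tn n g z := by
  funext z
  rw [Tn_eq, Tn_eq, Tn_eq]
  unfold T
  rw [← integral_add (T_integrand_int (adm_sy n) f z) (T_integrand_int (adm_sy n) g z)]
  refine integral_congr_ae (Eventually.of_forall fun x => ?_)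
  simp only [Ft_add]
  ring

lemma Tn_cont (n : ℕ) (f : 𝓢(ℂ, ℂ)) : Continuous (Tn n f) := by
  rw [Tn_eq]
  exact T_cont (adm_sy n) _

/-- the isometry on `L^2` -/
lemma Tn_two (n : ℕ) (f : 𝓢(ℂ, ℂ)) : eLpNorm (Tn n f) 2 (volume : Measure ℂ) =
    eLpNorm (⇑f) 2 (volume : Measure ℂ) := by
  have h := Pool.Agent.Y338.BP.T_two f n
  rw [← Tn_eq] at h
  rw [eLpNorm_eq_lintegral_rpow_enorm_toReal (by norm_num) (by norm_num),
    eLpNorm_eq_lintegral_rpow_enorm_toReal (by norm_num) (by norm_num)]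
  simp only [ENNReal.toReal_ofNat, ENNReal.rpow_ofNat]
  rw [h]

/-- cut-off functions -/
lemma exists_cut (ε : ℝ) (h0 : 0 < ε) (h1 : ε < 1) : ∃ (χ : ℝ → ℝ) (R : ℝ), ContDiff ℝ ∞ χ ∧
    (∀ x, 0 ≤ χ x ∧ χ x ≤ 1) ∧ (∀ x, ε ≤ x → x ≤ 1 / ε → χ x = 1) ∧
    (∀ x, x ≤ ε / 2 → χ x = 0) ∧ ∀ x, R ≤ x → χ x = 0 := by
  have hε : 1 < 1 / ε := by rw [lt_div_iff₀ h0]; linarith
  let b : ContDiffBump ((1 / ε + ε) / 2 : ℝ) :=
    ⟨(1 / ε - ε) / 2, (1 / ε - ε) / 2 + ε / 2, by linarith, by linarith⟩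
  refine ⟨b, (1 / ε + ε) / 2 + ((1 / ε - ε) / 2 + ε / 2), b.contDiff,
    fun x => ⟨b.nonneg, b.le_one⟩, fun x hx1 hx2 => ?_, fun x hx => ?_, fun x hx => ?_⟩
  · apply b.one_of_mem_closedBall
    rw [Metric.mem_closedBall, Real.dist_eq]
    show |x - (1 / ε + ε) / 2| ≤ (1 / ε - ε) / 2
    exact abs_le.2 ⟨by linarith, by linarith⟩
  · apply b.zero_of_le_dist
    rw [Real.dist_eq]
    show (1 / ε - ε) / 2 + ε / 2 ≤ |x - (1 / ε + ε) / 2|
    rw [abs_sub_comm]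
    refine le_trans ?_ (le_abs_self _)
    linarith
  · apply b.zero_of_le_dist
    rw [Real.dist_eq]
    show (1 / ε - ε) / 2 + ε / 2 ≤ |x - (1 / ε + ε) / 2|
    refine le_trans ?_ (le_abs_self _)
    linarith

/-- truncations -/
lemma exists_trunc (k : ℕ) (f : 𝓢(ℂ, ℂ)) (hf : Cls k f) (ε : ℝ) (h0 : 0 < ε) (h1 : ε < 1) :
    ∃ (g : ℝ → ℂ) (R : ℝ) (h : 𝓢(ℂ, ℂ)), ContDiff ℝ ∞ g ∧ (∀ x, x ≤ ε / 2 → g x = 0) ∧
      (∀ x, R ≤ x → g x = 0) ∧ (⇑h = radk k g) ∧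
      (∀ z, ‖h z‖ ≤ ‖f z‖) ∧ (∀ z, ‖(f - h) z‖ ≤ ‖f z‖) ∧
      ∀ z, ε ≤ Complex.normSq z → Complex.normSq z ≤ 1 / ε → (f - h) z = 0 := by
  obtain ⟨χ, R, hχ1, hχ3, hχ4, hχ5, hχ6⟩ := exists_cut ε h0 h1
  obtain ⟨g, hg⟩ : ∃ g : ℝ → ℂ, g = fun x => (χ x : ℂ) * (f ((√x : ℝ) : ℂ) * (((√x : ℝ) : ℂ) ^ k)⁻¹) :=
    ⟨_, rfl⟩
  have hgs : ContDiff ℝ ∞ g := by
    rw [contDiff_iff_contDiffAt]
    intro x
    rcases lt_or_ge x (ε / 2) with hx | hx
    · refine (contDiffAt_const (c := (0 : ℂ))).congr_of_eventuallyEq ?_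
      filter_upwards [Iio_mem_nhds hx] with y hy
      rw [hg]
      simp only
      rw [hχ5 y (le_of_lt hy)]
      simp
    · have hx0 : 0 < x := by linarith
      rw [hg]
      have e1 : ContDiffAt ℝ ∞ (fun x : ℝ => ((√x : ℝ) : ℂ)) x :=
        Complex.ofRealCLM.contDiff.contDiffAt.comp x (Real.contDiffAt_sqrt hx0.ne')
      refine ContDiffAt.mul ?_ (ContDiffAt.mul ?_ ?_)
      · exact (Complex.ofRealCLM.contDiff.comp hχ1).contDiffAt
      · exact ((f.smooth ⊤).contDiffAt).comp x e1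
      · refine ContDiffAt.inv ?_ ?_
        · exact e1.pow k
        · exact pow_ne_zero _ (Complex.ofReal_ne_zero.2 (Real.sqrt_pos.2 hx0).ne')
  have hg0 : ∀ x, x ≤ ε / 2 → g x = 0 := by
    intro x hx
    rw [hg]
    simp only
    rw [hχ5 x hx]
    simp
  have hgR : ∀ x, R ≤ x → g x = 0 := by
    intro x hx
    rw [hg]
    simp only
    rw [hχ6 x hx]
    simp
  have hrad : ∀ z, radk k g z = (χ (Complex.normSq z) : ℂ) * f z := by
    intro z
    unfold radk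
    rw [hg]
    simp only
    by_cases hz : z = 0
    · subst hz
      rw [map_zero, hχ5 0 (by linarith)]
      simp
    · have hn : (‖z‖ : ℂ) ≠ 0 := Complex.ofReal_ne_zero.2 (norm_ne_zero_iff.2 hz)
      have h2 : √(Complex.normSq z) = ‖z‖ := rfl
      have ha : ‖z / (‖z‖ : ℂ)‖ = 1 := by
        rw [norm_div, Complex.norm_real, norm_norm]
        exact div_self (norm_ne_zero_iff.2 hz)
      have h3 := hf (z / (‖z‖ : ℂ)) (‖z‖ : ℂ) ha
      rw [div_mul_cancel₀ _ hn] at h3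
      rw [h2, h3, div_pow]
      field_simp
  obtain ⟨h, hh⟩ := schw k hgs hgR
  refine ⟨g, R, h, hgs, hg0, hgR, hh, fun z => ?_, fun z => ?_, fun z hz1 hz2 => ?_⟩
  · rw [hh, hrad z, norm_mul, Complex.norm_real, Real.norm_of_nonneg (hχ3 _).1]
    exact mul_le_of_le_one_left (norm_nonneg _) (hχ3 _).2
  · have e : (f - h) z = ((1 - χ (Complex.normSq z) : ℝ) : ℂ) * f z := by
      change f z - h z = _
      rw [hh, hrad z]
      push_cast
      ring
    rw [e, norm_mul, Complex.norm_real, Real.norm_of_nonneg (by linarith [(hχ3 (Complex.normSq z)).2])]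
    exact mul_le_of_le_one_left (norm_nonneg _) (by linarith [(hχ3 (Complex.normSq z)).1])
  · change f z - h z = 0
    rw [hh, hrad z, hχ4 _ hz1 hz2]
    simp

/-- convergence of the truncations in `L^2` -/
lemma tendsto_trunc (f : 𝓢(ℂ, ℂ)) (F : ℕ → 𝓢(ℂ, ℂ))
    (h1 : ∀ k z, ‖F k z‖ ≤ ‖f z‖)
    (h2 : ∀ (k : ℕ) (z : ℂ), 1 / ((k : ℝ) + 2) ≤ Complex.normSq z → Complex.normSq z ≤ (k : ℝ) + 2 → F k z = 0) :
    Tendsto (fun k => eLpNorm (F k) 2 (volume : Measure ℂ)) atTop (𝓝 0) := by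
  have e : ∀ k, eLpNorm (F k) 2 (volume : Measure ℂ) = (∫⁻ z, ‖F k z‖ₑ ^ (2 : ℝ)) ^ (1 / 2 : ℝ) := by
    intro k
    rw [eLpNorm_eq_lintegral_rpow_enorm_toReal (by norm_num) (by norm_num)]
    simp
  simp only [e]
  have hfin : ∫⁻ z, ‖f z‖ₑ ^ (2 : ℝ) ≠ ⊤ := by
    have h3 : MemLp f 2 (volume : Measure ℂ) := f.memLp _ _
    have h4 := lintegral_rpow_enorm_lt_top_of_eLpNorm_lt_top (by norm_num) (by norm_num) h3.2
    simpa using h4.ne
  have hlim : Tendsto (fun k => ∫⁻ z, ‖F k z‖ₑ ^ (2 : ℝ)) atTop (𝓝 (∫⁻ _ : ℂ, 0)) := by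
    refine tendsto_lintegral_of_dominated_convergence (fun z => ‖f z‖ₑ ^ (2 : ℝ)) (fun k => ?_)
      (fun k => Eventually.of_forall fun z => ?_) hfin ?_
    · exact ((F k).continuous.enorm.measurable).pow_const (2 : ℝ)
    · exact ENNReal.rpow_le_rpow (enorm_le_iff_norm_le.2 (h1 k z)) (by norm_num)
    · have h5 : ∀ᵐ z : ℂ, z ≠ 0 := by
        rw [ae_iff]
        simp
      filter_upwards [h5] with z hz
      have hz0 : 0 < Complex.normSq z := Complex.normSq_pos.2 hz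
      obtain ⟨N, hN⟩ := exists_nat_gt (max (Complex.normSq z) (1 / Complex.normSq z))
      refine tendsto_const_nhds.congr' ?_
      filter_upwards [eventually_ge_atTop N] with k hk
      have hk' : (N : ℝ) ≤ k := by exact_mod_cast hk
      have h6 : Complex.normSq z < N := lt_of_le_of_lt (le_max_left _ _) hN
      have h7 : 1 / Complex.normSq z < N := lt_of_le_of_lt (le_max_right _ _) hN
      rw [h2 k z ?_ (by linarith)]
      · simp
      · rw [div_le_iff₀ (by positivity)]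
        rw [div_lt_iff₀ hz0] at h7
        nlinarith
  rw [lintegral_zero] at hlim
  have h8 := (ENNReal.continuous_rpow_const (y := (1 / 2 : ℝ))).tendsto 0
  rw [ENNReal.zero_rpow_of_pos (by positivity)] at h8
  exact h8.comp hlim

/-- **density**: the bound for smooth functions with compact support in the punctured plane gives the bound
for all Schwartz functions of the same angular type -/
theorem dense (n k : ℕ) (P : ℝ≥0∞) (C : ℝ≥0∞)
    (H : ∀ (g : ℝ → ℂ) (a0 R0 : ℝ), ContDiff ℝ (⊤ : ℕ∞) g → 0 < a0 → (∀ x, x ≤ a0 → g x = 0) →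
      (∀ x, R0 ≤ x → g x = 0) →
      eLpNorm (Tn n (radk k g)) P (volume : Measure ℂ) ≤ C * eLpNorm (radk k g) P (volume : Measure ℂ))
    (f : 𝓢(ℂ, ℂ)) (hf : Cls k f) :
    eLpNorm (Tn n f) P (volume : Measure ℂ) ≤ C * eLpNorm (⇑f) P (volume : Measure ℂ) := by
  have hk : ∀ k : ℕ, (0 : ℝ) < 1 / ((k : ℝ) + 2) ∧ 1 / ((k : ℝ) + 2) < 1 := by
    intro k
    have : (0 : ℝ) ≤ k := Nat.cast_nonneg k
    refine ⟨by positivity, ?_⟩
    rw [div_lt_one (by linarith)]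
    linarith
  choose g R h hg1 hg2 hg3 hh hle1 hle2 hz using fun j : ℕ =>
    exists_trunc k f hf (1 / ((j : ℝ) + 2)) (hk j).1 (hk j).2
  have hlim : Tendsto (fun j => eLpNorm (Tn n (h j) - Tn n f) 2 (volume : Measure ℂ)) atTop (𝓝 0) := by
    have h1 := tendsto_trunc f (fun j => f - h j) (fun j z => hle2 j z) (fun j z hz1 hz2 => by
      refine hz j z hz1 ?_
      rw [one_div_one_div]
      exact hz2)
    refine h1.congr fun j => ?_
    rw [← Tn_two n (f - h j), ← eLpNorm_neg]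
    congr 1
    have e1 : Tn n f = fun z => Tn n (f - h j : 𝓢(ℂ, ℂ)) z + Tn n (h j) z := by
      rw [← Tn_add]
      congr 2
      rw [sub_add_cancel]
    funext z
    rw [Pi.neg_apply, Pi.sub_apply, e1]
    ring
  have hmeas : ∀ j, AEStronglyMeasurable (Tn n (h j)) (volume : Measure ℂ) := fun j =>
    (Tn_cont n (h j)).aestronglyMeasurable
  have hin := tendstoInMeasure_of_tendsto_eLpNorm (p := 2) (by norm_num) hmeas
    (Tn_cont n f).aestronglyMeasurable hlim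
  obtain ⟨ns, hns, hae⟩ := hin.exists_seq_tendsto_ae
  have hfat := Lp.eLpNorm_lim_le_liminf_eLpNorm (p := P) (fun i => hmeas (ns i)) (Tn n f) hae
  refine hfat.trans ?_
  refine liminf_le_of_le (f := atTop) (u := fun i => eLpNorm (Tn n (h (ns i))) P volume) (by isBoundedDefault) fun b hb => ?_
  obtain ⟨i, hi⟩ := hb.exists
  refine hi.trans ?_
  rw [hh (ns i)]
  refine (H (g (ns i)) _ (R (ns i)) (hg1 _) (by linarith [(hk (ns i)).1]) (hg2 (ns i)) (hg3 (ns i))).trans ?_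
  rw [← hh (ns i)]
  gcongr
  exact eLpNorm_mono (hle1 (ns i))

end Pool.Agent.Q165.BP
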