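import Pool.Agent.Q165.BP.Main

/-!
# Duality
-/

set_option autoImplicit false

open MeasureTheory Set Filter Topology
open scoped SchwartzMap ENNReal ContDiff
open Pool.Agent.Y282.RB (Tn)

namespace Pool.Agent.Q165.BP

open Pool.Agent.TH55.PowA (T Ft bs sm Adm T_integrand_int T_cont Ft_eq Ft_fun Ft_int bs_meas
  bs_norm_le norm_ex meas_ex)

/-- the pairing on the Fourier side -/
lemma pairing (n : ℕ) (f w : 𝓢(ℂ, ℂ)) :
    ∫ z : ℂ, Tn n f z * w z = ∫ ξ : ℂ, bs ξ ^ n * Ft f ξ * Ft w (-ξ) := by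
  have h1 : ∀ z : ℂ, Tn n f z * w z = ∫ ξ : ℂ,
      Complex.exp (2 * (Real.pi : ℂ) * Complex.I * ((sm z ξ : ℝ) : ℂ)) * (bs ξ ^ n * Ft f ξ) * w z := by
    intro z
    rw [Tn_eq]
    unfold T
    rw [integral_mul_const]
  simp_rw [h1]
  have hA : Integrable (fun ξ : ℂ => bs ξ ^ n * Ft f ξ) := by
    refine (Ft_int f).bdd_mul (c := 1) (bs_meas.pow_const n).aestronglyMeasurable
      (Eventually.of_forall fun ξ => (adm_sy n).le1 ξ)
  have hint : Integrable (fun p : ℂ × ℂ => Complex.exp (2 * (Real.pi : ℂ) * Complex.I *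
      ((sm p.1 p.2 : ℝ) : ℂ)) * (bs p.2 ^ n * Ft f p.2) * w p.1) ((volume : Measure ℂ).prod volume) := by
    have h2 : Integrable (fun p : ℂ × ℂ => w p.1 * (bs p.2 ^ n * Ft f p.2)) ((volume : Measure ℂ).prod volume) :=
      w.integrable.mul_prod hA
    have h3 : Integrable (fun p : ℂ × ℂ => Complex.exp (2 * (Real.pi : ℂ) * Complex.I *
      ((sm p.1 p.2 : ℝ) : ℂ)) * (w p.1 * (bs p.2 ^ n * Ft f p.2))) ((volume : Measure ℂ).prod volume) := by
      refine h2.bdd_mul (c := 1) ?_ (Eventually.of_forall fun p => (norm_ex _).le)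
      apply Measurable.aestronglyMeasurable
      unfold sm
      fun_prop
    refine h3.congr (Eventually.of_forall fun p => ?_)
    ring
  rw [integral_integral_swap hint]
  refine integral_congr_ae (Eventually.of_forall fun ξ => ?_)
  simp only
  have h4 : Ft w (-ξ) = ∫ z : ℂ, Complex.exp (2 * (Real.pi : ℂ) * Complex.I * ((sm z ξ : ℝ) : ℂ)) * w z := by
    unfold Ft
    refine integral_congr_ae (Eventually.of_forall fun z => ?_)
    simp only
    congr 2
    unfold sm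
    simp only [Complex.neg_re, Complex.neg_im]
    push_cast
    ring
  rw [h4, ← integral_const_mul]
  refine integral_congr_ae (Eventually.of_forall fun z => ?_)
  ring

/-- `T ^ n` is its own transpose -/
theorem flip_Tn (n : ℕ) (f w : 𝓢(ℂ, ℂ)) : ∫ z : ℂ, Tn n f z * w z = ∫ z : ℂ, f z * Tn n w z := by
  have h1 : ∫ z : ℂ, f z * Tn n w z = ∫ z : ℂ, Tn n w z * f z :=
    integral_congr_ae (Eventually.of_forall fun z => mul_comm _ _)
  rw [h1, pairing, pairing, ← integral_neg_eq_self (fun ξ : ℂ => bs ξ ^ n * Ft w ξ * Ft f (-ξ))]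
  refine integral_congr_ae (Eventually.of_forall fun ξ => ?_)
  simp only
  have h2 : bs (-ξ) = bs ξ := by
    unfold bs
    rw [map_neg, neg_div_neg_eq]
  rw [h2, neg_neg]
  ring

/-- rotation -/
lemma Tn_rot {n : ℕ} {k : ℤ} {f : ℂ → ℂ} (hf : ∀ a z : ℂ, ‖a‖ = 1 → f (a * z) = a ^ k * f z)
    {K : ℕ} (hK : (K : ℤ) = 2 * n - k) {a : ℂ} (ha : ‖a‖ = 1) (z : ℂ) :
    a ^ K * Tn n f (a * z) = Tn n f z := by
  have ha0 : a ≠ 0 := by
    intro h
    rw [h, norm_zero] at ha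
    exact zero_ne_one ha
  set L : ℂ ≃ₗᵢ[ℝ] ℂ := rotation ⟨a, mem_sphere_zero_iff_norm.2 ha⟩ with hL
  have hLa : ∀ y, L y = a * y := fun y => rfl
  -- the Fourier transform
  have hFl : ∀ ξ : ℂ, Fl f (a * ξ) = a ^ k * Fl f ξ := by
    intro ξ
    have h1 := L.measurePreserving.integral_comp L.toMeasurableEquiv.measurableEmbedding
      (fun x : ℂ => Complex.exp (-(2 * (Real.pi : ℂ) * Complex.I *
        (((x.re * (a * ξ).re + x.im * (a * ξ).im : ℝ)) : ℂ))) * f x)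
    unfold Fl
    rw [← h1, ← integral_const_mul]
    refine integral_congr_ae (Eventually.of_forall fun y => ?_)
    simp only [hLa]
    rw [pair_rot ha, hf a y ha]
    ring
  have h1 := L.measurePreserving.integral_comp L.toMeasurableEquiv.measurableEmbedding
    (fun ξ : ℂ => Complex.exp (2 * (Real.pi : ℂ) * Complex.I *
      (((((a * z)).re * ξ.re + ((a * z)).im * ξ.im : ℝ)) : ℂ)) *
      ((starRingEnd ℂ ξ / ξ) ^ n * Fl f ξ))
  change a ^ K * ∫ ξ : ℂ, Complex.exp (2 * (Real.pi : ℂ) * Complex.I *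
      (((((a * z)).re * ξ.re + ((a * z)).im * ξ.im : ℝ)) : ℂ)) *
      ((starRingEnd ℂ ξ / ξ) ^ n * Fl f ξ) = ∫ ξ : ℂ, Complex.exp (2 * (Real.pi : ℂ) * Complex.I *
      (((z.re * ξ.re + z.im * ξ.im : ℝ)) : ℂ)) * ((starRingEnd ℂ ξ / ξ) ^ n * Fl f ξ)
  rw [← h1, ← integral_const_mul]
  refine integral_congr_ae (Eventually.of_forall fun ξ => ?_)
  simp only [hLa]
  rw [pair_rot ha, hFl]
  have hca : (starRingEnd ℂ) a = a⁻¹ := by
    rw [Complex.inv_def, Complex.normSq_eq_norm_sq, ha]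
    simp
  have h2 : (starRingEnd ℂ) (a * ξ) / (a * ξ) = (a ^ 2)⁻¹ * ((starRingEnd ℂ) ξ / ξ) := by
    rw [map_mul, hca]
    by_cases hξ : ξ = 0
    · subst hξ
      simp
    · field_simp
  rw [h2, mul_pow]
  have h3 : a ^ K * (((a ^ 2)⁻¹) ^ n * a ^ k) = 1 := by
    have e1 : a ^ K = a ^ (K : ℤ) := (zpow_natCast a K).symm
    have e2 : ((a ^ 2)⁻¹) ^ n = a ^ (-(2 * (n : ℤ))) := by
      rw [inv_pow, ← pow_mul, zpow_neg, ← zpow_natCast]
      congr 2
    rw [e1, e2, ← zpow_add₀ ha0, ← zpow_add₀ ha0, hK]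
    have : (2 * (n : ℤ) - k + (-(2 * (n : ℤ)) + k)) = 0 := by ring
    rw [this, zpow_zero]
  linear_combination (Complex.exp (2 * (Real.pi : ℂ) * Complex.I *
      (((z.re * ξ.re + z.im * ξ.im : ℝ)) : ℂ)) * ((starRingEnd ℂ) ξ / ξ) ^ n * Fl f ξ) * h3

end Pool.Agent.Q165.BP
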