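import Pool.Agent.Q165.BP.Dual

/-!
# The dual norm
-/

set_option autoImplicit false

open MeasureTheory Set Filter Topology
open scoped SchwartzMap ENNReal ContDiff
open Pool.Agent.Y282.RB (Tn)

namespace Pool.Agent.Q165.BP

lemma radk_cont (K : ℕ) {Ψ : ℝ → ℂ} (hΨ : Continuous Ψ) : Continuous (radk K Ψ) := by
  unfold radk
  exact (continuous_id.pow K).mul (hΨ.comp Complex.continuous_normSq)

/-- approximation by smooth functions -/
lemma approx {Ψ : ℝ → ℂ} (hΨ : Continuous Ψ) {a0 R0 : ℝ} (ha : 0 < a0) (haR : a0 < R0)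
    (h0 : ∀ x, x ≤ a0 → Ψ x = 0) (hR : ∀ x, R0 ≤ x → Ψ x = 0) {δ : ℝ} (hδ : 0 < δ) :
    ∃ g : ℝ → ℂ, ContDiff ℝ (⊤ : ℕ∞) g ∧ (∀ x, x ≤ a0 / 2 → g x = 0) ∧ (∀ x, R0 + 1 ≤ x → g x = 0) ∧
      ∀ x, ‖g x - Ψ x‖ ≤ 2 * δ := by
  obtain ⟨P, hP⟩ := exists_polynomial_near_of_continuousOn (a0 / 2) (R0 + 1) (fun x => (Ψ x).re)
    (Complex.continuous_re.comp hΨ).continuousOn δ hδ
  obtain ⟨Q, hQ⟩ := exists_polynomial_near_of_continuousOn (a0 / 2) (R0 + 1) (fun x => (Ψ x).im)
    (Complex.continuous_im.comp hΨ).continuousOn δ hδ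
  set η : ℝ := min (a0 / 2) 1 with hη
  have hη0 : 0 < η := lt_min (by linarith) one_pos
  have hη1 : η ≤ a0 / 2 := min_le_left _ _
  have hη2 : η ≤ 1 := min_le_right _ _
  let b : ContDiffBump ((a0 + R0) / 2 : ℝ) :=
    ⟨(R0 - a0) / 2, (R0 - a0) / 2 + η, by linarith, by linarith⟩
  have hb1 : ∀ x, a0 ≤ x → x ≤ R0 → b x = 1 := by
    intro x hx1 hx2
    apply b.one_of_mem_closedBall
    rw [Metric.mem_closedBall, Real.dist_eq]
    show |x - (a0 + R0) / 2| ≤ (R0 - a0) / 2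
    exact abs_le.2 ⟨by linarith, by linarith⟩
  have hb2 : ∀ x, x ≤ a0 / 2 → b x = 0 := by
    intro x hx
    apply b.zero_of_le_dist
    rw [Real.dist_eq]
    show (R0 - a0) / 2 + η ≤ |x - (a0 + R0) / 2|
    rw [abs_sub_comm]
    refine le_trans ?_ (le_abs_self _)
    linarith
  have hb3 : ∀ x, R0 + 1 ≤ x → b x = 0 := by
    intro x hx
    apply b.zero_of_le_dist
    rw [Real.dist_eq]
    show (R0 - a0) / 2 + η ≤ |x - (a0 + R0) / 2|
    refine le_trans ?_ (le_abs_self _)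
    linarith
  refine ⟨fun x => ((b x : ℝ) : ℂ) * (((P.eval x : ℝ) : ℂ) + Complex.I * ((Q.eval x : ℝ) : ℂ)), ?_,
    fun x hx => by simp only; rw [hb2 x hx]; simp, fun x hx => by simp only; rw [hb3 x hx]; simp,
    fun x => ?_⟩
  · refine (Complex.ofRealCLM.contDiff.comp b.contDiff).mul ?_
    have hc : ∀ S : Polynomial ℝ, ContDiff ℝ (⊤ : ℕ∞) fun x : ℝ => S.eval x := by
      intro S
      have := Polynomial.contDiff_aeval (𝕜 := ℝ) S (n := ((⊤ : ℕ∞) : WithTop ℕ∞))
      simpa [Polynomial.coe_aeval_eq_eval] using this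
    refine (Complex.ofRealCLM.contDiff.comp (hc P)).add (contDiff_const.mul ?_)
    exact Complex.ofRealCLM.contDiff.comp (hc Q)
  · change ‖((b x : ℝ) : ℂ) * (((P.eval x : ℝ) : ℂ) + Complex.I * ((Q.eval x : ℝ) : ℂ)) - Ψ x‖ ≤ 2 * δ
    have hb0 : 0 ≤ b x := b.nonneg
    have hb1' : b x ≤ 1 := b.le_one
    have hbΨ : Ψ x = ((b x : ℝ) : ℂ) * Ψ x := by
      rcases le_or_gt x a0 with hx | hx
      · rw [h0 x hx, mul_zero]
      · rcases le_or_gt R0 x with hx2 | hx2
        · rw [hR x hx2, mul_zero]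
        · rw [hb1 x hx.le hx2.le]
          simp
    rcases lt_or_ge x (a0 / 2) with hx | hx
    · rw [hb2 x hx.le, h0 x (by linarith)]
      simp
      linarith
    · rcases lt_or_ge (R0 + 1) x with hx2 | hx2
      · rw [hb3 x hx2.le, hR x (by linarith)]
        simp
        linarith
      · have h1 := hP x ⟨hx, hx2⟩
        have h2 := hQ x ⟨hx, hx2⟩
        have e : ((b x : ℝ) : ℂ) * (((P.eval x : ℝ) : ℂ) + Complex.I * ((Q.eval x : ℝ) : ℂ)) - Ψ x =
            ((b x : ℝ) : ℂ) * (((P.eval x - (Ψ x).re : ℝ) : ℂ) +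
              Complex.I * ((Q.eval x - (Ψ x).im : ℝ) : ℂ)) := by
          have h3 : Ψ x = ((Ψ x).re : ℂ) + ((Ψ x).im : ℂ) * Complex.I := (Complex.re_add_im _).symm
          conv_lhs => rw [hbΨ]
          push_cast
          linear_combination (-((b x : ℝ) : ℂ)) * h3
        rw [e, norm_mul, Complex.norm_real, Real.norm_eq_abs, abs_of_nonneg hb0]
        have h4 : ‖((P.eval x - (Ψ x).re : ℝ) : ℂ) + Complex.I * ((Q.eval x - (Ψ x).im : ℝ) : ℂ)‖ ≤ 2 * δ := by
          refine (norm_add_le _ _).trans ?_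
          rw [norm_mul, Complex.norm_I, one_mul, Complex.norm_real, Complex.norm_real,
            Real.norm_eq_abs, Real.norm_eq_abs]
          linarith
        calc b x * _ ≤ 1 * (2 * δ) := by gcongr
          _ = 2 * δ := one_mul _

/-- from smooth to continuous test functions -/
lemma test_cont {u : ℂ → ℂ} (hu : Continuous u) {K : ℕ} {P : ℝ≥0∞} (hP1 : 1 ≤ P) {C : ℝ≥0∞}
    (hC : C ≠ ⊤)
    (H : ∀ (g : ℝ → ℂ) (a0 R0 : ℝ), ContDiff ℝ (⊤ : ℕ∞) g → 0 < a0 → (∀ x, x ≤ a0 → g x = 0) →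
      (∀ x, R0 ≤ x → g x = 0) →
      ‖∫ z : ℂ, u z * radk K g z‖ₑ ≤ C * eLpNorm (radk K g) P (volume : Measure ℂ))
    {Ψ : ℝ → ℂ} (hΨ : Continuous Ψ) {a0 R0 : ℝ} (ha : 0 < a0) (haR : a0 < R0)
    (h0 : ∀ x, x ≤ a0 → Ψ x = 0) (hR : ∀ x, R0 ≤ x → Ψ x = 0) :
    ‖∫ z : ℂ, u z * radk K Ψ z‖ₑ ≤ C * eLpNorm (radk K Ψ) P (volume : Measure ℂ) := by
  set B : Set ℂ := Metric.closedBall 0 (R0 + 2) with hB
  have hBc : IsCompact B := isCompact_closedBall _ _
  have hR0 : 0 < R0 := by linarith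
  -- the bounding function
  set β : ℂ → ℂ := B.indicator (fun z => z ^ K) with hβ
  have hβm : MemLp β P (volume : Measure ℂ) := by
    rw [hβ, memLp_indicator_iff_restrict hBc.measurableSet]
    obtain ⟨D, hD⟩ := hBc.exists_bound_of_continuousOn (f := fun z : ℂ => z ^ K) (by fun_prop)
    have : IsFiniteMeasure (volume.restrict B : Measure ℂ) :=
      ⟨by rw [Measure.restrict_apply_univ]; exact hBc.measure_lt_top⟩
    refine MemLp.of_bound (by fun_prop) D ?_
    filter_upwards [ae_restrict_mem hBc.measurableSet] with z hz using hD z hz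
  have huβ : Integrable (fun z => u z * β z) := by
    have e : (fun z => u z * β z) = B.indicator (fun z => u z * z ^ K) := by
      funext z
      rw [hβ]
      by_cases hz : z ∈ B
      · rw [indicator_of_mem hz, indicator_of_mem hz]
      · rw [indicator_of_notMem hz, indicator_of_notMem hz, mul_zero]
    rw [e, integrable_indicator_iff hBc.measurableSet]
    exact (hu.mul (continuous_id.pow K)).continuousOn.integrableOn_compact hBc
  -- outside of the ball
  have hout : ∀ (φ : ℝ → ℂ), (∀ x, R0 + 1 ≤ x → φ x = 0) → ∀ z, z ∉ B → φ (Complex.normSq z) = 0 := by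
    intro φ hφ z hz
    apply hφ
    rw [hB, Metric.mem_closedBall, dist_zero_right, not_le] at hz
    rw [Complex.normSq_eq_norm_sq]
    nlinarith
  have hlim : Tendsto (fun j : ℕ => C * eLpNorm (radk K Ψ) P (volume : Measure ℂ) +
      ENNReal.ofReal (2 * (1 / ((j : ℝ) + 1))) * (C * eLpNorm β P (volume : Measure ℂ) +
        ∫⁻ z, ‖u z * β z‖ₑ)) atTop (𝓝 (C * eLpNorm (radk K Ψ) P (volume : Measure ℂ) +
      ENNReal.ofReal (2 * 0) * (C * eLpNorm β P (volume : Measure ℂ) + ∫⁻ z, ‖u z * β z‖ₑ))) := by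
    refine Tendsto.add tendsto_const_nhds ?_
    refine ENNReal.Tendsto.mul_const ?_ (Or.inr ?_)
    · refine ENNReal.tendsto_ofReal ?_
      exact (tendsto_one_div_add_atTop_nhds_zero_nat).const_mul 2
    · refine ENNReal.add_ne_top.2 ⟨ENNReal.mul_ne_top hC hβm.2.ne, ?_⟩
      exact huβ.2.ne
  simp only [mul_zero, ENNReal.ofReal_zero, zero_mul, add_zero] at hlim
  refine ge_of_tendsto' hlim fun j => ?_
  have hδ : 0 < 1 / ((j : ℝ) + 1) := by positivity
  set δ : ℝ := 1 / ((j : ℝ) + 1) with hδe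
  obtain ⟨g, hg1, hg2, hg3, hg4⟩ := approx hΨ ha haR h0 hR hδ
  have hgc : Continuous g := hg1.continuous
  have hH := H g (a0 / 2) (R0 + 1) hg1 (by linarith) hg2 hg3
  -- pointwise bound for the difference
  have hdiff : ∀ z, ‖radk K g z - radk K Ψ z‖ ≤ 2 * δ * ‖β z‖ := by
    intro z
    unfold radk
    by_cases hz : z ∈ B
    · rw [hβ, indicator_of_mem hz, ← mul_sub, norm_mul, mul_comm]
      have := hg4 (Complex.normSq z)
      gcongr
    · rw [hout g hg3 z hz, hout Ψ (fun x hx => hR x (by linarith)) z hz, hβ, indicator_of_notMem hz]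
      simp
  have m1 : AEStronglyMeasurable (radk K Ψ) (volume : Measure ℂ) := (radk_cont K hΨ).aestronglyMeasurable
  have m2 : AEStronglyMeasurable (radk K g) (volume : Measure ℂ) := (radk_cont K hgc).aestronglyMeasurable
  have hn : eLpNorm (radk K g) P (volume : Measure ℂ) ≤
      eLpNorm (radk K Ψ) P (volume : Measure ℂ) + ENNReal.ofReal (2 * δ) * eLpNorm β P (volume : Measure ℂ) := by
    have e1 : radk K g = fun z => radk K Ψ z + (radk K g z - radk K Ψ z) := by
      funext z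
      ring
    have e2 : eLpNorm (fun z => radk K g z - radk K Ψ z) P (volume : Measure ℂ) ≤
        ENNReal.ofReal (2 * δ) * eLpNorm β P (volume : Measure ℂ) := by
      have := eLpNorm_le_nnreal_smul_eLpNorm_of_ae_le_mul (c := (2 * δ).toNNReal) (f := fun z => radk K g z - radk K Ψ z)
        (g := β) (μ := (volume : Measure ℂ)) (Eventually.of_forall fun z => by
          have h1 := hdiff z
          have h2 : ((2 * δ).toNNReal : ℝ) = 2 * δ := Real.coe_toNNReal _ (by positivity)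
          rw [← NNReal.coe_le_coe]
          push_cast
          rw [h2]
          exact h1) P
      refine this.trans (le_of_eq ?_)
      rw [ENNReal.smul_def, smul_eq_mul]
      rfl
    calc eLpNorm (radk K g) P (volume : Measure ℂ)
        = eLpNorm (fun z => radk K Ψ z + (radk K g z - radk K Ψ z)) P (volume : Measure ℂ) := by rw [← e1]
      _ ≤ _ := (eLpNorm_add_le m1 (m2.sub m1) hP1).trans (add_le_add_right e2 _)
  have hcs : ∀ (φ : ℝ → ℂ), Continuous φ → (∀ x, R0 + 1 ≤ x → φ x = 0) →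
      Integrable (fun z => u z * radk K φ z) := by
    intro φ hφ hφ0
    refine (hu.mul (radk_cont K hφ)).integrable_of_hasCompactSupport ?_
    refine HasCompactSupport.intro hBc fun z hz => ?_
    change u z * (z ^ K * φ (Complex.normSq z)) = 0
    rw [hout φ hφ0 z hz]
    simp
  have i1 := hcs Ψ hΨ (fun x hx => hR x (by linarith))
  have i2 := hcs g hgc hg3
  have e3 : ∫ z : ℂ, u z * radk K Ψ z = (∫ z : ℂ, u z * radk K g z) -
      ∫ z : ℂ, u z * (radk K g z - radk K Ψ z) := by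
    have : ∫ z : ℂ, u z * (radk K g z - radk K Ψ z) = (∫ z : ℂ, u z * radk K g z) - ∫ z : ℂ, u z * radk K Ψ z := by
      rw [← integral_sub i2 i1]
      exact integral_congr_ae (Eventually.of_forall fun z => by ring)
    rw [this]
    ring
  have e4 : ‖∫ z : ℂ, u z * (radk K g z - radk K Ψ z)‖ₑ ≤ ENNReal.ofReal (2 * δ) * ∫⁻ z, ‖u z * β z‖ₑ := by
    refine (enorm_integral_le_lintegral_enorm _).trans ?_
    rw [← lintegral_const_mul' _ _ ENNReal.ofReal_ne_top]
    refine lintegral_mono fun z => ?_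
    rw [← ofReal_norm, ← ofReal_norm, ← ENNReal.ofReal_mul (by positivity)]
    refine ENNReal.ofReal_le_ofReal ?_
    rw [norm_mul, norm_mul]
    have := hdiff z
    calc ‖u z‖ * ‖radk K g z - radk K Ψ z‖ ≤ ‖u z‖ * (2 * δ * ‖β z‖) := by gcongr
      _ = _ := by ring
  calc ‖∫ z : ℂ, u z * radk K Ψ z‖ₑ ≤ ‖∫ z : ℂ, u z * radk K g z‖ₑ +
        ‖∫ z : ℂ, u z * (radk K g z - radk K Ψ z)‖ₑ := by
        rw [e3]
        exact enorm_sub_le
    _ ≤ C * (eLpNorm (radk K Ψ) P (volume : Measure ℂ) + ENNReal.ofReal (2 * δ) * eLpNorm β P (volume : Measure ℂ)) +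
        ENNReal.ofReal (2 * δ) * ∫⁻ z, ‖u z * β z‖ₑ := by
        gcongr
        exact hH.trans (by gcongr)
    _ = _ := by ring

end Pool.Agent.Q165.BP
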