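import Pool.Agent.Q165.BP.Dual2

/-!
# The dual norm, second part
-/

set_option autoImplicit false

open MeasureTheory Set Filter Topology
open scoped SchwartzMap ENNReal ContDiff
open Pool.Agent.Y282.RB (Tn)

namespace Pool.Agent.Q165.BP

/-- the test profile -/
noncomputable def psi (K : ℕ) (p : ℝ) (u : ℂ → ℂ) (χ : ℝ → ℝ) (a0 : ℝ) (x : ℝ) : ℂ :=
  ((χ x * ‖u ((√x : ℝ) : ℂ)‖ ^ (p - 2) : ℝ) : ℂ) * (starRingEnd ℂ) (u ((√x : ℝ) : ℂ)) *
    (((√(max x a0) : ℝ) : ℂ) ^ K)⁻¹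

lemma psi_cont {K : ℕ} {p : ℝ} (hp : 2 ≤ p) {u : ℂ → ℂ} (hu : Continuous u) {χ : ℝ → ℝ} (hχ : Continuous χ)
    {a0 : ℝ} (ha : 0 < a0) : Continuous (psi K p u χ a0) := by
  have h1 : Continuous fun x : ℝ => u ((√x : ℝ) : ℂ) :=
    hu.comp (Complex.continuous_ofReal.comp Real.continuous_sqrt)
  have h2 : Continuous fun x : ℝ => ‖u ((√x : ℝ) : ℂ)‖ ^ (p - 2) :=
    h1.norm.rpow_const fun x => Or.inr (by linarith)
  have h3 : Continuous fun x : ℝ => (((√(max x a0) : ℝ) : ℂ) ^ K)⁻¹ := by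
    refine Continuous.inv₀ ?_ fun x => ?_
    · exact (Complex.continuous_ofReal.comp (Real.continuous_sqrt.comp
        (continuous_id.max continuous_const))).pow K
    · refine pow_ne_zero _ ?_
      rw [Complex.ofReal_ne_zero]
      have : 0 < max x a0 := lt_of_lt_of_le ha (le_max_right _ _)
      positivity
  unfold psi
  exact ((Complex.continuous_ofReal.comp (hχ.mul h2)).mul (Complex.continuous_conj.comp h1)).mul h3

lemma psi_eq {K : ℕ} {p : ℝ} {u : ℂ → ℂ} {χ : ℝ → ℝ} {a0 : ℝ} (ha : 0 < a0)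
    (hrot : ∀ a z : ℂ, ‖a‖ = 1 → a ^ K * u (a * z) = u z) (hχ : ∀ x, x ≤ a0 → χ x = 0) (z : ℂ) :
    radk K (psi K p u χ a0) z =
      ((χ (Complex.normSq z) * ‖u z‖ ^ (p - 2) : ℝ) : ℂ) * (starRingEnd ℂ) (u z) := by
  unfold radk psi
  rcases le_or_gt (Complex.normSq z) a0 with h | h
  · rw [hχ _ h]
    simp
  · have hz : z ≠ 0 := by
      rintro rfl
      rw [Complex.normSq_zero] at h
      linarith
    have hn : ‖z‖ ≠ 0 := norm_ne_zero_iff.2 hz
    have hs : √(Complex.normSq z) = ‖z‖ := rfl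
    rw [max_eq_left h.le, hs]
    set a : ℂ := z / ((‖z‖ : ℝ) : ℂ) with hae
    have ha1 : ‖a‖ = 1 := by
      rw [hae, norm_div, Complex.norm_real, norm_norm, div_self hn]
    have hnc : ((‖z‖ : ℝ) : ℂ) ≠ 0 := Complex.ofReal_ne_zero.2 hn
    have haz : a * ((‖z‖ : ℝ) : ℂ) = z := by
      rw [hae]
      field_simp
    have h1 := hrot a ((‖z‖ : ℝ) : ℂ) ha1
    rw [haz] at h1
    rw [← h1, map_mul, norm_mul, norm_pow, ha1, one_pow, one_mul, map_pow]
    have h2 : a * (starRingEnd ℂ) a = 1 := by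
      rw [Complex.mul_conj, Complex.normSq_eq_norm_sq, ha1]
      simp
    have h3 : z ^ K * ((starRingEnd ℂ) a) ^ K * (((‖z‖ : ℝ) : ℂ) ^ K)⁻¹ = 1 := by
      have : z ^ K = a ^ K * ((‖z‖ : ℝ) : ℂ) ^ K := by rw [← mul_pow, haz]
      rw [this]
      have h4 : a ^ K * (starRingEnd ℂ) a ^ K = 1 := by rw [← mul_pow, h2, one_pow]
      have h5 : ((‖z‖ : ℝ) : ℂ) ^ K ≠ 0 := pow_ne_zero _ hnc
      field_simp
      linear_combination h4
    linear_combination (((χ (Complex.normSq z) * ‖u z‖ ^ (p - 2) : ℝ) : ℂ) * (starRingEnd ℂ) (u z)) * h3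

lemma one_step {u : ℂ → ℂ} (hu : Continuous u) {K : ℕ}
    (hrot : ∀ a z : ℂ, ‖a‖ = 1 → a ^ K * u (a * z) = u z)
    {p q : ℝ} (hp : 2 ≤ p) (hq : 1 < q) (hpq : (p - 1) * q = p) {C : ℝ≥0∞} (hC : C ≠ ⊤)
    (H : ∀ (g : ℝ → ℂ) (a0 R0 : ℝ), ContDiff ℝ (⊤ : ℕ∞) g → 0 < a0 → (∀ x, x ≤ a0 → g x = 0) →
      (∀ x, R0 ≤ x → g x = 0) →
      ‖∫ z : ℂ, u z * radk K g z‖ₑ ≤ C * eLpNorm (radk K g) (ENNReal.ofReal q) (volume : Measure ℂ))
    {χ : ℝ → ℝ} (hχ : Continuous χ) (hχ1 : ∀ x, 0 ≤ χ x ∧ χ x ≤ 1) {a0 R0 : ℝ} (ha : 0 < a0)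
    (haR : a0 < R0) (h0 : ∀ x, x ≤ a0 → χ x = 0) (hR : ∀ x, R0 ≤ x → χ x = 0) :
    (∫⁻ z : ℂ, ENNReal.ofReal (χ (Complex.normSq z) * ‖u z‖ ^ p)) ≤ C ^ p := by
  have hp0 : 0 < p := by linarith
  have hq0 : 0 < q := by linarith
  set J : ℝ≥0∞ := ∫⁻ z : ℂ, ENNReal.ofReal (χ (Complex.normSq z) * ‖u z‖ ^ p) with hJ
  have hR0 : 0 < R0 := by linarith
  have hP : (1 : ℝ≥0∞) ≤ ENNReal.ofReal q := by
    rw [← ENNReal.ofReal_one]
    exact ENNReal.ofReal_le_ofReal hq.le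
  have h1 := test_cont hu hP hC H (psi_cont (K := K) hp hu hχ ha) ha haR
    (fun x hx => by unfold psi; rw [h0 x hx]; simp) (fun x hx => by unfold psi; rw [hR x hx]; simp)
  have hw : ∀ z, radk K (psi K p u χ a0) z =
      ((χ (Complex.normSq z) * ‖u z‖ ^ (p - 2) : ℝ) : ℂ) * (starRingEnd ℂ) (u z) := fun z =>
    psi_eq ha hrot h0 z
  -- the pairing
  have hr : ∀ z, u z * radk K (psi K p u χ a0) z = ((χ (Complex.normSq z) * ‖u z‖ ^ p : ℝ) : ℂ) := by
    intro z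
    rw [hw z]
    have e1 : ‖u z‖ ^ p = ‖u z‖ ^ (p - 2) * ‖u z‖ ^ 2 := by
      rw [← Real.rpow_two, ← Real.rpow_add_of_nonneg (norm_nonneg _) (by linarith) (by norm_num)]
      congr 1
      ring
    have e2 : u z * (starRingEnd ℂ) (u z) = ((‖u z‖ ^ 2 : ℝ) : ℂ) := by
      rw [Complex.mul_conj, Complex.normSq_eq_norm_sq]
    rw [e1]
    push_cast at e2 ⊢
    linear_combination ((χ (Complex.normSq z) : ℂ) * ((‖u z‖ ^ (p - 2) : ℝ) : ℂ)) * e2
  have hcont : Continuous fun z : ℂ => χ (Complex.normSq z) * ‖u z‖ ^ p :=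
    (hχ.comp Complex.continuous_normSq).mul (hu.norm.rpow_const fun x => Or.inr hp0.le)
  have hint : Integrable fun z : ℂ => χ (Complex.normSq z) * ‖u z‖ ^ p := by
    refine hcont.integrable_of_hasCompactSupport ?_
    refine HasCompactSupport.intro (isCompact_closedBall (0 : ℂ) (R0 + 1)) fun z hz => ?_
    rw [Metric.mem_closedBall, dist_zero_right, not_le] at hz
    have : R0 ≤ Complex.normSq z := by
      rw [Complex.normSq_eq_norm_sq]
      nlinarith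
    rw [hR _ this, zero_mul]
  have hJ2 : ‖∫ z : ℂ, u z * radk K (psi K p u χ a0) z‖ₑ = J := by
    simp_rw [hr]
    rw [integral_complex_ofReal, ← ofReal_norm, Complex.norm_real, Real.norm_eq_abs, abs_of_nonneg
      (integral_nonneg fun z => mul_nonneg (hχ1 _).1 (by positivity)),
      ofReal_integral_eq_lintegral_ofReal hint
        (Eventually.of_forall fun z => mul_nonneg (hχ1 _).1 (by positivity))]
  have hJt : J ≠ ⊤ := by
    rw [← hJ2]
    exact enorm_ne_top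
  -- the norm of the test function
  have hJ3 : eLpNorm (radk K (psi K p u χ a0)) (ENNReal.ofReal q) (volume : Measure ℂ) ≤ J ^ (1 / q) := by
    rw [eLpNorm_eq_lintegral_rpow_enorm_toReal (by simpa using hq0) ENNReal.ofReal_ne_top,
      ENNReal.toReal_ofReal hq0.le]
    refine ENNReal.rpow_le_rpow (lintegral_mono fun z => ?_) (by positivity)
    rw [hw z, ← ofReal_norm, ENNReal.ofReal_rpow_of_nonneg (norm_nonneg _) hq0.le]
    refine ENNReal.ofReal_le_ofReal ?_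
    have hc := hχ1 (Complex.normSq z)
    rw [norm_mul, Complex.norm_real, Real.norm_eq_abs, abs_of_nonneg (mul_nonneg hc.1 (by positivity)),
      RCLike.norm_conj, mul_assoc]
    have e1 : ‖u z‖ ^ (p - 2) * ‖u z‖ = ‖u z‖ ^ (p - 1) := by
      nth_rw 2 [← Real.rpow_one ‖u z‖]
      rw [← Real.rpow_add_of_nonneg (norm_nonneg _) (by linarith) (by norm_num)]
      congr 1
      ring
    rw [e1, Real.mul_rpow hc.1 (by positivity), ← Real.rpow_mul (norm_nonneg _), hpq]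
    refine mul_le_mul_of_nonneg_right ?_ (by positivity)
    rcases eq_or_lt_of_le hc.1 with h | h
    · rw [← h, Real.zero_rpow hq0.ne']
    · calc χ (Complex.normSq z) ^ q ≤ χ (Complex.normSq z) ^ (1 : ℝ) :=
            Real.rpow_le_rpow_of_exponent_ge h hc.2 hq.le
        _ = _ := Real.rpow_one _
  rw [hJ2] at h1
  have h2 : J ≤ C * J ^ (1 / q) := h1.trans (mul_le_mul_right hJ3 _)
  rcases eq_or_ne J 0 with h3 | h3
  · rw [h3]
    exact zero_le
  have hsum : 1 / p + 1 / q = 1 := by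
    field_simp
    linarith
  have e1 : J = J ^ (1 / p) * J ^ (1 / q) := by
    rw [← ENNReal.rpow_add _ _ h3 hJt, hsum, ENNReal.rpow_one]
  have h4 : J ^ (1 / q) ≠ 0 := by
    rw [Ne, ENNReal.rpow_eq_zero_iff]
    push Not
    exact ⟨fun h => absurd h h3, fun h => absurd h hJt⟩
  have h5 : J ^ (1 / q) ≠ ⊤ := ENNReal.rpow_ne_top_of_nonneg (by positivity) hJt
  have h6 : J ^ (1 / p) ≤ C := by
    have h7 : J ^ (1 / p) * J ^ (1 / q) ≤ C * J ^ (1 / q) := by rw [← e1]; exact h2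
    exact (ENNReal.mul_le_mul_iff_left h4 h5).1 h7
  calc J = (J ^ (1 / p)) ^ p := by
        rw [← ENNReal.rpow_mul, one_div_mul_cancel hp0.ne', ENNReal.rpow_one]
    _ ≤ C ^ p := ENNReal.rpow_le_rpow h6 hp0.le

/-- **the dual step** -/
theorem dual_step {u : ℂ → ℂ} (hu : Continuous u) {K : ℕ}
    (hrot : ∀ a z : ℂ, ‖a‖ = 1 → a ^ K * u (a * z) = u z)
    {p q : ℝ} (hp : 2 ≤ p) (hq : 1 < q) (hpq : (p - 1) * q = p) {C : ℝ≥0∞} (hC : C ≠ ⊤)
    (H : ∀ (g : ℝ → ℂ) (a0 R0 : ℝ), ContDiff ℝ (⊤ : ℕ∞) g → 0 < a0 → (∀ x, x ≤ a0 → g x = 0) →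
      (∀ x, R0 ≤ x → g x = 0) →
      ‖∫ z : ℂ, u z * radk K g z‖ₑ ≤ C * eLpNorm (radk K g) (ENNReal.ofReal q) (volume : Measure ℂ)) :
    eLpNorm u (ENNReal.ofReal p) (volume : Measure ℂ) ≤ C := by
  have hp0 : 0 < p := by linarith
  set A : ℕ → Set ℂ := fun j => {z | 1 / ((j : ℝ) + 2) ≤ Complex.normSq z ∧ Complex.normSq z ≤ (j : ℝ) + 2} with hA
  have hAm : ∀ j, MeasurableSet (A j) := fun j => by
    refine MeasurableSet.inter ?_ ?_
    · exact measurableSet_le measurable_const Complex.continuous_normSq.measurable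
    · exact measurableSet_le Complex.continuous_normSq.measurable measurable_const
  have hmono : Monotone A := by
    intro i j hij z hz
    have hij' : (i : ℝ) ≤ j := by exact_mod_cast hij
    refine ⟨le_trans ?_ hz.1, hz.2.trans (by linarith)⟩
    gcongr
  have hU : ⋃ j, A j = {0}ᶜ := by
    ext z
    simp only [hA, mem_iUnion, mem_ofPred_eq, mem_compl_iff, mem_singleton_iff]
    constructor
    · rintro ⟨j, hj1, hj2⟩ rfl
      rw [Complex.normSq_zero] at hj1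
      have : (0 : ℝ) < 1 / ((j : ℝ) + 2) := by positivity
      linarith
    · intro hz
      have hz' : 0 < Complex.normSq z := Complex.normSq_pos.2 hz
      obtain ⟨N, hN⟩ := exists_nat_ge (max (Complex.normSq z) (1 / Complex.normSq z))
      refine ⟨N, ?_, ?_⟩
      · rw [div_le_iff₀ (by positivity)]
        have h1 : 1 / Complex.normSq z ≤ N := (le_max_right _ _).trans hN
        rw [div_le_iff₀ hz'] at h1
        nlinarith
      · have h1 : Complex.normSq z ≤ N := (le_max_left _ _).trans hN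
        linarith
  have hj : ∀ j, ∫⁻ z in A j, ‖u z‖ₑ ^ p ≤ C ^ p := by
    intro j
    have hε0 : (0 : ℝ) < 1 / ((j : ℝ) + 2) := by positivity
    have hε1 : 1 / ((j : ℝ) + 2) < 1 := by
      rw [div_lt_one (by positivity)]
      have : (0 : ℝ) ≤ j := Nat.cast_nonneg j
      linarith
    obtain ⟨χ, R, hχ1, hχ2, hχ3, hχ4, hχ5⟩ := exists_cut _ hε0 hε1
    have h1 := one_step hu hrot hp hq hpq hC H hχ1.continuous hχ2 (a0 := 1 / ((j : ℝ) + 2) / 2)
      (R0 := max R 1) (by linarith) (lt_of_lt_of_le (by linarith) (le_max_right _ _)) hχ4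
      (fun x hx => hχ5 x ((le_max_left _ _).trans hx))
    refine le_trans ?_ h1
    rw [← lintegral_indicator (hAm j)]
    refine lintegral_mono fun z => ?_
    by_cases hz : z ∈ A j
    · rw [indicator_of_mem hz, hχ3 _ hz.1 (by rw [one_div_one_div]; exact hz.2), one_mul, ← ofReal_norm,
        ENNReal.ofReal_rpow_of_nonneg (norm_nonneg _) hp0.le]
    · rw [indicator_of_notMem hz]
      exact zero_le
  rw [eLpNorm_eq_lintegral_rpow_enorm_toReal (by simpa using hp0) ENNReal.ofReal_ne_top,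
      ENNReal.toReal_ofReal hp0.le]
  have h2 : ∫⁻ z : ℂ, ‖u z‖ₑ ^ p ≤ C ^ p := by
    have h3 : ∫⁻ z : ℂ, ‖u z‖ₑ ^ p = ∫⁻ z in ⋃ j, A j, ‖u z‖ₑ ^ p := by
      rw [hU, restrict_compl_singleton]
    rw [h3, setLIntegral_iUnion_of_directed _ (directed_of_isDirected_le hmono)]
    exact iSup_le hj
  calc (∫⁻ z : ℂ, ‖u z‖ₑ ^ p) ^ (1 / p) ≤ (C ^ p) ^ (1 / p) := ENNReal.rpow_le_rpow h2 (by positivity)
    _ = C := by
      rw [← ENNReal.rpow_mul, mul_one_div_cancel hp0.ne', ENNReal.rpow_one]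

/-- functions of an integral angular type -/
def ClsZ (k : ℤ) (f : ℂ → ℂ) : Prop := ∀ a z : ℂ, ‖a‖ = 1 → f (a * z) = a ^ k * f z

lemma hold {p q : ℝ} (h : p.HolderConjugate q) {f v : ℂ → ℂ} (hf : Continuous f) (hv : Continuous v) :
    ‖∫ z : ℂ, f z * v z‖ₑ ≤
      eLpNorm f (ENNReal.ofReal p) volume * eLpNorm v (ENNReal.ofReal q) volume := by
  refine (enorm_integral_le_lintegral_enorm _).trans ?_
  have := h.ennrealOfReal
  have h2 := eLpNorm_smul_le_mul_eLpNorm (p := ENNReal.ofReal p) (q := ENNReal.ofReal q) (r := 1)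
    (μ := (volume : Measure ℂ)) (f := v) (φ := f) hv.aestronglyMeasurable
    hf.aestronglyMeasurable
  rw [eLpNorm_one_eq_lintegral_enorm] at h2
  exact h2

lemma radk_cls (K : ℕ) (g : ℝ → ℂ) : Cls K (radk K g) := by
  intro a z ha
  unfold radk
  rw [mul_pow, Complex.normSq_mul, Complex.normSq_eq_norm_sq a, ha, one_pow, one_mul, mul_assoc]

lemma hc {p q : ℝ} (hp : 2 ≤ p) (hq : 1 < q) (hpq : (p - 1) * q = p) : p.HolderConjugate q := by
  have hp0 : 0 < p := by linarith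
  have hq0 : 0 < q := by linarith
  rw [Real.holderConjugate_iff]
  refine ⟨by linarith, ?_⟩
  field_simp
  linarith

lemma fin_ne {B : ℝ≥0∞} (hB : B ≠ ⊤) (f : 𝓢(ℂ, ℂ)) (P : ℝ≥0∞) :
    B * eLpNorm (⇑f) P (volume : Measure ℂ) ≠ ⊤ := by
  have h : MemLp (⇑f) P (volume : Measure ℂ) := f.memLp P volume
  exact ENNReal.mul_ne_top hB h.eLpNorm_ne_top

/-- **duality**: from `L^q` on the type `2 n - k` to `L^p` on the type `k` -/
theorem dual_main {n K : ℕ} {k : ℤ} (hK : (K : ℤ) = 2 * n - k) {p q : ℝ} (hp : 2 ≤ p) (hq : 1 < q)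
    (hpq : (p - 1) * q = p) {B : ℝ≥0∞} (hB : B ≠ ⊤)
    (HQ : ∀ w : 𝓢(ℂ, ℂ), Cls K w → eLpNorm (Tn n w) (ENNReal.ofReal q) (volume : Measure ℂ) ≤
      B * eLpNorm (⇑w) (ENNReal.ofReal q) (volume : Measure ℂ))
    (f : 𝓢(ℂ, ℂ)) (hf : ClsZ k f) :
    eLpNorm (Tn n f) (ENNReal.ofReal p) (volume : Measure ℂ) ≤
      B * eLpNorm (⇑f) (ENNReal.ofReal p) (volume : Measure ℂ) := by
  have hrot : ∀ a z : ℂ, ‖a‖ = 1 → a ^ K * Tn n f (a * z) = Tn n f z := fun a z ha => Tn_rot hf hK ha z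
  refine dual_step (Tn_cont n f) hrot hp hq hpq (fin_ne hB f _) fun g a0 R0 hg ha h0 hR => ?_
  obtain ⟨w, hw⟩ := schw K hg hR
  have hwc : Cls K w := by
    rw [hw]
    exact radk_cls K g
  have h0 : ∫ z : ℂ, Tn n f z * radk K g z = ∫ z : ℂ, f z * Tn n w z := by
    rw [← flip_Tn, hw]
  have h1 := hold (hc hp hq hpq) (f := ⇑f) (v := Tn n w) f.continuous (Tn_cont n w)
  have h2 := HQ w hwc
  rw [h0, ← hw]
  calc ‖∫ z : ℂ, f z * Tn n w z‖ₑ
      ≤ eLpNorm (⇑f) (ENNReal.ofReal p) volume * eLpNorm (Tn n w) (ENNReal.ofReal q) volume := h1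
    _ ≤ eLpNorm (⇑f) (ENNReal.ofReal p) volume * (B * eLpNorm (⇑w) (ENNReal.ofReal q) volume) :=
        mul_le_mul_right h2 _
    _ = _ := by ring

/-- **the inequality in `L^p`, `p ≥ 2`, on the angular types `k ≤ n`** -/
theorem mainp (n : ℕ) (k : ℤ) (hk : k ≤ n) {p : ℝ} (hp : 2 ≤ p) (f : 𝓢(ℂ, ℂ)) (hf : ClsZ k f) :
    eLpNorm (Tn n f) (ENNReal.ofReal p) (volume : Measure ℂ) ≤
      ENNReal.ofReal (Bd (min n ((n - k).toNat)) ^ (1 - 2 / p)) *
        eLpNorm (⇑f) (ENNReal.ofReal p) (volume : Measure ℂ) := by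
  have hp0 : 0 < p := by linarith
  obtain ⟨K, hK⟩ := Int.eq_ofNat_of_zero_le (show 0 ≤ 2 * (n : ℤ) - k by omega)
  set q : ℝ := p / (p - 1) with hq
  have hp1 : 0 < p - 1 := by linarith
  have hq1 : 1 < q := by
    rw [hq, one_lt_div hp1]
    linarith
  have hq2 : q ≤ 2 := by
    rw [hq, div_le_iff₀ hp1]
    linarith
  have hpq : (p - 1) * q = p := by
    rw [hq]
    field_simp
  refine dual_main (n := n) (K := K) hK.symm hp hq1 hpq ENNReal.ofReal_ne_top (fun w hw => ?_) f hf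
  have h1 := mainq n K (by omega) hq1 hq2 w hw
  have e1 : K - n = (n - k).toNat := by omega
  have e2 : 2 / q - 1 = 1 - 2 / p := by
    rw [hq]
    field_simp
    ring
  rw [e1, e2] at h1
  exact h1

end Pool.Agent.Q165.BP
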