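import Mathlib

/-!
# Analytic families of integrals, for complex interpolation
-/

set_option autoImplicit false

open MeasureTheory Set Filter Topology

namespace Pool.Agent.Q165.BP

variable {Y : Type*} [MeasurableSpace Y] {ν : Measure Y}

lemma norm_cexp_le {w : ℂ} {c M r : ℝ} (hM : |c| ≤ M) (hr : |w.re| ≤ r) :
    ‖Complex.exp (w * c)‖ ≤ Real.exp (r * M) := by
  rw [Complex.norm_exp]
  have h1 : (w * (c : ℂ)).re = w.re * c := by simp
  rw [h1]
  apply Real.exp_le_exp.2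
  have h0 : 0 ≤ r := (abs_nonneg _).trans hr
  calc w.re * c ≤ |w.re * c| := le_abs_self _
    _ = |w.re| * |c| := abs_mul _ _
    _ ≤ r * M := by gcongr

lemma exp_int {A : Y → ℂ} {c : Y → ℝ} (hA : Integrable A ν) (hc : AEStronglyMeasurable c ν) {M : ℝ}
    (hM : ∀ᵐ y ∂ν, |c y| ≤ M) (w : ℂ) : Integrable (fun y => A y * Complex.exp (w * c y)) ν := by
  refine hA.mul_bdd (c := Real.exp (|w.re| * M)) ?_ ?_
  · exact Complex.continuous_exp.comp_aestronglyMeasurable
      ((Complex.continuous_ofReal.comp_aestronglyMeasurable hc).const_mul w)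
  · filter_upwards [hM] with y hy
    exact norm_cexp_le hy le_rfl

lemma exp_diff {A : Y → ℂ} {c : Y → ℝ} (hA : Integrable A ν) (hc : AEStronglyMeasurable c ν) {M : ℝ}
    (hM : ∀ᵐ y ∂ν, |c y| ≤ M) :
    Differentiable ℂ (fun w : ℂ => ∫ y, A y * Complex.exp (w * c y) ∂ν) := by
  intro w₀
  have hbd : ∀ᵐ y ∂ν, ∀ w ∈ Metric.ball w₀ 1, ‖A y * (c y : ℂ) * Complex.exp (w * c y)‖ ≤
      ‖A y‖ * (M * Real.exp ((|w₀.re| + 1) * M)) := by
    filter_upwards [hM] with y hy w hw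
    have hw1 : ‖w - w₀‖ < 1 := by simpa [dist_eq_norm] using hw
    have hw2 : |w.re| ≤ |w₀.re| + 1 := by
      have h1 : |w.re - w₀.re| ≤ ‖w - w₀‖ := by
        simpa using Complex.abs_re_le_norm (w - w₀)
      have h2 : |w.re| ≤ |w₀.re| + |w.re - w₀.re| := by
        have := abs_add_le w₀.re (w.re - w₀.re)
        simpa using this
      linarith
    have hM0 : 0 ≤ M := (abs_nonneg _).trans hy
    rw [norm_mul, norm_mul, mul_assoc, Complex.norm_real, Real.norm_eq_abs]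
    have := norm_cexp_le hy hw2
    gcongr
  have h := hasDerivAt_integral_of_dominated_loc_of_deriv_le (μ := ν) (𝕜 := ℂ)
    (F := fun w y => A y * Complex.exp (w * c y))
    (F' := fun w y => A y * (c y : ℂ) * Complex.exp (w * c y)) (x₀ := w₀) (s := Metric.ball w₀ 1)
    (bound := fun y => ‖A y‖ * (M * Real.exp ((|w₀.re| + 1) * M)))
    (Metric.ball_mem_nhds w₀ one_pos)
    (Eventually.of_forall fun w => (exp_int hA hc hM w).aestronglyMeasurable)
    (exp_int hA hc hM w₀) ?_ hbd (hA.norm.mul_const _) ?_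
  · exact h.2.differentiableAt
  · exact (hA.aestronglyMeasurable.mul (Complex.continuous_ofReal.comp_aestronglyMeasurable hc)).mul
      (Complex.continuous_exp.comp_aestronglyMeasurable
        ((Complex.continuous_ofReal.comp_aestronglyMeasurable hc).const_mul w₀))
  · refine Eventually.of_forall fun y w _ => ?_
    have h1 : HasDerivAt (fun w : ℂ => w * (c y : ℂ)) (c y : ℂ) w := by
      simpa using (hasDerivAt_id w).mul_const (c y : ℂ)
    have h2 := (h1.cexp).const_mul (A y)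
    refine h2.congr_deriv ?_
    ring

lemma exp_bound {A : Y → ℂ} {c : Y → ℝ} (hA : Integrable A ν) {M : ℝ}
    (hM : ∀ᵐ y ∂ν, |c y| ≤ M) {w : ℂ} {r : ℝ} (hr : |w.re| ≤ r) :
    ‖∫ y, A y * Complex.exp (w * c y) ∂ν‖ ≤ Real.exp (r * M) * ∫ y, ‖A y‖ ∂ν := by
  rw [← integral_const_mul]
  refine norm_integral_le_of_norm_le (hA.norm.const_mul _) ?_
  filter_upwards [hM] with y hy
  rw [norm_mul, mul_comm]
  have := norm_cexp_le hy hr
  gcongr

/-- three lines, for entire functions -/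
lemma three {F : ℂ → ℂ} (hd : Differentiable ℂ F) {C : ℝ}
    (hB : ∀ w : ℂ, 0 ≤ w.re → w.re ≤ 1 → ‖F w‖ ≤ C) {a b : ℝ}
    (ha : ∀ w : ℂ, w.re = 0 → ‖F w‖ ≤ a) (hb : ∀ w : ℂ, w.re = 1 → ‖F w‖ ≤ b) {θ : ℝ}
    (h0 : 0 ≤ θ) (h1 : θ ≤ 1) : ‖F θ‖ ≤ a ^ (1 - θ) * b ^ θ := by
  have h := Complex.HadamardThreeLines.norm_le_interp_of_mem_verticalClosedStrip₀₁' F (z := (θ : ℂ))
    (a := a) (b := b) ?_ hd.diffContOnCl ?_ (fun z hz => ha z (by simpa using hz))
    (fun z hz => hb z (by simpa using hz))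
  · simpa using h
  · rw [Complex.HadamardThreeLines.verticalClosedStrip]
    simp [h0, h1]
  · refine ⟨C, ?_⟩
    rintro _ ⟨w, hw, rfl⟩
    rw [Complex.HadamardThreeLines.verticalClosedStrip] at hw
    exact hB w hw.1 hw.2

end Pool.Agent.Q165.BP
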