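import Pool.Agent.Q165.BP.Pl
import Pool.Agent.Q165.BP.Int0

/-!
# The kernel operator on a bounded interval
-/

set_option autoImplicit false

open MeasureTheory Set Filter Topology

namespace Pool.Agent.Q165.BP

/-- the kernel on the triangle -/
noncomputable def P0 (n m : ℕ) (x s : ℝ) : ℝ := if x < s then kap n m (x / s) / s else 0

lemma P0_meas (n m : ℕ) : Measurable (fun p : ℝ × ℝ => P0 n m p.1 p.2) := by
  unfold P0
  refine Measurable.ite (measurableSet_lt measurable_fst measurable_snd) ?_ measurable_const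
  exact ((kap_cont n m).measurable.comp (measurable_fst.div measurable_snd)).div measurable_snd

lemma P0_bd (n m : ℕ) : ∃ C : ℝ, 0 ≤ C ∧ ∀ x s : ℝ, 0 < x → 0 < s → |P0 n m x s| ≤ C / s := by
  obtain ⟨C, hC⟩ := (isCompact_Icc (a := (0 : ℝ)) (b := 1)).exists_bound_of_continuousOn
    (kap_cont n m).continuousOn
  have hC0 : 0 ≤ C := (norm_nonneg _).trans (hC 0 (by simp))
  refine ⟨C, hC0, fun x s hx hs => ?_⟩
  unfold P0
  split_ifs with h
  · have h1 : x / s ∈ Icc (0 : ℝ) 1 := ⟨by positivity, by rw [div_le_one hs]; exact h.le⟩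
    have h2 := hC _ h1
    rw [Real.norm_eq_abs] at h2
    rw [abs_div, abs_of_pos hs]
    gcongr
  · rw [abs_zero]
    positivity

/-- the `L^1` norm of a column -/
lemma P0_col (n m : ℕ) {R s : ℝ} (hs : 0 < s) (hsR : s ≤ R) :
    ∫ x in Ioc 0 R, |P0 n m x s| = nrm n m := by
  have h1 : ∀ x : ℝ, x ∈ Ioc 0 R → |P0 n m x s| =
      (Iio s).indicator (fun x => |kap n m (x / s)| / s) x := by
    intro x _
    unfold P0
    by_cases h : x < s
    · rw [if_pos h, indicator_of_mem (show x ∈ Iio s from h), abs_div, abs_of_pos hs]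
    · rw [if_neg h, indicator_of_notMem (show x ∉ Iio s from h), abs_zero]
  rw [setIntegral_congr_fun measurableSet_Ioc h1, setIntegral_indicator measurableSet_Iio]
  have h2 : Ioc 0 R ∩ Iio s = Ioo 0 s := by
    ext x
    simp only [mem_inter_iff, mem_Ioc, mem_Iio, mem_Ioo]
    constructor
    · rintro ⟨⟨h1, _⟩, h3⟩
      exact ⟨h1, h3⟩
    · rintro ⟨h1, h3⟩
      exact ⟨⟨h1, by linarith⟩, h3⟩
  rw [h2, ← integral_Ioc_eq_integral_Ioo, ← intervalIntegral.integral_of_le hs.le]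
  have h3 : ∫ x in (0 : ℝ)..s, |kap n m (x / s)| / s = (∫ x in (0 : ℝ)..s, |kap n m (x / s)|) / s := by
    rw [intervalIntegral.integral_div]
  rw [h3, intervalIntegral.integral_comp_div (fun y => |kap n m y|) hs.ne']
  unfold nrm
  rw [zero_div, div_self hs.ne', smul_eq_mul]
  field_simp

/-- the operator -/
noncomputable def UU (n m : ℕ) (R : ℝ) (A : ℝ → ℂ) (x : ℝ) : ℂ :=
  A x - ∫ s in x..R, ((kap n m (x / s) / s : ℝ) : ℂ) * A s

lemma inner_eq (n m : ℕ) {R : ℝ} (A : ℝ → ℂ) {x : ℝ} (hx : 0 < x) (hxR : x ≤ R) :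
    ∫ s in x..R, ((kap n m (x / s) / s : ℝ) : ℂ) * A s =
      ∫ s in Ioc 0 R, ((P0 n m x s : ℝ) : ℂ) * A s := by
  have h1 : ∀ s : ℝ, s ∈ Ioc 0 R → ((P0 n m x s : ℝ) : ℂ) * A s =
      (Ioi x).indicator (fun s => ((kap n m (x / s) / s : ℝ) : ℂ) * A s) s := by
    intro s _
    unfold P0
    by_cases h : x < s
    · rw [if_pos h, indicator_of_mem (show s ∈ Ioi x from h)]
    · rw [if_neg h, indicator_of_notMem (show s ∉ Ioi x from h)]
      simp
  rw [setIntegral_congr_fun measurableSet_Ioc h1, setIntegral_indicator measurableSet_Ioi]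
  have h2 : Ioc 0 R ∩ Ioi x = Ioc x R := by
    ext s
    simp only [mem_inter_iff, mem_Ioc, mem_Ioi]
    constructor
    · rintro ⟨⟨_, h1⟩, h3⟩
      exact ⟨h3, h1⟩
    · rintro ⟨h1, h3⟩
      exact ⟨⟨by linarith, h3⟩, h1⟩
  rw [h2, ← intervalIntegral.integral_of_le hxR]

/-- bounded measurable functions vanishing near the origin -/
structure Nice (R a0 : ℝ) (A : ℝ → ℂ) : Prop where
  meas : Measurable A
  bd : ∃ C : ℝ, ∀ x ∈ Ioc 0 R, ‖A x‖ ≤ C
  zero : ∀ x, x ≤ a0 → A x = 0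

instance finR (R : ℝ) : IsFiniteMeasure (volume.restrict (Ioc 0 R) : Measure ℝ) :=
  ⟨by rw [Measure.restrict_apply_univ]; exact measure_Ioc_lt_top⟩

lemma Nice.int {R a0 : ℝ} {A : ℝ → ℂ} (hA : Nice R a0 A) : Integrable A (volume.restrict (Ioc 0 R)) := by
  obtain ⟨C, hC⟩ := hA.bd
  refine Integrable.of_bound hA.meas.aestronglyMeasurable C ?_
  filter_upwards [ae_restrict_mem measurableSet_Ioc] with x hx using hC x hx

lemma prod_ae {R : ℝ} : ∀ᵐ p ∂((volume.restrict (Ioc 0 R) : Measure ℝ).prod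
    (volume.restrict (Ioc 0 R) : Measure ℝ)), p.1 ∈ Ioc 0 R ∧ p.2 ∈ Ioc 0 R := by
  rw [Measure.prod_restrict]
  filter_upwards [ae_restrict_mem (measurableSet_Ioc.prod measurableSet_Ioc)] with p hp
  exact hp

lemma prod_bd (n m : ℕ) {R a0 : ℝ} (ha : 0 < a0) {A : ℝ → ℂ} (hA : Nice R a0 A) :
    ∃ C : ℝ, ∀ x ∈ Ioc 0 R, ∀ s ∈ Ioc 0 R, ‖((P0 n m x s : ℝ) : ℂ) * A s‖ ≤ C := by
  obtain ⟨C, hC⟩ := hA.bd
  obtain ⟨K, hK0, hK⟩ := P0_bd n m
  refine ⟨K / a0 * |C|, fun x hx s hs => ?_⟩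
  rw [norm_mul, Complex.norm_real, Real.norm_eq_abs]
  by_cases h : s ≤ a0
  · rw [hA.zero s h, norm_zero, mul_zero]
    positivity
  · have h1 := hK x s hx.1 hs.1
    have h2 : K / s ≤ K / a0 := by
      have : a0 ≤ s := by linarith
      gcongr
    have h3 : ‖A s‖ ≤ |C| := (hC s hs).trans (le_abs_self _)
    have h4 : 0 ≤ K / a0 := by positivity
    exact mul_le_mul (h1.trans h2) h3 (norm_nonneg _) h4

lemma prod_int (n m : ℕ) {R a0 : ℝ} (ha : 0 < a0) {A : ℝ → ℂ} (hA : Nice R a0 A) :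
    Integrable (fun p : ℝ × ℝ => ((P0 n m p.1 p.2 : ℝ) : ℂ) * A p.2)
      ((volume.restrict (Ioc 0 R) : Measure ℝ).prod (volume.restrict (Ioc 0 R) : Measure ℝ)) := by
  obtain ⟨C, hC⟩ := prod_bd n m ha hA
  refine Integrable.of_bound ?_ C ?_
  · exact ((Complex.measurable_ofReal.comp (P0_meas n m)).mul
      (hA.meas.comp measurable_snd)).aestronglyMeasurable
  · filter_upwards [prod_ae] with p hp using hC _ hp.1 _ hp.2

/-- the `L^1` bound -/
theorem UU_L1 (n m : ℕ) {R a0 : ℝ} (ha : 0 < a0) {A : ℝ → ℂ} (hA : Nice R a0 A) :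
    ∫ x in Ioc 0 R, ‖UU n m R A x‖ ≤ (1 + nrm n m) * ∫ x in Ioc 0 R, ‖A x‖ := by
  have hi := prod_int n m ha hA
  have h1 : ∀ x ∈ Ioc 0 R, ‖UU n m R A x‖ ≤ ‖A x‖ + ∫ s in Ioc 0 R, ‖((P0 n m x s : ℝ) : ℂ) * A s‖ := by
    intro x hx
    unfold UU
    rw [inner_eq n m A hx.1 hx.2]
    refine (norm_sub_le _ _).trans ?_
    gcongr
    exact norm_integral_le_integral_norm _
  have h2 : ∫ x in Ioc 0 R, ‖UU n m R A x‖ ≤
      ∫ x in Ioc 0 R, (‖A x‖ + ∫ s in Ioc 0 R, ‖((P0 n m x s : ℝ) : ℂ) * A s‖) := by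
    refine integral_mono_of_nonneg (Eventually.of_forall fun _ => norm_nonneg _) ?_ ?_
    · exact hA.int.norm.add hi.norm.integral_prod_left
    · filter_upwards [ae_restrict_mem measurableSet_Ioc] with x hx using h1 x hx
  refine h2.trans ?_
  rw [integral_add hA.int.norm hi.norm.integral_prod_left, integral_integral_swap hi.norm]
  have h3 : ∫ s in Ioc 0 R, ∫ x in Ioc 0 R, ‖((P0 n m x s : ℝ) : ℂ) * A s‖ =
      ∫ s in Ioc 0 R, nrm n m * ‖A s‖ := by
    refine setIntegral_congr_fun measurableSet_Ioc fun s hs => ?_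
    simp only [norm_mul, Complex.norm_real, Real.norm_eq_abs]
    rw [integral_mul_const, P0_col n m hs.1 hs.2]
  rw [h3, integral_const_mul]
  linarith

end Pool.Agent.Q165.BP
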