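import Pool.Agent.Q165.BP.Int1

/-!
# The analytic family, and the isometry on `L^2`
-/

set_option autoImplicit false

open MeasureTheory Set Filter Topology
open scoped ContDiff
open Pool.Agent.Y282.RB.A2 (HH)

namespace Pool.Agent.Q165.BP

/-- the data of an analytic family -/
structure Fam (R a0 M : ℝ) (G H : ℝ → ℂ) (LG LH : ℝ → ℝ) : Prop where
  nice : Nice R a0 G
  measH : Measurable H
  bdH : ∃ C : ℝ, ∀ x ∈ Ioc 0 R, ‖H x‖ ≤ C
  measLG : Measurable LG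
  measLH : Measurable LH
  bdLG : ∀ x ∈ Ioc 0 R, |LG x| ≤ M
  bdLH : ∀ x ∈ Ioc 0 R, |LH x| ≤ M

/-- the twisted function -/
noncomputable def tw (G : ℝ → ℂ) (L : ℝ → ℝ) (a : ℂ) (x : ℝ) : ℂ := G x * Complex.exp (a * L x)

/-- the analytic function -/
noncomputable def FF (n m : ℕ) (R : ℝ) (G H : ℝ → ℂ) (LG LH : ℝ → ℝ) (α0 α1 β0 β1 : ℝ) (w : ℂ) : ℂ :=
  ∫ x in Ioc 0 R, UU n m R (tw G LG (α0 + w * α1)) x * tw H LH (β0 + w * β1) x

lemma tw_meas {G : ℝ → ℂ} {L : ℝ → ℝ} (hG : Measurable G) (hL : Measurable L) (a : ℂ) :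
    Measurable (tw G L a) := by
  unfold tw
  exact hG.mul (Complex.measurable_exp.comp ((Complex.measurable_ofReal.comp hL).const_mul a))

lemma tw_norm (G : ℝ → ℂ) (L : ℝ → ℝ) (a : ℂ) (x : ℝ) :
    ‖tw G L a x‖ = ‖G x‖ * Real.exp (a.re * L x) := by
  unfold tw
  rw [norm_mul, Complex.norm_exp]
  congr 2
  simp

lemma tw_bd {R M : ℝ} {G : ℝ → ℂ} {L : ℝ → ℝ} (hG : ∃ C : ℝ, ∀ x ∈ Ioc 0 R, ‖G x‖ ≤ C)
    (hL : ∀ x ∈ Ioc 0 R, |L x| ≤ M) (a : ℂ) : ∃ C : ℝ, ∀ x ∈ Ioc 0 R, ‖tw G L a x‖ ≤ C := by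
  obtain ⟨C, hC⟩ := hG
  refine ⟨|C| * Real.exp (|a.re| * M), fun x hx => ?_⟩
  unfold tw
  rw [norm_mul]
  have h1 := norm_cexp_le (w := a) (hL x hx) le_rfl
  have h2 : ‖G x‖ ≤ |C| := (hC x hx).trans (le_abs_self _)
  gcongr

lemma tw_nice {R a0 M : ℝ} {G : ℝ → ℂ} {L : ℝ → ℝ} (hG : Nice R a0 G) (hLm : Measurable L)
    (hL : ∀ x ∈ Ioc 0 R, |L x| ≤ M) (a : ℂ) : Nice R a0 (tw G L a) :=
  ⟨tw_meas hG.meas hLm a, tw_bd hG.bd hL a, fun x hx => by unfold tw; rw [hG.zero x hx, zero_mul]⟩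

lemma bdd_int {R : ℝ} {A : ℝ → ℂ} (hm : Measurable A) (hb : ∃ C : ℝ, ∀ x ∈ Ioc 0 R, ‖A x‖ ≤ C) :
    Integrable A (volume.restrict (Ioc 0 R)) := by
  obtain ⟨C, hC⟩ := hb
  refine Integrable.of_bound hm.aestronglyMeasurable C ?_
  filter_upwards [ae_restrict_mem measurableSet_Ioc] with x hx using hC x hx

lemma mul_bdd' {R : ℝ} {A B : ℝ → ℂ} (hA : ∃ C : ℝ, ∀ x ∈ Ioc 0 R, ‖A x‖ ≤ C)
    (hB : ∃ C : ℝ, ∀ x ∈ Ioc 0 R, ‖B x‖ ≤ C) : ∃ C : ℝ, ∀ x ∈ Ioc 0 R, ‖A x * B x‖ ≤ C := by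
  obtain ⟨C, hC⟩ := hA
  obtain ⟨D, hD⟩ := hB
  refine ⟨|C| * |D|, fun x hx => ?_⟩
  rw [norm_mul]
  exact mul_le_mul ((hC x hx).trans (le_abs_self _)) ((hD x hx).trans (le_abs_self _))
    (norm_nonneg _) (abs_nonneg _)

/-- the product integrand -/
lemma prod_int' (n m : ℕ) {R a0 : ℝ} (ha : 0 < a0) {A B : ℝ → ℂ} (hA : Nice R a0 A)
    (hBm : Measurable B) (hB : ∃ C : ℝ, ∀ x ∈ Ioc 0 R, ‖B x‖ ≤ C) :
    Integrable (fun p : ℝ × ℝ => ((P0 n m p.1 p.2 : ℝ) : ℂ) * A p.2 * B p.1)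
      ((volume.restrict (Ioc 0 R) : Measure ℝ).prod (volume.restrict (Ioc 0 R) : Measure ℝ)) := by
  obtain ⟨D, hD⟩ := hB
  refine (prod_int n m ha hA).mul_bdd (c := D) (hBm.comp measurable_fst).aestronglyMeasurable ?_
  filter_upwards [prod_ae] with p hp using hD _ hp.1

/-- the bilinear form as a difference of two integrals -/
lemma bil_eq (n m : ℕ) {R a0 : ℝ} (ha : 0 < a0) {A B : ℝ → ℂ} (hA : Nice R a0 A)
    (hBm : Measurable B) (hB : ∃ C : ℝ, ∀ x ∈ Ioc 0 R, ‖B x‖ ≤ C) :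
    ∫ x in Ioc 0 R, UU n m R A x * B x = (∫ x in Ioc 0 R, A x * B x) -
      ∫ p, ((P0 n m p.1 p.2 : ℝ) : ℂ) * A p.2 * B p.1
        ∂((volume.restrict (Ioc 0 R) : Measure ℝ).prod (volume.restrict (Ioc 0 R) : Measure ℝ)) := by
  have hi := prod_int' n m ha hA hBm hB
  have hi1 : Integrable (fun x => A x * B x) (volume.restrict (Ioc 0 R)) :=
    bdd_int (hA.meas.mul hBm) (mul_bdd' hA.bd hB)
  rw [integral_prod _ hi, ← integral_sub hi1 hi.integral_prod_left]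
  refine setIntegral_congr_fun measurableSet_Ioc fun x hx => ?_
  simp only
  rw [integral_mul_const]
  unfold UU
  rw [inner_eq n m A hx.1 hx.2]
  ring

variable {R a0 M : ℝ} {G H : ℝ → ℂ} {LG LH : ℝ → ℝ}

/-- the formula for the analytic function -/
lemma FF_eq (n m : ℕ) (ha : 0 < a0) (hF : Fam R a0 M G H LG LH) (α0 α1 β0 β1 : ℝ) (w : ℂ) :
    FF n m R G H LG LH α0 α1 β0 β1 w =
      (∫ x in Ioc 0 R, tw G LG α0 x * tw H LH β0 x *
        Complex.exp (w * ((α1 * LG x + β1 * LH x : ℝ) : ℂ))) -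
      ∫ p, ((P0 n m p.1 p.2 : ℝ) : ℂ) * tw G LG α0 p.2 * tw H LH β0 p.1 *
        Complex.exp (w * ((α1 * LG p.2 + β1 * LH p.1 : ℝ) : ℂ))
        ∂((volume.restrict (Ioc 0 R) : Measure ℝ).prod (volume.restrict (Ioc 0 R) : Measure ℝ)) := by
  unfold FF
  rw [bil_eq n m ha (tw_nice hF.nice hF.measLG hF.bdLG _) (tw_meas hF.measH hF.measLH _)
    (tw_bd hF.bdH hF.bdLH _)]
  congr 1
  · refine integral_congr_ae (Eventually.of_forall fun x => ?_)
    unfold tw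
    simp only
    have e : Complex.exp (((α0 : ℂ) + w * α1) * LG x) * Complex.exp (((β0 : ℂ) + w * β1) * LH x) =
        Complex.exp (α0 * LG x) * Complex.exp (β0 * LH x) *
          Complex.exp (w * ((α1 * LG x + β1 * LH x : ℝ) : ℂ)) := by
      rw [← Complex.exp_add, ← Complex.exp_add, ← Complex.exp_add]
      congr 1
      push_cast
      ring
    linear_combination (G x * H x) * e
  · refine integral_congr_ae (Eventually.of_forall fun p => ?_)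
    unfold tw
    simp only
    have e : Complex.exp (((α0 : ℂ) + w * α1) * LG p.2) * Complex.exp (((β0 : ℂ) + w * β1) * LH p.1) =
        Complex.exp (α0 * LG p.2) * Complex.exp (β0 * LH p.1) *
          Complex.exp (w * ((α1 * LG p.2 + β1 * LH p.1 : ℝ) : ℂ)) := by
      rw [← Complex.exp_add, ← Complex.exp_add, ← Complex.exp_add]
      congr 1
      push_cast
      ring
    linear_combination (((P0 n m p.1 p.2 : ℝ) : ℂ) * G p.2 * H p.1) * e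

/-- the analytic function is entire and bounded on the strip -/
theorem FF_prop (n m : ℕ) (ha : 0 < a0) (hF : Fam R a0 M G H LG LH) (α0 α1 β0 β1 : ℝ) :
    Differentiable ℂ (FF n m R G H LG LH α0 α1 β0 β1) ∧
    ∃ C : ℝ, ∀ w : ℂ, 0 ≤ w.re → w.re ≤ 1 → ‖FF n m R G H LG LH α0 α1 β0 β1 w‖ ≤ C := by
  have e : FF n m R G H LG LH α0 α1 β0 β1 = fun w =>
      (∫ x in Ioc 0 R, tw G LG α0 x * tw H LH β0 x *
        Complex.exp (w * ((α1 * LG x + β1 * LH x : ℝ) : ℂ))) -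
      ∫ p, ((P0 n m p.1 p.2 : ℝ) : ℂ) * tw G LG α0 p.2 * tw H LH β0 p.1 *
        Complex.exp (w * ((α1 * LG p.2 + β1 * LH p.1 : ℝ) : ℂ))
        ∂((volume.restrict (Ioc 0 R) : Measure ℝ).prod (volume.restrict (Ioc 0 R) : Measure ℝ)) :=
    funext (FF_eq n m ha hF α0 α1 β0 β1)
  have i1 : Integrable (fun x => tw G LG α0 x * tw H LH β0 x) (volume.restrict (Ioc 0 R)) :=
    bdd_int ((tw_meas hF.nice.meas hF.measLG _).mul (tw_meas hF.measH hF.measLH _))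
      (mul_bdd' (tw_bd hF.nice.bd hF.bdLG _) (tw_bd hF.bdH hF.bdLH _))
  have i2 := prod_int' n m ha (tw_nice hF.nice hF.measLG hF.bdLG (α0 : ℂ))
    (tw_meas hF.measH hF.measLH (β0 : ℂ)) (tw_bd hF.bdH hF.bdLH _)
  have m1 : AEStronglyMeasurable (fun x => α1 * LG x + β1 * LH x) (volume.restrict (Ioc 0 R)) :=
    ((hF.measLG.const_mul α1).add (hF.measLH.const_mul β1)).aestronglyMeasurable
  have m2 : AEStronglyMeasurable (fun p : ℝ × ℝ => α1 * LG p.2 + β1 * LH p.1)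
      ((volume.restrict (Ioc 0 R) : Measure ℝ).prod (volume.restrict (Ioc 0 R) : Measure ℝ)) :=
    (((hF.measLG.comp measurable_snd).const_mul α1).add
      ((hF.measLH.comp measurable_fst).const_mul β1)).aestronglyMeasurable
  have hb : ∀ x ∈ Ioc 0 R, ∀ s ∈ Ioc 0 R, |α1 * LG s + β1 * LH x| ≤ |α1| * M + |β1| * M := by
    intro x hx s hs
    refine (abs_add_le _ _).trans ?_
    rw [abs_mul, abs_mul]
    have h1 := hF.bdLG s hs
    have h2 := hF.bdLH x hx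
    gcongr
  have b1 : ∀ᵐ x ∂(volume.restrict (Ioc 0 R) : Measure ℝ), |α1 * LG x + β1 * LH x| ≤ |α1| * M + |β1| * M := by
    filter_upwards [ae_restrict_mem measurableSet_Ioc] with x hx using hb x hx x hx
  have b2 : ∀ᵐ p ∂((volume.restrict (Ioc 0 R) : Measure ℝ).prod (volume.restrict (Ioc 0 R) : Measure ℝ)),
      |α1 * LG p.2 + β1 * LH p.1| ≤ |α1| * M + |β1| * M := by
    filter_upwards [prod_ae] with p hp using hb _ hp.1 _ hp.2
  refine ⟨?_, ?_⟩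
  · rw [e]
    exact (exp_diff i1 m1 b1).sub (exp_diff i2 m2 b2)
  · refine ⟨Real.exp (1 * (|α1| * M + |β1| * M)) * (∫ x in Ioc 0 R, ‖tw G LG α0 x * tw H LH β0 x‖) +
        Real.exp (1 * (|α1| * M + |β1| * M)) *
          ∫ p, ‖((P0 n m p.1 p.2 : ℝ) : ℂ) * tw G LG α0 p.2 * tw H LH β0 p.1‖
          ∂((volume.restrict (Ioc 0 R) : Measure ℝ).prod (volume.restrict (Ioc 0 R) : Measure ℝ)),
      fun w h0 h1 => ?_⟩
    · have hr : |w.re| ≤ 1 := abs_le.2 ⟨by linarith, h1⟩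
      rw [e]
      exact (norm_sub_le _ _).trans (add_le_add (exp_bound i1 b1 hr) (exp_bound i2 b2 hr))

/-- the isometry on `L^2` for smooth functions -/
theorem UU_L2 (n m : ℕ) (hm : n ≤ m) {R : ℝ} {g : ℝ → ℂ} (hg : ContDiff ℝ (⊤ : ℕ∞) g)
    (hR : ∀ x, R - 1 ≤ x → g x = 0) :
    ∫ x in Ioc 0 R, ‖UU n m R (GG (m + n) g) x‖ ^ 2 = ∫ x in Ioc 0 R, ‖GG (m + n) g x‖ ^ 2 := by
  obtain ⟨h, h1, h2, h3⟩ := Pool.Agent.Y282.RB.A1.key n (R - 1) g hg hR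
  have h4 := l2 n m hm h1 h2
  have h5 : ∀ i, iteratedDeriv i h R = 0 := fun i => iter_zero h2 i R (by linarith)
  rw [h3] at h4
  have hsub : Ioc 0 R ⊆ Ioi (0 : ℝ) := fun x hx => hx.1
  have h6 : ∫ x in Ioi (0 : ℝ), ‖GG (m + n) g x‖ ^ 2 = ∫ x in Ioc 0 R, ‖GG (m + n) g x‖ ^ 2 := by
    refine setIntegral_eq_of_subset_of_forall_sdiff_eq_zero measurableSet_Ioi hsub fun x hx => ?_
    have hx1 : R < x := by
      by_contra hcon
      exact hx.2 ⟨hx.1, not_lt.1 hcon⟩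
    unfold GG
    rw [hR x (by linarith)]
    simp
  have h7 : ∫ x in Ioi (0 : ℝ), ‖vv n m h x‖ ^ 2 = ∫ x in Ioc 0 R, ‖vv n m h x‖ ^ 2 := by
    refine setIntegral_eq_of_subset_of_forall_sdiff_eq_zero measurableSet_Ioi hsub fun x hx => ?_
    have hx1 : R < x := by
      by_contra hcon
      exact hx.2 ⟨hx.1, not_lt.1 hcon⟩
    have hx0 : (x : ℂ) ≠ 0 := Complex.ofReal_ne_zero.2 (ne_of_gt hx.1)
    have h8 := Pool.Agent.Y282.RB.A2.real_iter (n := m) h1 n hm x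
    rw [iter_zero (f := fun t : ℝ => (t : ℂ) ^ m * h t) (R := R - 1)
      (fun y hy => by rw [h2 y hy, mul_zero]) n x (by linarith)] at h8
    have h9 : HH m h n x = 0 := by
      rcases mul_eq_zero.1 h8.symm with h | h
      · exact absurd h (pow_ne_zero _ hx0)
      · exact h
    unfold vv
    rw [h9]
    simp
  rw [h6, h7] at h4
  rw [← h4]
  refine setIntegral_congr_fun measurableSet_Ioc fun x hx => ?_
  have h8 := vv_eq n m hm h1 h5 hx.1 hx.2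
  rw [h3] at h8
  rw [h8]
  rfl

end Pool.Agent.Q165.BP
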