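import Pool.Agent.Q165.BP.Int2

/-!
# Interpolation between `L^1` and `L^2`
-/

set_option autoImplicit false

open MeasureTheory Set Filter Topology
open scoped ContDiff

namespace Pool.Agent.Q165.BP

/-! ### elementary inequalities -/

lemma exp_log_eq {X e : ℝ} (hX : 0 < X) : Real.exp (e * Real.log X) = X ^ e := by
  rw [Real.rpow_def_of_pos hX, mul_comm]

lemma z1 {t ε q : ℝ} (ht : 0 ≤ t) (hε : 0 < ε) (hq1 : 1 < q) (hq2 : q < 2) :
    (t * Real.exp ((q - 2) / 4 * Real.log (t ^ 2 + ε ^ 2))) ^ 2 ≤ t ^ q := by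
  rcases ht.eq_or_lt with h | h
  · rw [← h, zero_mul, Real.zero_rpow (by linarith)]
    norm_num
  · have hX : 0 < t ^ 2 + ε ^ 2 := by positivity
    rw [exp_log_eq hX, mul_pow, ← Real.rpow_natCast ((t ^ 2 + ε ^ 2) ^ ((q - 2) / 4)) 2,
      ← Real.rpow_mul hX.le]
    have h1 : (t ^ 2 + ε ^ 2) ^ ((q - 2) / 4 * ((2 : ℕ) : ℝ)) ≤ (t ^ 2) ^ ((q - 2) / 4 * ((2 : ℕ) : ℝ)) := by
      refine Real.rpow_le_rpow_of_nonpos (by positivity) (by nlinarith) ?_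
      push_cast
      linarith
    have h2 : t ^ q = t ^ 2 * (t ^ 2) ^ ((q - 2) / 4 * ((2 : ℕ) : ℝ)) := by
      rw [← Real.rpow_natCast t 2, ← Real.rpow_mul h.le, ← Real.rpow_add h]
      congr 1
      push_cast
      ring
    rw [h2]
    gcongr

lemma z2 {t ε q : ℝ} (ht : 0 ≤ t) (hε : 0 < ε) (hq1 : 1 < q) (hq2 : q < 2) :
    t * Real.exp ((q - 1) / 2 * Real.log (t ^ 2 + ε ^ 2)) ≤ t ^ q + ε ^ (q - 1) * t := by
  have hX : 0 < t ^ 2 + ε ^ 2 := by positivity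
  rw [exp_log_eq hX]
  have h1 : (t ^ 2 + ε ^ 2) ^ ((q - 1) / 2) ≤ (t ^ 2) ^ ((q - 1) / 2) + (ε ^ 2) ^ ((q - 1) / 2) :=
    Real.rpow_add_le_add_rpow (by positivity) (by positivity) (by linarith) (by linarith)
  have h2 : (t ^ 2) ^ ((q - 1) / 2) = t ^ (q - 1) := by
    rw [← Real.rpow_natCast t 2, ← Real.rpow_mul ht]
    congr 1
    push_cast
    ring
  have h3 : (ε ^ 2) ^ ((q - 1) / 2) = ε ^ (q - 1) := by
    rw [← Real.rpow_natCast ε 2, ← Real.rpow_mul hε.le]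
    congr 1
    push_cast
    ring
  have h4 : t * t ^ (q - 1) = t ^ q := by
    rcases ht.eq_or_lt with h | h
    · rw [← h, zero_mul, Real.zero_rpow (by linarith)]
    · rw [← Real.rpow_one_add' h.le (by linarith)]
      congr 1
      ring
  calc _ ≤ t * (t ^ (q - 1) + ε ^ (q - 1)) := by
        rw [h2, h3] at h1
        gcongr
    _ = _ := by rw [mul_add, h4]; ring

lemma z3 {t ε : ℝ} (ht : 0 ≤ t) (hε : 0 < ε) :
    t * Real.exp ((-1 / 2) * Real.log (t ^ 2 + ε ^ 2)) ≤ 1 := by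
  have hX : 0 < t ^ 2 + ε ^ 2 := by positivity
  rw [exp_log_eq hX, show (-1 / 2 : ℝ) = -(1 / 2) by ring, Real.rpow_neg hX.le, ← Real.sqrt_eq_rpow]
  rw [← div_eq_mul_inv, div_le_one (Real.sqrt_pos.2 hX)]
  exact Real.le_sqrt_of_sq_le (by nlinarith)

lemma z4 {t ε q : ℝ} (ht : 0 ≤ t) (hε : 0 < ε) (hq1 : 1 < q) (hq2 : q < 2) :
    t ^ q - ε ^ q ≤ t ^ 2 * Real.exp ((q - 2) / 2 * Real.log (t ^ 2 + ε ^ 2)) := by
  have hX : 0 < t ^ 2 + ε ^ 2 := by positivity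
  rw [exp_log_eq hX]
  have h1 : t ^ 2 * (t ^ 2 + ε ^ 2) ^ ((q - 2) / 2) =
      (t ^ 2 + ε ^ 2) ^ (q / 2) - ε ^ 2 * (t ^ 2 + ε ^ 2) ^ ((q - 2) / 2) := by
    have : (t ^ 2 + ε ^ 2) ^ (q / 2) = (t ^ 2 + ε ^ 2) * (t ^ 2 + ε ^ 2) ^ ((q - 2) / 2) := by
      have e : q / 2 = 1 + (q - 2) / 2 := by ring
      rw [e, Real.rpow_add hX, Real.rpow_one]
    rw [this]
    ring
  have h2 : t ^ q ≤ (t ^ 2 + ε ^ 2) ^ (q / 2) := by
    have : t ^ q = (t ^ 2) ^ (q / 2) := by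
      rw [← Real.rpow_natCast t 2, ← Real.rpow_mul ht]
      congr 1
      push_cast
      ring
    rw [this]
    exact Real.rpow_le_rpow (by positivity) (by nlinarith) (by linarith)
  have h3 : ε ^ 2 * (t ^ 2 + ε ^ 2) ^ ((q - 2) / 2) ≤ ε ^ q := by
    have h4 : (t ^ 2 + ε ^ 2) ^ ((q - 2) / 2) ≤ (ε ^ 2) ^ ((q - 2) / 2) :=
      Real.rpow_le_rpow_of_nonpos (by positivity) (by nlinarith [sq_nonneg t]) (by linarith)
    have h5 : ε ^ q = ε ^ 2 * (ε ^ 2) ^ ((q - 2) / 2) := by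
      rw [← Real.rpow_natCast ε 2, ← Real.rpow_mul hε.le, ← Real.rpow_add hε]
      congr 1
      push_cast
      ring
    rw [h5]
    gcongr
  rw [h1]
  linarith

/-- the final algebra -/
lemma fin_alg {S T V q : ℝ} (hS : 0 ≤ S) (hT : 0 ≤ T) (hV : 0 ≤ V) (hq1 : 1 < q) (hq2 : q < 2)
    (h : S ≤ ((T * S) ^ (1 / 2 : ℝ)) ^ (1 - (2 / q - 1)) * (V * T) ^ (2 / q - 1)) :
    S ≤ V ^ (2 - q) * T := by
  rcases hS.eq_or_lt with h0 | h0
  · rw [← h0]
    positivity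
  have hq0 : 0 < q := by linarith
  have hθ1 : 0 < 2 / q - 1 := by
    rw [sub_pos, lt_div_iff₀ hq0]
    linarith
  have hθ2 : 2 / q - 1 < 1 := by
    have : 2 / q < 2 := by
      rw [div_lt_iff₀ hq0]
      linarith
    linarith
  set θ : ℝ := 2 / q - 1 with hθ
  have e1 : ((T * S) ^ (1 / 2 : ℝ)) ^ (1 - θ) = T ^ ((1 - θ) / 2) * S ^ ((1 - θ) / 2) := by
    rw [← Real.rpow_mul (by positivity), Real.mul_rpow hT hS]
    congr 2 <;> ring
  have e2 : (V * T) ^ θ = V ^ θ * T ^ θ := Real.mul_rpow hV hT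
  have e3 : S ^ ((1 - θ) / 2) * S ^ (1 / q) = S := by
    rw [← Real.rpow_add h0]
    have : (1 - θ) / 2 + 1 / q = 1 := by
      rw [hθ]
      field_simp
      ring
    rw [this, Real.rpow_one]
  have e4 : T ^ ((1 - θ) / 2) * T ^ θ = T ^ (1 / q) := by
    rcases hT.eq_or_lt with h1 | h1
    · rw [← h1, Real.zero_rpow hθ1.ne', mul_zero, Real.zero_rpow (one_div_ne_zero hq0.ne')]
    · rw [← Real.rpow_add h1]
      congr 1
      rw [hθ]
      field_simp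
      ring
  have h2 : S ^ (1 / q) ≤ V ^ θ * T ^ (1 / q) := by
    have h3 : 0 < S ^ ((1 - θ) / 2) := Real.rpow_pos_of_pos h0 _
    refine le_of_mul_le_mul_left ?_ h3
    rw [e3]
    refine h.trans (le_of_eq ?_)
    rw [e1, e2, ← e4]
    ring
  have h5 := Real.rpow_le_rpow (by positivity) h2 hq0.le
  rw [← Real.rpow_mul hS, one_div_mul_cancel hq0.ne', Real.rpow_one,
    Real.mul_rpow (by positivity) (by positivity), ← Real.rpow_mul hT, one_div_mul_cancel hq0.ne',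
    Real.rpow_one, ← Real.rpow_mul hV] at h5
  have e5 : θ * q = 2 - q := by
    rw [hθ]
    field_simp
  rw [e5] at h5
  exact h5

end Pool.Agent.Q165.BP
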