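import Pool.Agent.Q165.BP.Int3

/-!
# The inequality in `L^q` on the half line
-/

set_option autoImplicit false

open MeasureTheory Set Filter Topology
open scoped ContDiff

namespace Pool.Agent.Q165.BP

/-- continuity of the operator on smooth functions -/
lemma UU_cont (n m : ℕ) (hm : n ≤ m) {R : ℝ} {g : ℝ → ℂ} (hg : ContDiff ℝ (⊤ : ℕ∞) g)
    (hR : ∀ x, R - 1 ≤ x → g x = 0) :
    ∃ V : ℝ → ℂ, Continuous V ∧ ∀ x ∈ Ioc 0 R, UU n m R (GG (m + n) g) x = V x := by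
  obtain ⟨h, h1, h2, h3⟩ := Pool.Agent.Y282.RB.A1.key n (R - 1) g hg hR
  have h5 : ∀ i, iteratedDeriv i h R = 0 := fun i => iter_zero h2 i R (by linarith)
  refine ⟨vv n m h, ?_, fun x hx => ?_⟩
  · have := (Pool.Agent.Y282.RB.A2.HH_smooth m h1 n).continuous
    unfold vv
    exact ((Complex.continuous_ofReal.comp Real.continuous_sqrt).pow _).mul this
  · have h8 := vv_eq n m hm h1 h5 hx.1 hx.2
    rw [h3] at h8
    rw [h8]
    rfl

lemma GG_cont (k : ℕ) {g : ℝ → ℂ} (hg : Continuous g) : Continuous (GG k g) := by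
  unfold GG
  exact ((Complex.continuous_ofReal.comp Real.continuous_sqrt).pow _).mul hg

/-- the smooth twisted function -/
noncomputable def gtw (k : ℕ) (ε : ℝ) (g : ℝ → ℂ) (a : ℂ) (s : ℝ) : ℂ :=
  g s * Complex.exp (a * (Real.log (s ^ k * Complex.normSq (g s) + ε ^ 2) : ℝ))

lemma GG_normSq (k : ℕ) (g : ℝ → ℂ) {s : ℝ} (hs : 0 ≤ s) : ‖GG k g s‖ ^ 2 = s ^ k * Complex.normSq (g s) := by
  unfold GG
  rw [norm_mul, norm_pow, Complex.norm_real, Real.norm_eq_abs, abs_of_nonneg (Real.sqrt_nonneg _),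
    mul_pow, ← pow_mul, mul_comm k 2, pow_mul, Real.sq_sqrt hs, Complex.normSq_eq_norm_sq]

lemma gtw_eq (k : ℕ) (ε : ℝ) {g : ℝ → ℂ} {a0 : ℝ} (ha : 0 < a0) (h0 : ∀ x, x ≤ a0 → g x = 0) (a : ℂ) :
    GG k (gtw k ε g a) = tw (GG k g) (fun s => Real.log (‖GG k g s‖ ^ 2 + ε ^ 2)) a := by
  funext s
  rcases le_or_gt 0 s with hs | hs
  · change GG k (gtw k ε g a) s = GG k g s * Complex.exp (a * ((Real.log (‖GG k g s‖ ^ 2 + ε ^ 2) : ℝ) : ℂ))
    rw [GG_normSq k g hs]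
    unfold GG gtw
    ring
  · unfold tw
    unfold GG gtw
    rw [h0 s (by linarith)]
    simp

lemma gtw_smooth (k : ℕ) {ε : ℝ} (hε : 0 < ε) {g : ℝ → ℂ} (hg : ContDiff ℝ (⊤ : ℕ∞) g) {a0 : ℝ}
    (ha : 0 < a0) (h0 : ∀ x, x ≤ a0 → g x = 0) (a : ℂ) : ContDiff ℝ (⊤ : ℕ∞) (gtw k ε g a) := by
  unfold gtw
  refine hg.mul ?_
  refine Complex.contDiff_exp.comp ?_
  refine contDiff_const.mul ?_
  refine Complex.ofRealCLM.contDiff.comp ?_
  refine ContDiff.log ?_ fun x => ?_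
  · refine ContDiff.add ?_ contDiff_const
    exact (contDiff_id.pow k).mul (contDiff_normSq.comp hg)
  · rcases le_or_gt x 0 with hx | hx
    · rw [h0 x (by linarith)]
      simp [hε.ne']
    · have := Complex.normSq_nonneg (g x)
      positivity

lemma log_bd {V : ℝ → ℂ} (hV : Continuous V) {ε : ℝ} (hε : 0 < ε) (R : ℝ) :
    ∃ M : ℝ, ∀ x ∈ Ioc 0 R, |Real.log (‖V x‖ ^ 2 + ε ^ 2)| ≤ M := by
  have hc : Continuous (fun x => Real.log (‖V x‖ ^ 2 + ε ^ 2)) := by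
    refine Continuous.log (by fun_prop) fun x => ?_
    positivity
  obtain ⟨M, hM⟩ := (isCompact_Icc (a := (0 : ℝ)) (b := R)).exists_bound_of_continuousOn hc.continuousOn
  exact ⟨M, fun x hx => hM x ⟨hx.1.le, hx.2⟩⟩

lemma cont_bd {V : ℝ → ℂ} (hV : Continuous V) (R : ℝ) : ∃ C : ℝ, ∀ x ∈ Ioc 0 R, ‖V x‖ ≤ C := by
  obtain ⟨C, hC⟩ := (isCompact_Icc (a := (0 : ℝ)) (b := R)).exists_bound_of_continuousOn hV.continuousOn
  exact ⟨C, fun x hx => hC x ⟨hx.1.le, hx.2⟩⟩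

lemma cont_int {f : ℝ → ℝ} (hf : Continuous f) (R : ℝ) : Integrable f (volume.restrict (Ioc 0 R)) :=
  (hf.integrableOn_Icc (a := 0) (b := R)).mono_set Ioc_subset_Icc_self

/-- Cauchy–Schwarz -/
lemma cs {R : ℝ} {A B : ℝ → ℂ} (hA : Measurable A) (hB : Measurable B)
    (hAb : ∃ C : ℝ, ∀ x ∈ Ioc 0 R, ‖A x‖ ≤ C) (hBb : ∃ C : ℝ, ∀ x ∈ Ioc 0 R, ‖B x‖ ≤ C) :
    ∫ x in Ioc 0 R, ‖A x‖ * ‖B x‖ ≤ (∫ x in Ioc 0 R, ‖A x‖ ^ 2) ^ (1 / 2 : ℝ) *
      (∫ x in Ioc 0 R, ‖B x‖ ^ 2) ^ (1 / 2 : ℝ) := by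
  obtain ⟨C, hC⟩ := hAb
  obtain ⟨D, hD⟩ := hBb
  have mA : MemLp (fun x => ‖A x‖) (ENNReal.ofReal 2) (volume.restrict (Ioc 0 R)) := by
    refine MemLp.of_bound hA.norm.aestronglyMeasurable C ?_
    filter_upwards [ae_restrict_mem measurableSet_Ioc] with x hx
    rw [norm_norm]
    exact hC x hx
  have mB : MemLp (fun x => ‖B x‖) (ENNReal.ofReal 2) (volume.restrict (Ioc 0 R)) := by
    refine MemLp.of_bound hB.norm.aestronglyMeasurable D ?_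
    filter_upwards [ae_restrict_mem measurableSet_Ioc] with x hx
    rw [norm_norm]
    exact hD x hx
  have h := integral_mul_le_Lp_mul_Lq_of_nonneg (μ := volume.restrict (Ioc 0 R)) (p := 2) (q := 2)
    ⟨by norm_num, by norm_num, by norm_num⟩
    (Eventually.of_forall fun x => norm_nonneg (A x)) (Eventually.of_forall fun x => norm_nonneg (B x))
    mA mB
  simpa using h

end Pool.Agent.Q165.BP
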