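import Pool.Agent.Q165.BP.Int4

/-!
# The inequality in `L^q` on the half line, `1 < q < 2`
-/

set_option autoImplicit false

open MeasureTheory Set Filter Topology
open scoped ContDiff

namespace Pool.Agent.Q165.BP

/-- the inequality with `ε` -/
lemma Lq_eps (n m : ℕ) (hm : n ≤ m) {R a0 q : ℝ} (hR0 : 0 < R) (ha : 0 < a0) (hq1 : 1 < q) (hq2 : q < 2)
    {g : ℝ → ℂ} (hg : ContDiff ℝ (⊤ : ℕ∞) g) (h0 : ∀ x, x ≤ a0 → g x = 0)
    (hgR : ∀ x, R - 1 ≤ x → g x = 0) {V : ℝ → ℂ} (hV : Continuous V)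
    (hUV : ∀ x ∈ Ioc 0 R, UU n m R (GG (m + n) g) x = V x) {ε : ℝ} (hε : 0 < ε) :
    (∫ x in Ioc 0 R, ‖V x‖ ^ q) - ε ^ q * R ≤
      (((∫ x in Ioc 0 R, ‖GG (m + n) g x‖ ^ q) * ∫ x in Ioc 0 R, ‖V x‖ ^ q) ^ (1 / 2 : ℝ)) ^
        (1 - (2 / q - 1)) *
      ((1 + nrm n m) * ((∫ x in Ioc 0 R, ‖GG (m + n) g x‖ ^ q) +
        ε ^ (q - 1) * ∫ x in Ioc 0 R, ‖GG (m + n) g x‖)) ^ (2 / q - 1) := by
  have hq0 : 0 < q := by linarith
  have hθ0 : 0 ≤ 2 / q - 1 := by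
    rw [sub_nonneg, le_div_iff₀ hq0]
    linarith
  have hθ1 : 2 / q - 1 ≤ 1 := by
    have : 2 / q ≤ 2 := by
      rw [div_le_iff₀ hq0]
      linarith
    linarith
  set G : ℝ → ℂ := GG (m + n) g with hG
  have hGc : Continuous G := GG_cont _ hg.continuous
  set LG : ℝ → ℝ := fun s => Real.log (‖G s‖ ^ 2 + ε ^ 2) with hLG
  set LH : ℝ → ℝ := fun s => Real.log (‖V s‖ ^ 2 + ε ^ 2) with hLH
  set H : ℝ → ℂ := fun x => (starRingEnd ℂ) (V x) with hH
  have hHc : Continuous H := Complex.continuous_conj.comp hV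
  have hLGc : Continuous LG := Continuous.log (by fun_prop) fun x => by positivity
  have hLHc : Continuous LH := Continuous.log (by fun_prop) fun x => by positivity
  have hHn : ∀ x, ‖H x‖ = ‖V x‖ := fun x => Complex.norm_conj _
  obtain ⟨M1, hM1⟩ := log_bd hGc hε R
  obtain ⟨M2, hM2⟩ := log_bd hV hε R
  have hG0 : ∀ x, x ≤ a0 → G x = 0 := by
    intro x hx
    rw [hG]
    unfold GG
    rw [h0 x hx, mul_zero]
  have hN : Nice R a0 G := ⟨hGc.measurable, cont_bd hGc R, hG0⟩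
  have hFam : Fam R a0 (max M1 M2) G H LG LH :=
    ⟨hN, hHc.measurable, cont_bd hHc R, hLGc.measurable, hLHc.measurable,
      fun x hx => (hM1 x hx).trans (le_max_left _ _), fun x hx => (hM2 x hx).trans (le_max_right _ _)⟩
  obtain ⟨hd, C, hC⟩ := FF_prop n m ha hFam ((q - 2) / 4) (q / 4) ((q - 2) / 4) (-q / 4)
  have hnrm := nrm_nonneg n m
  -- `L^q` norms
  have hTi : Integrable (fun x => ‖G x‖ ^ q) (volume.restrict (Ioc 0 R)) :=
    cont_int (hGc.norm.rpow_const fun x => Or.inr hq0.le) R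
  have hSi : Integrable (fun x => ‖V x‖ ^ q) (volume.restrict (Ioc 0 R)) :=
    cont_int (hV.norm.rpow_const fun x => Or.inr hq0.le) R
  have hT0 : 0 ≤ ∫ x in Ioc 0 R, ‖G x‖ ^ q := integral_nonneg fun x => by positivity
  have hS0 : 0 ≤ ∫ x in Ioc 0 R, ‖V x‖ ^ q := integral_nonneg fun x => by positivity
  -- the left line
  have hB0 : ∀ w : ℂ, w.re = 0 → ‖FF n m R G H LG LH ((q - 2) / 4) (q / 4) ((q - 2) / 4) (-q / 4) w‖ ≤
      ((∫ x in Ioc 0 R, ‖G x‖ ^ q) * ∫ x in Ioc 0 R, ‖V x‖ ^ q) ^ (1 / 2 : ℝ) := by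
    intro w hw
    set a : ℂ := (((q - 2) / 4 : ℝ) : ℂ) + w * ((q / 4 : ℝ) : ℂ) with haa
    set b : ℂ := (((q - 2) / 4 : ℝ) : ℂ) + w * ((-q / 4 : ℝ) : ℂ) with hbb
    have hare : a.re = (q - 2) / 4 := by
      rw [haa, Complex.add_re, Complex.ofReal_re, Complex.re_mul_ofReal, hw]
      ring
    have hbre : b.re = (q - 2) / 4 := by
      rw [hbb, Complex.add_re, Complex.ofReal_re, Complex.re_mul_ofReal, hw]
      ring
    have hgs := gtw_smooth (m + n) hε hg ha h0 a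
    have hgz : ∀ x, R - 1 ≤ x → gtw (m + n) ε g a x = 0 := fun x hx => by
      unfold gtw
      rw [hgR x hx, zero_mul]
    have hge : GG (m + n) (gtw (m + n) ε g a) = tw G LG a := gtw_eq (m + n) ε ha h0 a
    obtain ⟨W, hW, hWe⟩ := UU_cont n m hm hgs hgz
    have hL2 := UU_L2 n m hm hgs hgz
    rw [hge] at hWe hL2
    unfold FF
    have e1 : ∫ x in Ioc 0 R, UU n m R (tw G LG a) x * tw H LH b x =
        ∫ x in Ioc 0 R, W x * tw H LH b x :=
      setIntegral_congr_fun measurableSet_Ioc fun x hx => by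
        rw [hWe x hx]
    have e2 : ∫ x in Ioc 0 R, ‖UU n m R (tw G LG a) x‖ ^ 2 = ∫ x in Ioc 0 R, ‖W x‖ ^ 2 :=
      setIntegral_congr_fun measurableSet_Ioc fun x hx => by
        rw [hWe x hx]
    rw [e1]
    have e3 : ‖∫ x in Ioc 0 R, W x * tw H LH b x‖ ≤ ∫ x in Ioc 0 R, ‖W x‖ * ‖tw H LH b x‖ := by
      refine (norm_integral_le_integral_norm _).trans (le_of_eq ?_)
      simp only [norm_mul]
    refine e3.trans ((cs hW.measurable (tw_meas hHc.measurable hLHc.measurable b) (cont_bd hW R)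
      (tw_bd hFam.bdH hFam.bdLH b)).trans ?_)
    rw [← e2, hL2, Real.mul_rpow hT0 hS0]
    have i1 : ∫ x in Ioc 0 R, ‖tw G LG a x‖ ^ 2 ≤ ∫ x in Ioc 0 R, ‖G x‖ ^ q := by
      refine integral_mono_of_nonneg (Eventually.of_forall fun x => by positivity) hTi
        (Eventually.of_forall fun x => ?_)
      simp only
      rw [tw_norm, hare]
      exact z1 (norm_nonneg _) hε hq1 hq2
    have i2 : ∫ x in Ioc 0 R, ‖tw H LH b x‖ ^ 2 ≤ ∫ x in Ioc 0 R, ‖V x‖ ^ q := by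
      refine integral_mono_of_nonneg (Eventually.of_forall fun x => by positivity) hSi
        (Eventually.of_forall fun x => ?_)
      simp only
      rw [tw_norm, hbre, hHn]
      exact z1 (norm_nonneg _) hε hq1 hq2
    have j1 : 0 ≤ ∫ x in Ioc 0 R, ‖tw G LG a x‖ ^ 2 := integral_nonneg fun x => by positivity
    have j2 : 0 ≤ ∫ x in Ioc 0 R, ‖tw H LH b x‖ ^ 2 := integral_nonneg fun x => by positivity
    gcongr
  -- the right line
  have hB1 : ∀ w : ℂ, w.re = 1 → ‖FF n m R G H LG LH ((q - 2) / 4) (q / 4) ((q - 2) / 4) (-q / 4) w‖ ≤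
      (1 + nrm n m) * ((∫ x in Ioc 0 R, ‖G x‖ ^ q) + ε ^ (q - 1) * ∫ x in Ioc 0 R, ‖G x‖) := by
    intro w hw
    set a : ℂ := (((q - 2) / 4 : ℝ) : ℂ) + w * ((q / 4 : ℝ) : ℂ) with haa
    set b : ℂ := (((q - 2) / 4 : ℝ) : ℂ) + w * ((-q / 4 : ℝ) : ℂ) with hbb
    have hare : a.re = (q - 1) / 2 := by
      rw [haa, Complex.add_re, Complex.ofReal_re, Complex.re_mul_ofReal, hw]
      ring
    have hbre : b.re = -1 / 2 := by
      rw [hbb, Complex.add_re, Complex.ofReal_re, Complex.re_mul_ofReal, hw]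
      ring
    have hgs := gtw_smooth (m + n) hε hg ha h0 a
    have hgz : ∀ x, R - 1 ≤ x → gtw (m + n) ε g a x = 0 := fun x hx => by
      unfold gtw
      rw [hgR x hx, zero_mul]
    have hge : GG (m + n) (gtw (m + n) ε g a) = tw G LG a := gtw_eq (m + n) ε ha h0 a
    obtain ⟨W, hW, hWe⟩ := UU_cont n m hm hgs hgz
    rw [hge] at hWe
    have hnice := tw_nice hN hLGc.measurable hFam.bdLG a
    have hL1 := UU_L1 n m ha hnice
    unfold FF
    have e1 : ∫ x in Ioc 0 R, UU n m R (tw G LG a) x * tw H LH b x =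
        ∫ x in Ioc 0 R, W x * tw H LH b x :=
      setIntegral_congr_fun measurableSet_Ioc fun x hx => by
        rw [hWe x hx]
    have e2 : ∫ x in Ioc 0 R, ‖UU n m R (tw G LG a) x‖ = ∫ x in Ioc 0 R, ‖W x‖ :=
      setIntegral_congr_fun measurableSet_Ioc fun x hx => by
        rw [hWe x hx]
    rw [e2] at hL1
    rw [e1]
    have e3 : ‖∫ x in Ioc 0 R, W x * tw H LH b x‖ ≤ ∫ x in Ioc 0 R, ‖W x‖ := by
      refine norm_integral_le_of_norm_le (cont_int hW.norm R) (Eventually.of_forall fun x => ?_)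
      rw [norm_mul, tw_norm H, hbre, hHn]
      exact mul_le_of_le_one_right (norm_nonneg _) (z3 (norm_nonneg _) hε)
    refine e3.trans (hL1.trans ?_)
    have e4 : ∫ x in Ioc 0 R, ‖tw G LG a x‖ ≤
        (∫ x in Ioc 0 R, ‖G x‖ ^ q) + ε ^ (q - 1) * ∫ x in Ioc 0 R, ‖G x‖ := by
      have hGi := cont_int hGc.norm R
      rw [← integral_const_mul, ← integral_add hTi (hGi.const_mul _)]
      refine integral_mono_of_nonneg (Eventually.of_forall fun x => norm_nonneg _)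
        (hTi.add (hGi.const_mul _)) (Eventually.of_forall fun x => ?_)
      simp only
      rw [tw_norm, hare]
      exact z2 (norm_nonneg _) hε hq1 hq2
    gcongr
  -- the value at `θ`
  have hmain := three hd hC hB0 hB1 hθ0 hθ1
  refine le_trans ?_ hmain
  have ha0 : (((q - 2) / 4 : ℝ) : ℂ) + ((2 / q - 1 : ℝ) : ℂ) * ((q / 4 : ℝ) : ℂ) = 0 := by
    rw [← Complex.ofReal_mul, ← Complex.ofReal_add]
    have : (q - 2) / 4 + (2 / q - 1) * (q / 4) = 0 := by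
      field_simp
      ring
    rw [this, Complex.ofReal_zero]
  have hb0 : (((q - 2) / 4 : ℝ) : ℂ) + ((2 / q - 1 : ℝ) : ℂ) * ((-q / 4 : ℝ) : ℂ) =
      (((q - 2) / 2 : ℝ) : ℂ) := by
    rw [← Complex.ofReal_mul, ← Complex.ofReal_add]
    congr 1
    field_simp
    ring
  have hval : FF n m R G H LG LH ((q - 2) / 4) (q / 4) ((q - 2) / 4) (-q / 4) ((2 / q - 1 : ℝ) : ℂ) =
      ((∫ x in Ioc 0 R, ‖V x‖ ^ 2 * Real.exp ((q - 2) / 2 * LH x) : ℝ) : ℂ) := by
    unfold FF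
    rw [ha0, hb0, ← integral_complex_ofReal]
    refine setIntegral_congr_fun measurableSet_Ioc fun x hx => ?_
    have e1 : tw G LG 0 = G := by
      funext x
      unfold tw
      simp
    rw [e1, hUV x hx]
    unfold tw
    rw [hH]
    simp only
    have e2 : V x * (starRingEnd ℂ) (V x) = ((‖V x‖ ^ 2 : ℝ) : ℂ) := by
      rw [Complex.mul_conj, Complex.normSq_eq_norm_sq]
    rw [← mul_assoc, e2]
    push_cast
    rfl
  rw [hval, Complex.norm_real, Real.norm_eq_abs]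
  refine le_trans ?_ (le_abs_self _)
  have hci : Integrable (fun x => ‖V x‖ ^ 2 * Real.exp ((q - 2) / 2 * LH x)) (volume.restrict (Ioc 0 R)) :=
    cont_int (by fun_prop) R
  have e5 : ε ^ q * R = ∫ _x in Ioc 0 R, ε ^ q := by
    rw [setIntegral_const, Measure.real, Real.volume_Ioc, sub_zero, ENNReal.toReal_ofReal hR0.le,
      smul_eq_mul, mul_comm]
  rw [e5, ← integral_sub hSi (integrable_const _)]
  refine integral_mono (hSi.sub (integrable_const _)) hci fun x => ?_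
  exact z4 (norm_nonneg _) hε hq1 hq2

/-- the inequality in `L^q` -/
theorem Lq (n m : ℕ) (hm : n ≤ m) {R a0 q : ℝ} (hR0 : 0 < R) (ha : 0 < a0) (hq1 : 1 < q) (hq2 : q < 2)
    {g : ℝ → ℂ} (hg : ContDiff ℝ (⊤ : ℕ∞) g) (h0 : ∀ x, x ≤ a0 → g x = 0)
    (hgR : ∀ x, R - 1 ≤ x → g x = 0) {V : ℝ → ℂ} (hV : Continuous V)
    (hUV : ∀ x ∈ Ioc 0 R, UU n m R (GG (m + n) g) x = V x) :
    ∫ x in Ioc 0 R, ‖V x‖ ^ q ≤ (1 + nrm n m) ^ (2 - q) * ∫ x in Ioc 0 R, ‖GG (m + n) g x‖ ^ q := by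
  have hq0 : 0 < q := by linarith
  have hnrm := nrm_nonneg n m
  have hθ0 : 0 ≤ 2 / q - 1 := by
    rw [sub_nonneg, le_div_iff₀ hq0]
    linarith
  refine fin_alg (integral_nonneg fun x => by positivity) (integral_nonneg fun x => by positivity)
    (by linarith) hq1 hq2 ?_
  have hlim1 : Tendsto (fun ε : ℝ => (∫ x in Ioc 0 R, ‖V x‖ ^ q) - ε ^ q * R) (𝓝[>] 0)
      (𝓝 ((∫ x in Ioc 0 R, ‖V x‖ ^ q) - 0 * R)) := by
    refine Tendsto.sub tendsto_const_nhds (Tendsto.mul_const _ ?_)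
    have := (Real.continuousAt_rpow_const 0 q (Or.inr hq0.le)).tendsto
    rw [Real.zero_rpow hq0.ne'] at this
    exact this.mono_left nhdsWithin_le_nhds
  have hlim2 : Tendsto (fun ε : ℝ =>
      (((∫ x in Ioc 0 R, ‖GG (m + n) g x‖ ^ q) * ∫ x in Ioc 0 R, ‖V x‖ ^ q) ^ (1 / 2 : ℝ)) ^
        (1 - (2 / q - 1)) *
      ((1 + nrm n m) * ((∫ x in Ioc 0 R, ‖GG (m + n) g x‖ ^ q) +
        ε ^ (q - 1) * ∫ x in Ioc 0 R, ‖GG (m + n) g x‖)) ^ (2 / q - 1)) (𝓝[>] 0)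
      (𝓝 ((((∫ x in Ioc 0 R, ‖GG (m + n) g x‖ ^ q) * ∫ x in Ioc 0 R, ‖V x‖ ^ q) ^ (1 / 2 : ℝ)) ^
        (1 - (2 / q - 1)) *
      ((1 + nrm n m) * ((∫ x in Ioc 0 R, ‖GG (m + n) g x‖ ^ q) +
        0 * ∫ x in Ioc 0 R, ‖GG (m + n) g x‖)) ^ (2 / q - 1))) := by
    refine Tendsto.const_mul _ ?_
    refine Tendsto.rpow_const ?_ (Or.inr hθ0)
    refine Tendsto.const_mul _ (Tendsto.add tendsto_const_nhds (Tendsto.mul_const _ ?_))
    have := (Real.continuousAt_rpow_const 0 (q - 1) (Or.inr (by linarith))).tendsto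
    rw [Real.zero_rpow (by linarith)] at this
    exact this.mono_left nhdsWithin_le_nhds
  have h := le_of_tendsto_of_tendsto hlim1 hlim2 (by
    filter_upwards [self_mem_nhdsWithin] with ε hε
    exact Lq_eps n m hm hR0 ha hq1 hq2 hg h0 hgR hV hUV hε)
  simpa using h

end Pool.Agent.Q165.BP
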