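import Mathlib

/-!
# The polynomial kernel of the powers of the Beurling transform on angular classes
-/

set_option autoImplicit false

open Finset MeasureTheory intervalIntegral

namespace Pool.Agent.Q165.BP

/-- Pascal's rule for sums -/
lemma sum_choose_succ (n : ℕ) (g : ℕ → ℝ) :
    ∑ j ∈ range (n + 2), ((n + 1).choose j : ℝ) * g j =
      ∑ j ∈ range (n + 1), (n.choose j : ℝ) * (g j + g (j + 1)) := by
  have h1 : ∑ j ∈ range (n + 2), ((n + 1).choose j : ℝ) * g j =
      (∑ j ∈ range (n + 1), ((n + 1).choose (j + 1) : ℝ) * g (j + 1)) + g 0 := by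
    rw [sum_range_succ' _ (n + 1)]
    simp
  have h2 : ∑ j ∈ range (n + 1), (n.choose j : ℝ) * g j =
      (∑ j ∈ range n, (n.choose (j + 1) : ℝ) * g (j + 1)) + g 0 := by
    rw [sum_range_succ' _ n]
    simp
  have h3 : ∑ j ∈ range (n + 1), (n.choose (j + 1) : ℝ) * g (j + 1) =
      ∑ j ∈ range n, (n.choose (j + 1) : ℝ) * g (j + 1) := by
    rw [sum_range_succ]
    simp
  have h4 : ∑ j ∈ range (n + 1), ((n + 1).choose (j + 1) : ℝ) * g (j + 1) =
      ∑ j ∈ range (n + 1), ((n.choose j : ℝ) * g (j + 1) + (n.choose (j + 1) : ℝ) * g (j + 1)) := by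
    refine sum_congr rfl fun j _ => ?_
    rw [Nat.choose_succ_succ]
    push_cast
    ring
  rw [h1, h4, sum_add_distrib, h3]
  have h5 : ∑ j ∈ range (n + 1), (n.choose j : ℝ) * (g j + g (j + 1)) =
      ∑ j ∈ range (n + 1), (n.choose j : ℝ) * g j +
        ∑ j ∈ range (n + 1), (n.choose j : ℝ) * g (j + 1) := by
    rw [← sum_add_distrib]
    exact sum_congr rfl fun j _ => by ring
  rw [h5, h2]
  ring

/-- Vandermonde -/
lemma vander (a b s : ℕ) :
    ∑ j ∈ range (a + 1), (a.choose j : ℝ) * (b.choose (j + s) : ℝ) = ((a + b).choose (a + s) : ℝ) := by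
  induction a generalizing s with
  | zero => simp
  | succ a ih =>
    rw [sum_choose_succ a (fun j => (b.choose (j + s) : ℝ))]
    have h : ∑ j ∈ range (a + 1), (a.choose j : ℝ) * ((b.choose (j + s) : ℝ) + (b.choose (j + 1 + s) : ℝ)) =
        ∑ j ∈ range (a + 1), (a.choose j : ℝ) * (b.choose (j + s) : ℝ) +
        ∑ j ∈ range (a + 1), (a.choose j : ℝ) * (b.choose (j + (s + 1)) : ℝ) := by
      rw [← sum_add_distrib]
      refine sum_congr rfl fun j _ => ?_
      rw [show j + 1 + s = j + (s + 1) by ring]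
      ring
    rw [h, ih, ih]
    rw [show a + 1 + b = (a + b) + 1 by ring, show a + 1 + s = (a + s) + 1 by ring,
      Nat.choose_succ_succ]
    push_cast
    rw [show a + (s + 1) = a + s + 1 by ring]

/-- alternating sums -/
noncomputable def SS (n M e : ℕ) : ℝ :=
  ∑ j ∈ range (n + 1), (n.choose j : ℝ) * ((-1) ^ j * ((M - j).choose e : ℝ))

lemma SS_zero (n M : ℕ) : SS (n + 1) M 0 = 0 := by
  unfold SS
  rw [show n + 1 + 1 = n + 2 by ring, sum_choose_succ n (fun j => (-1) ^ j * ((M - j).choose 0 : ℝ))]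
  refine sum_eq_zero fun j _ => ?_
  simp [pow_succ]

lemma SS_succ (n M e : ℕ) (h : n + 1 ≤ M) : SS (n + 1) M (e + 1) = SS n (M - 1) e := by
  unfold SS
  rw [show n + 1 + 1 = n + 2 by ring,
    sum_choose_succ n (fun j => (-1) ^ j * ((M - j).choose (e + 1) : ℝ))]
  refine sum_congr rfl fun j hj => ?_
  have hj' : j ≤ n := by
    have := mem_range.1 hj
    omega
  have e1 : M - j = (M - 1 - j) + 1 := by omega
  have e2 : M - (j + 1) = M - 1 - j := by omega
  rw [e1, e2, Nat.choose_succ_succ]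
  push_cast
  rw [pow_succ]
  ring

lemma SS_lt (n M e : ℕ) (h : n ≤ M) (he : e < n) : SS n M e = 0 := by
  induction n generalizing M e with
  | zero => omega
  | succ n ih =>
    rcases e with _ | e
    · exact SS_zero n M
    · rw [SS_succ n M e h]
      exact ih (M - 1) e (by omega) (by omega)

lemma SS_ge (n M e : ℕ) (h : n ≤ M) (he : n ≤ e) : SS n M e = ((M - n).choose (e - n) : ℝ) := by
  induction n generalizing M e with
  | zero => simp [SS]
  | succ n ih =>
    obtain ⟨e, rfl⟩ : ∃ e', e = e' + 1 := ⟨e - 1, by omega⟩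
    rw [SS_succ n M e h, ih (M - 1) e (by omega) (by omega)]
    rw [show M - 1 - n = M - (n + 1) by omega, show e - n = e + 1 - (n + 1) by omega]

/-- the coefficients -/
noncomputable def cc (n m i : ℕ) : ℝ :=
  (-1) ^ i * (((i : ℝ) + 1) * (n.choose (i + 1) : ℝ) * (m.choose (i + 1) : ℝ))

/-- the polynomial -/
noncomputable def pp (n m : ℕ) (y : ℝ) : ℝ :=
  ∑ i ∈ range n, cc n m i * (y ^ (n - 1 - i) * (1 - y) ^ i)

lemma pp_cont (n m : ℕ) : Continuous (pp n m) := by
  unfold pp
  fun_prop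

/-- Beta integrals -/
lemma beta (b a : ℕ) : ∫ y in (0 : ℝ)..1, y ^ a * (1 - y) ^ b =
    (a.factorial : ℝ) * b.factorial / ((a + b + 1).factorial : ℝ) := by
  induction b generalizing a with
  | zero =>
    simp only [pow_zero, mul_one, integral_pow, one_pow, Nat.factorial_zero, Nat.cast_one, add_zero]
    rw [zero_pow (by omega), Nat.factorial_succ]
    have : (a.factorial : ℝ) ≠ 0 := by exact_mod_cast a.factorial_ne_zero
    push_cast
    field_simp
    ring
  | succ b ih =>
    have hd : ∀ y ∈ Set.uIcc (0 : ℝ) 1, HasDerivAt (fun y : ℝ => y ^ (a + 1) * (1 - y) ^ (b + 1))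
        (((a : ℝ) + 1) * (y ^ a * (1 - y) ^ (b + 1)) - ((b : ℝ) + 1) * (y ^ (a + 1) * (1 - y) ^ b)) y := by
      intro y _
      have h1 : HasDerivAt (fun y : ℝ => y ^ (a + 1)) (((a + 1 : ℕ) : ℝ) * y ^ a) y := by
        simpa using hasDerivAt_pow (a + 1) y
      have h2 : HasDerivAt (fun y : ℝ => (1 - y) ^ (b + 1)) (((b + 1 : ℕ) : ℝ) * (1 - y) ^ b * (-1)) y := by
        have h3 : HasDerivAt (fun y : ℝ => 1 - y) (-1) y := by
          simpa using (hasDerivAt_id y).const_sub 1
        have h4 : HasDerivAt (fun y : ℝ => y ^ (b + 1)) (((b + 1 : ℕ) : ℝ) * (1 - y) ^ b) (1 - y) := by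
          simpa using hasDerivAt_pow (b + 1) (1 - y)
        exact h4.comp y h3
      refine (h1.mul h2).congr_deriv ?_
      push_cast
      ring
    have hI := integral_eq_sub_of_hasDerivAt hd (by
      apply Continuous.intervalIntegrable
      fun_prop)
    rw [intervalIntegral.integral_sub (by apply Continuous.intervalIntegrable; fun_prop)
      (by apply Continuous.intervalIntegrable; fun_prop), intervalIntegral.integral_const_mul,
      intervalIntegral.integral_const_mul, ih (a + 1)] at hI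
    have h0 : (1 : ℝ) ^ (a + 1) * (1 - 1) ^ (b + 1) - 0 ^ (a + 1) * (1 - 0) ^ (b + 1) = 0 := by
      simp
    rw [h0] at hI
    have ha : ((a : ℝ) + 1) ≠ 0 := by positivity
    have h5 : ∫ y in (0 : ℝ)..1, y ^ a * (1 - y) ^ (b + 1) =
        ((b : ℝ) + 1) * (((a + 1).factorial : ℝ) * b.factorial / ((a + 1 + b + 1).factorial : ℝ)) /
          ((a : ℝ) + 1) := by
      rw [eq_div_iff ha]
      linarith
    rw [h5, show a + 1 + b + 1 = a + (b + 1) + 1 by ring, Nat.factorial_succ a, Nat.factorial_succ b]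
    push_cast
    field_simp

/-- the defect `r_e` -/
noncomputable def rr (n m e : ℕ) : ℝ := SS n (m + e) e / ((m + e).choose e : ℝ)

/-- one term -/
lemma term_eq (n m e i : ℕ) (hi : i < n) (hm : n ≤ m) :
    cc n m i * (((m - n + e + (n - 1 - i)).factorial : ℝ) * i.factorial /
      ((m - n + e + (n - 1 - i) + i + 1).factorial : ℝ)) =
      -((n.choose (i + 1) : ℝ) * ((-1) ^ (i + 1) * ((m + e - (i + 1)).choose e : ℝ)) /
        ((m + e).choose e : ℝ)) := by
  have e1 : m - n + e + (n - 1 - i) = m + e - (i + 1) := by omega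
  have e2 : m + e - (i + 1) + i + 1 = m + e := by omega
  rw [e1, e2]
  obtain ⟨t, ht⟩ : ∃ t, m = t + (i + 1) := ⟨m - (i + 1), by omega⟩
  subst ht
  have e3 : t + (i + 1) + e - (i + 1) = t + e := by omega
  rw [e3]
  have f1 : (((t + (i + 1)).choose (i + 1) : ℕ) : ℝ) * ((i + 1).factorial : ℝ) * (t.factorial : ℝ) =
      ((t + (i + 1)).factorial : ℝ) := by
    have := Nat.choose_mul_factorial_mul_factorial (show i + 1 ≤ t + (i + 1) by omega)
    rw [show t + (i + 1) - (i + 1) = t by omega] at this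
    exact_mod_cast this
  have f2 : (((t + e).choose e : ℕ) : ℝ) * (e.factorial : ℝ) * (t.factorial : ℝ) =
      ((t + e).factorial : ℝ) := by
    have := Nat.choose_mul_factorial_mul_factorial (show e ≤ t + e by omega)
    rw [show t + e - e = t by omega] at this
    exact_mod_cast this
  have f3 : (((t + (i + 1) + e).choose e : ℕ) : ℝ) * (e.factorial : ℝ) * ((t + (i + 1)).factorial : ℝ) =
      ((t + (i + 1) + e).factorial : ℝ) := by
    have := Nat.choose_mul_factorial_mul_factorial (show e ≤ t + (i + 1) + e by omega)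
    rw [show t + (i + 1) + e - e = t + (i + 1) by omega] at this
    exact_mod_cast this
  have g1 : (t.factorial : ℝ) ≠ 0 := by exact_mod_cast t.factorial_ne_zero
  have g2 : (e.factorial : ℝ) ≠ 0 := by exact_mod_cast e.factorial_ne_zero
  have g3 : ((i + 1).factorial : ℝ) ≠ 0 := by exact_mod_cast (i + 1).factorial_ne_zero
  have g4 : (((t + (i + 1) + e).choose e : ℕ) : ℝ) ≠ 0 := by
    exact_mod_cast (Nat.choose_pos (by omega)).ne'
  have g5 : ((t + (i + 1)).factorial : ℝ) ≠ 0 := by exact_mod_cast (t + (i + 1)).factorial_ne_zero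
  have g6 : (((i + 1).factorial : ℕ) : ℝ) = ((i : ℝ) + 1) * i.factorial := by
    rw [Nat.factorial_succ]; push_cast; ring
  have g7 : (i.factorial : ℝ) ≠ 0 := by exact_mod_cast i.factorial_ne_zero
  have g8 : (((t + (i + 1)).choose (i + 1) : ℕ) : ℝ) ≠ 0 := by
    exact_mod_cast (Nat.choose_pos (by omega)).ne'
  unfold cc
  rw [← f3, ← f2, ← f1, g6, pow_succ]
  field_simp

/-- the values of the functional on monomials -/
lemma Lmono (n m e : ℕ) (hm : n ≤ m) :
    ∫ y in (0 : ℝ)..1, y ^ (m - n) * pp n m y * y ^ e = 1 - rr n m e := by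
  have h1 : ∀ y : ℝ, y ^ (m - n) * pp n m y * y ^ e =
      ∑ i ∈ range n, cc n m i * (y ^ (m - n + e + (n - 1 - i)) * (1 - y) ^ i) := by
    intro y
    unfold pp
    rw [mul_sum, sum_mul]
    refine sum_congr rfl fun i _ => ?_
    rw [pow_add, pow_add]
    ring
  simp_rw [h1]
  rw [intervalIntegral.integral_finsetSum (fun i _ => by
    apply Continuous.intervalIntegrable
    fun_prop)]
  have h2 : ∀ i ∈ range n, ∫ y in (0 : ℝ)..1, cc n m i * (y ^ (m - n + e + (n - 1 - i)) * (1 - y) ^ i) =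
      -((n.choose (i + 1) : ℝ) * ((-1) ^ (i + 1) * ((m + e - (i + 1)).choose e : ℝ)) /
        ((m + e).choose e : ℝ)) := by
    intro i hi
    rw [intervalIntegral.integral_const_mul, beta, term_eq n m e i (mem_range.1 hi) hm]
  rw [sum_congr rfl h2]
  unfold rr SS
  have h3 : ∑ j ∈ range (n + 1), (n.choose j : ℝ) * ((-1) ^ j * ((m + e - j).choose e : ℝ)) =
      (∑ j ∈ range n, (n.choose (j + 1) : ℝ) * ((-1) ^ (j + 1) * ((m + e - (j + 1)).choose e : ℝ))) +
        ((m + e).choose e : ℝ) := by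
    rw [sum_range_succ']
    simp
  have g4 : (((m + e).choose e : ℕ) : ℝ) ≠ 0 := by
    exact_mod_cast (Nat.choose_pos (by omega)).ne'
  rw [h3, sum_neg_distrib, ← sum_div]
  field_simp
  ring

lemma rr_lt (n m e : ℕ) (hm : n ≤ m) (he : e < n) : rr n m e = 0 := by
  unfold rr
  rw [SS_lt n (m + e) e (by omega) he, zero_div]

lemma rr_n (n m : ℕ) : rr n m n = 1 / ((m + n).choose n : ℝ) := by
  unfold rr
  rw [SS_ge n (m + n) n (by omega) le_rfl]
  simp

lemma rr_n1 (n m : ℕ) : rr n m (n + 1) = ((m : ℝ) + 1) / ((m + n + 1).choose (n + 1) : ℝ) := by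
  unfold rr
  rw [SS_ge n (m + (n + 1)) (n + 1) (by omega) (by omega)]
  rw [show m + (n + 1) - n = m + 1 by omega, show n + 1 - n = 1 by omega, Nat.choose_one_right]
  push_cast
  rw [show m + (n + 1) = m + n + 1 by ring]

/-- the functional -/
noncomputable def LL (n m a b : ℕ) : ℝ :=
  ∫ y in (0 : ℝ)..1, y ^ (m - n) * pp n m y * (y ^ a * (1 - y) ^ b)

lemma LL_succ (n m a b : ℕ) : LL n m a (b + 1) = LL n m a b - LL n m (a + 1) b := by
  unfold LL
  have hc := pp_cont n m
  rw [← intervalIntegral.integral_sub (by apply Continuous.intervalIntegrable; fun_prop)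
    (by apply Continuous.intervalIntegrable; fun_prop)]
  refine intervalIntegral.integral_congr fun y _ => ?_
  rw [pow_succ, pow_succ]
  ring

lemma LL_zero (n m a : ℕ) (hm : n ≤ m) : LL n m a 0 = 1 - rr n m a := by
  rw [← Lmono n m a hm]
  unfold LL
  simp

lemma LL_lt (n m : ℕ) (hm : n ≤ m) (b a : ℕ) (h : a + b < n) :
    LL n m a b = if b = 0 then 1 else 0 := by
  induction b generalizing a with
  | zero => rw [LL_zero n m a hm, rr_lt n m a hm (by omega)]; simp
  | succ b ih =>
    rw [LL_succ, ih a (by omega), ih (a + 1) (by omega)]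
    simp

lemma LL_n (n m : ℕ) (hm : n ≤ m) (b a : ℕ) (h : a + (b + 1) = n) :
    LL n m a (b + 1) = (-1) ^ b * rr n m n := by
  induction b generalizing a with
  | zero =>
    rw [LL_succ, LL_zero n m a hm, LL_zero n m (a + 1) hm, rr_lt n m a hm (by omega),
      show a + 1 = n by omega]
    simp
  | succ b ih =>
    rw [LL_succ, ih (a + 1) (by omega), LL_lt n m hm (b + 1) a (by omega)]
    simp [pow_succ]

lemma LL_n1 (n m : ℕ) (hm : n ≤ m) (b a : ℕ) (h : a + (b + 2) = n + 1) :
    LL n m a (b + 2) = (-1) ^ b * (((b : ℝ) + 2) * rr n m n - rr n m (n + 1)) := by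
  induction b generalizing a with
  | zero =>
    rw [LL_succ, LL_n n m hm 0 a (by omega), LL_succ, LL_zero n m (a + 1) hm,
      LL_zero n m (a + 1 + 1) hm, show a + 1 + 1 = n + 1 by omega, show a + 1 = n by omega]
    simp
    ring
  | succ b ih =>
    rw [LL_succ, ih (a + 1) (by omega), LL_n n m hm (b + 1) a (by omega)]
    push_cast
    rw [pow_succ]
    ring

end Pool.Agent.Q165.BP
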