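import Pool.Agent.Q165.BP.Ker

/-!
# Moments of the kernel and a bound for its `L^1` norm
-/

set_option autoImplicit false

open Finset MeasureTheory intervalIntegral

namespace Pool.Agent.Q165.BP

lemma cc_zero (n m : ℕ) : cc n m 0 = n * m := by
  unfold cc
  simp

/-- the second moment -/
lemma mom0 (n m : ℕ) (hn : 1 ≤ n) (hm : n ≤ m) :
    ∫ y in (0 : ℝ)..1, y ^ (m - n) * pp n m y ^ 2 = n * m := by
  have hc := pp_cont n m
  have h1 : ∀ y : ℝ, y ^ (m - n) * pp n m y ^ 2 =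
      ∑ i ∈ range n, cc n m i * (y ^ (m - n) * pp n m y * (y ^ (n - 1 - i) * (1 - y) ^ i)) := by
    intro y
    have : pp n m y ^ 2 = pp n m y * ∑ i ∈ range n, cc n m i * (y ^ (n - 1 - i) * (1 - y) ^ i) := by
      rw [sq]
      rfl
    rw [this, mul_sum, mul_sum]
    refine sum_congr rfl fun i _ => ?_
    ring
  simp_rw [h1]
  rw [intervalIntegral.integral_finsetSum (fun i _ => by
    apply Continuous.intervalIntegrable
    fun_prop)]
  have h2 : ∀ i ∈ range n, ∫ y in (0 : ℝ)..1, cc n m i *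
      (y ^ (m - n) * pp n m y * (y ^ (n - 1 - i) * (1 - y) ^ i)) =
      cc n m i * (if i = 0 then 1 else 0) := by
    intro i hi
    have := mem_range.1 hi
    rw [intervalIntegral.integral_const_mul]
    congr 1
    exact LL_lt n m hm i (n - 1 - i) (by omega)
  rw [sum_congr rfl h2]
  simp only [mul_ite, mul_one, mul_zero]
  rw [Finset.sum_ite_eq' (range n) 0 (cc n m)]
  rw [if_pos (mem_range.2 (by omega)), cc_zero]

lemma sgn_cc (n m i : ℕ) : cc n m i * (-1) ^ i =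
    ((i : ℝ) + 1) * (n.choose (i + 1) : ℝ) * (m.choose (i + 1) : ℝ) := by
  unfold cc
  have : ((-1 : ℝ) ^ i) * (-1) ^ i = 1 := by
    rw [← mul_pow]
    simp
  calc _ = ((-1 : ℝ) ^ i * (-1) ^ i) * (((i : ℝ) + 1) * (n.choose (i + 1) : ℝ) * (m.choose (i + 1) : ℝ)) := by
        ring
    _ = _ := by rw [this, one_mul]

lemma V1 (a m : ℕ) : ∑ i ∈ range (a + 1), ((i : ℝ) + 1) * ((a + 1).choose (i + 1) : ℝ) *
    (m.choose (i + 1) : ℝ) = ((a : ℝ) + 1) * ((a + m).choose (a + 1) : ℝ) := by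
  rw [← vander a m 1, mul_sum]
  refine sum_congr rfl fun i _ => ?_
  have h : ((a : ℝ) + 1) * (a.choose i : ℝ) = ((a + 1).choose (i + 1) : ℝ) * ((i : ℝ) + 1) := by
    exact_mod_cast Nat.add_one_mul_choose_eq a i
  rw [← mul_assoc, h]
  ring

lemma V3 (a m : ℕ) : ∑ i ∈ range (a + 2), (i : ℝ) * (((i : ℝ) + 1) * ((a + 2).choose (i + 1) : ℝ) *
    (m.choose (i + 1) : ℝ)) = ((a : ℝ) + 2) * ((a : ℝ) + 1) * ((a + m).choose (a + 2) : ℝ) := by
  rw [sum_range_succ', ← vander a m 2, mul_sum]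
  simp only [Nat.cast_zero, zero_mul, add_zero]
  refine sum_congr rfl fun i _ => ?_
  have h : ((a : ℝ) + 1) * (a.choose i : ℝ) = ((a + 1).choose (i + 1) : ℝ) * ((i : ℝ) + 1) := by
    exact_mod_cast Nat.add_one_mul_choose_eq a i
  have h2 : ((a : ℝ) + 1 + 1) * ((a + 1).choose (i + 1) : ℝ) =
      ((a + 2).choose (i + 2) : ℝ) * ((i : ℝ) + 1 + 1) := by
    exact_mod_cast Nat.add_one_mul_choose_eq (a + 1) (i + 1)
  push_cast
  have e : (a : ℝ) + 2 = (a : ℝ) + 1 + 1 := by ring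
  calc ((i : ℝ) + 1) * (((i : ℝ) + 1 + 1) * ((a + 2).choose (i + 1 + 1) : ℝ) * (m.choose (i + 1 + 1) : ℝ))
      = (((a + 2).choose (i + 2) : ℝ) * ((i : ℝ) + 1 + 1)) * ((i : ℝ) + 1) * (m.choose (i + 2) : ℝ) := by
        ring_nf
    _ = ((a : ℝ) + 1 + 1) * (((a + 1).choose (i + 1) : ℝ) * ((i : ℝ) + 1)) * (m.choose (i + 2) : ℝ) := by
        rw [← h2]
        ring
    _ = _ := by
        rw [← h, e]
        ring

/-- the moment with the weight `(1 - y) ^ 2` as a sum -/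
lemma mom2_sum (n m : ℕ) (hm : n ≤ m) :
    ∫ y in (0 : ℝ)..1, y ^ (m - n) * pp n m y ^ 2 * (1 - y) ^ 2 =
      ∑ i ∈ range n, ((i : ℝ) + 1) * (n.choose (i + 1) : ℝ) * (m.choose (i + 1) : ℝ) *
        (((i : ℝ) + 2) * rr n m n - rr n m (n + 1)) := by
  have hc := pp_cont n m
  have h1 : ∀ y : ℝ, y ^ (m - n) * pp n m y ^ 2 * (1 - y) ^ 2 =
      ∑ i ∈ range n, cc n m i * (y ^ (m - n) * pp n m y * (y ^ (n - 1 - i) * (1 - y) ^ (i + 2))) := by
    intro y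
    have : pp n m y ^ 2 = pp n m y * ∑ i ∈ range n, cc n m i * (y ^ (n - 1 - i) * (1 - y) ^ i) := by
      rw [sq]
      rfl
    rw [this, mul_sum, mul_sum, sum_mul]
    refine sum_congr rfl fun i _ => ?_
    ring
  simp_rw [h1]
  rw [intervalIntegral.integral_finsetSum (fun i _ => by
    apply Continuous.intervalIntegrable
    fun_prop)]
  refine sum_congr rfl fun i hi => ?_
  have := mem_range.1 hi
  rw [intervalIntegral.integral_const_mul]
  have h3 : ∫ y in (0 : ℝ)..1, y ^ (m - n) * pp n m y * (y ^ (n - 1 - i) * (1 - y) ^ (i + 2)) =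
      (-1) ^ i * (((i : ℝ) + 2) * rr n m n - rr n m (n + 1)) :=
    LL_n1 n m hm i (n - 1 - i) (by omega)
  rw [h3, ← mul_assoc, sgn_cc]

/-- the moment with the weight `(1 - y) ^ 2` -/
lemma mom2 (n m : ℕ) (hn : 1 ≤ n) (hm : n ≤ m) :
    ∫ y in (0 : ℝ)..1, y ^ (m - n) * pp n m y ^ 2 * (1 - y) ^ 2 =
      2 * ((n : ℝ) * m) ^ 2 / (((n : ℝ) + m) * (((n : ℝ) + m) ^ 2 - 1)) := by
  rw [mom2_sum n m hm]
  obtain ⟨a, rfl⟩ : ∃ a, n = a + 1 := ⟨n - 1, by omega⟩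
  obtain ⟨b, rfl⟩ : ∃ b, m = b + 1 := ⟨m - 1, by omega⟩
  have hsum : ∑ i ∈ range (a + 1), ((i : ℝ) + 1) * ((a + 1).choose (i + 1) : ℝ) *
      ((b + 1).choose (i + 1) : ℝ) * (((i : ℝ) + 2) * rr (a + 1) (b + 1) (a + 1) -
        rr (a + 1) (b + 1) (a + 1 + 1)) =
      (∑ i ∈ range (a + 1), (i : ℝ) * (((i : ℝ) + 1) * ((a + 1).choose (i + 1) : ℝ) *
        ((b + 1).choose (i + 1) : ℝ))) * rr (a + 1) (b + 1) (a + 1) +
      (∑ i ∈ range (a + 1), ((i : ℝ) + 1) * ((a + 1).choose (i + 1) : ℝ) *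
        ((b + 1).choose (i + 1) : ℝ)) * (2 * rr (a + 1) (b + 1) (a + 1) -
        rr (a + 1) (b + 1) (a + 1 + 1)) := by
    rw [sum_mul, sum_mul, ← sum_add_distrib]
    refine sum_congr rfl fun i _ => ?_
    ring
  have hV3 : ∑ i ∈ range (a + 1), (i : ℝ) * (((i : ℝ) + 1) * ((a + 1).choose (i + 1) : ℝ) *
      ((b + 1).choose (i + 1) : ℝ)) = ((a : ℝ) + 1) * a * ((a + b).choose (a + 1) : ℝ) := by
    rcases a with _ | a
    · simp
    · have := V3 a (b + 1)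
      rw [show a + 1 + 1 = a + 2 by ring, this, show a + (b + 1) = a + 1 + b by ring]
      push_cast
      ring
  rw [hsum, hV3, V1, rr_n, rr_n1]
  have c1 : ((a + (b + 1)).choose (a + 1) : ℝ) * ((a : ℝ) + b + 2) =
      ((b + 1 + (a + 1)).choose (a + 1) : ℝ) * ((b : ℝ) + 1) := by
    have h := Nat.choose_mul_succ_eq (a + (b + 1)) (a + 1)
    rw [show a + (b + 1) + 1 = b + 1 + (a + 1) by ring,
      show b + 1 + (a + 1) - (a + 1) = b + 1 by omega] at h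
    have h2 : (((a + (b + 1)).choose (a + 1) * (b + 1 + (a + 1)) : ℕ) : ℝ) =
      (((b + 1 + (a + 1)).choose (a + 1) * (b + 1) : ℕ) : ℝ) := by rw [h]
    push_cast at h2
    rw [← h2]
    ring
  have c2 : ((a + b).choose (a + 1) : ℝ) * ((a : ℝ) + b + 1) =
      ((a + (b + 1)).choose (a + 1) : ℝ) * (b : ℝ) := by
    have h := Nat.choose_mul_succ_eq (a + b) (a + 1)
    rw [show a + b + 1 = a + (b + 1) by ring, show a + (b + 1) - (a + 1) = b by omega] at h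
    have h2 : (((a + b).choose (a + 1) * (a + (b + 1)) : ℕ) : ℝ) =
      (((a + (b + 1)).choose (a + 1) * b : ℕ) : ℝ) := by rw [h]
    push_cast at h2
    rw [← h2]
    ring
  have c3 : ((b : ℝ) + 1 + (a + 1) + 1) * ((b + 1 + (a + 1)).choose (a + 1) : ℝ) =
      ((b + 1 + (a + 1) + 1).choose (a + 1 + 1) : ℝ) * ((a : ℝ) + 1 + 1) := by
    exact_mod_cast Nat.add_one_mul_choose_eq (b + 1 + (a + 1)) (a + 1)
  have p1 : (0 : ℝ) < ((b + 1 + (a + 1)).choose (a + 1) : ℝ) := by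
    exact_mod_cast Nat.choose_pos (by omega)
  have p2 : (0 : ℝ) < ((b + 1 + (a + 1) + 1).choose (a + 1 + 1) : ℝ) := by
    exact_mod_cast Nat.choose_pos (by omega)
  have ha : (0 : ℝ) ≤ a := Nat.cast_nonneg a
  have hb : (0 : ℝ) ≤ b := Nat.cast_nonneg b
  set C : ℝ := ((b + 1 + (a + 1)).choose (a + 1) : ℝ) with hC
  set C1 : ℝ := ((a + (b + 1)).choose (a + 1) : ℝ) with hC1
  set C2 : ℝ := ((a + b).choose (a + 1) : ℝ) with hC2
  set C3 : ℝ := ((b + 1 + (a + 1) + 1).choose (a + 1 + 1) : ℝ) with hC3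
  have e1 : C1 = C * ((b : ℝ) + 1) / ((a : ℝ) + b + 2) := by
    rw [eq_div_iff (by positivity)]
    exact c1
  have e2 : C2 = C * ((b : ℝ) + 1) / ((a : ℝ) + b + 2) * b / ((a : ℝ) + b + 1) := by
    rw [eq_div_iff (by positivity), c2, e1]
  have e3 : C3 = ((b : ℝ) + 1 + (a + 1) + 1) * C / ((a : ℝ) + 1 + 1) := by
    rw [eq_div_iff (by positivity)]
    exact c3.symm
  rw [e3, e2, e1]
  have hC0 : C ≠ 0 := p1.ne'
  push_cast
  have d1 : ((a : ℝ) + b + 2) ≠ 0 := by positivity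
  have d2 : ((a : ℝ) + b + 1) ≠ 0 := by positivity
  have d3 : ((b : ℝ) + 1 + (a + 1) + 1) ≠ 0 := by positivity
  have d4 : ((a : ℝ) + 1 + 1) ≠ 0 := by positivity
  have d5 : ((a : ℝ) + 1 + ((b : ℝ) + 1)) ≠ 0 := by positivity
  have d6 : ((a : ℝ) + 1 + ((b : ℝ) + 1)) ^ 2 - 1 ≠ 0 := by
    have : ((a : ℝ) + 1 + ((b : ℝ) + 1)) ^ 2 - 1 = ((a : ℝ) + b + 1) * ((a : ℝ) + b + 3) := by ring
    rw [this]
    positivity
  field_simp
  ring

end Pool.Agent.Q165.BP
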