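import Pool.Agent.Q165.BP.Ker2

/-!
# The `L^1` norm of the kernel
-/

set_option autoImplicit false

open Finset MeasureTheory intervalIntegral

namespace Pool.Agent.Q165.BP

/-- the kernel -/
noncomputable def kap (n m : ℕ) (y : ℝ) : ℝ := (√y) ^ (m - n) * pp n m y

lemma kap_cont (n m : ℕ) : Continuous (kap n m) := by
  have := pp_cont n m
  unfold kap
  fun_prop

lemma kap_sq (n m : ℕ) {y : ℝ} (hy : 0 ≤ y) : |kap n m y| ^ 2 = y ^ (m - n) * pp n m y ^ 2 := by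
  rw [sq_abs]
  unfold kap
  rw [mul_pow, ← pow_mul, mul_comm (m - n) 2, pow_mul, Real.sq_sqrt hy]

lemma amgm {x w t : ℝ} (hw : 0 < w) (ht : 0 < t) : x ≤ t / 2 * (x ^ 2 * w) + 1 / (2 * t) * w⁻¹ := by
  have h1 : 0 ≤ (t * w * x - 1) ^ 2 := sq_nonneg _
  have h2 : t / 2 * (x ^ 2 * w) + 1 / (2 * t) * w⁻¹ - x = (t * w * x - 1) ^ 2 / (2 * t * w) := by
    field_simp
    ring
  have h3 : 0 ≤ (t * w * x - 1) ^ 2 / (2 * t * w) := by positivity
  linarith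

lemma arctan_int (μ : ℝ) (hμ : 0 < μ) :
    ∫ y in (0 : ℝ)..1, (1 + μ ^ 2 * (1 - y) ^ 2)⁻¹ ≤ Real.pi / (2 * μ) := by
  have h1 : ∫ y in (0 : ℝ)..1, (1 + μ ^ 2 * (1 - y) ^ 2)⁻¹ =
      ∫ v in (0 : ℝ)..1, (1 + (μ * v) ^ 2)⁻¹ := by
    have := intervalIntegral.integral_comp_sub_left (a := (0 : ℝ)) (b := 1)
      (fun v : ℝ => (1 + (μ * v) ^ 2)⁻¹) 1
    simp only [sub_self, sub_zero] at this
    rw [← this]
    refine intervalIntegral.integral_congr fun y _ => ?_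
    rw [mul_pow]
  have h2 : ∫ v in (0 : ℝ)..1, (1 + (μ * v) ^ 2)⁻¹ = μ⁻¹ * Real.arctan μ := by
    rw [intervalIntegral.integral_comp_mul_left (fun v : ℝ => (1 + v ^ 2)⁻¹) hμ.ne']
    simp [integral_inv_one_add_sq]
  rw [h1, h2]
  have h3 := (Real.arctan_lt_pi_div_two μ).le
  calc μ⁻¹ * Real.arctan μ ≤ μ⁻¹ * (Real.pi / 2) := by gcongr
    _ = _ := by field_simp

/-- the `L^1` norm of the kernel -/
noncomputable def nrm (n m : ℕ) : ℝ := ∫ y in (0 : ℝ)..1, |kap n m y|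

lemma nrm_nonneg (n m : ℕ) : 0 ≤ nrm n m :=
  intervalIntegral.integral_nonneg zero_le_one fun _ _ => abs_nonneg _

theorem nrm_le (n m : ℕ) (hn : 1 ≤ n) (hm : n ≤ m) : nrm n m ≤ 11 / 5 * (n : ℝ) ^ (3 / 4 : ℝ) := by
  have hn' : (1 : ℝ) ≤ n := by exact_mod_cast hn
  have hm' : (n : ℝ) ≤ m := by exact_mod_cast hm
  have hn0 : (0 : ℝ) < n := by linarith
  have hm0 : (0 : ℝ) < m := by linarith
  set a : ℝ := (n : ℝ) ^ (1 / 4 : ℝ) with ha
  have ha0 : 0 < a := by positivity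
  have ha4 : a ^ 4 = n := by
    rw [ha, ← Real.rpow_natCast, ← Real.rpow_mul hn0.le]
    norm_num
  have ha3 : (n : ℝ) ^ (3 / 4 : ℝ) = a ^ 3 := by
    rw [ha, ← Real.rpow_natCast, ← Real.rpow_mul hn0.le]
    norm_num
  set μ : ℝ := m / (√2 * a ^ 2) with hμ
  have hs2 : (0 : ℝ) < √2 := by positivity
  have hμ0 : 0 < μ := by positivity
  have hμ2 : μ ^ 2 = m ^ 2 / (2 * a ^ 4) := by
    rw [hμ, div_pow, mul_pow, Real.sq_sqrt (by norm_num)]
    ring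
  set t : ℝ := 1 / (m * a) with ht
  have ht0 : 0 < t := by positivity
  have hkc := kap_cont n m
  have hpc := pp_cont n m
  have hw : ∀ y : ℝ, 0 < 1 + μ ^ 2 * (1 - y) ^ 2 := fun y => by positivity
  have hwc : Continuous fun y : ℝ => (1 + μ ^ 2 * (1 - y) ^ 2)⁻¹ := by
    refine Continuous.inv₀ (by fun_prop) fun y => (hw y).ne'
  have h1 : nrm n m ≤ ∫ y in (0 : ℝ)..1, (t / 2 * (y ^ (m - n) * pp n m y ^ 2) +
      t / 2 * μ ^ 2 * (y ^ (m - n) * pp n m y ^ 2 * (1 - y) ^ 2) +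
      1 / (2 * t) * (1 + μ ^ 2 * (1 - y) ^ 2)⁻¹) := by
    unfold nrm
    refine intervalIntegral.integral_mono_on zero_le_one
      (by apply Continuous.intervalIntegrable; fun_prop)
      (by apply Continuous.intervalIntegrable; fun_prop) fun y hy => ?_
    refine (amgm (x := |kap n m y|) (hw y) ht0).trans (le_of_eq ?_)
    rw [kap_sq n m hy.1]
    ring
  have h2 : ∫ y in (0 : ℝ)..1, (t / 2 * (y ^ (m - n) * pp n m y ^ 2) +
      t / 2 * μ ^ 2 * (y ^ (m - n) * pp n m y ^ 2 * (1 - y) ^ 2) +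
      1 / (2 * t) * (1 + μ ^ 2 * (1 - y) ^ 2)⁻¹) =
      t / 2 * (n * m) + t / 2 * μ ^ 2 * (2 * ((n : ℝ) * m) ^ 2 /
        (((n : ℝ) + m) * (((n : ℝ) + m) ^ 2 - 1))) +
      1 / (2 * t) * ∫ y in (0 : ℝ)..1, (1 + μ ^ 2 * (1 - y) ^ 2)⁻¹ := by
    rw [intervalIntegral.integral_add, intervalIntegral.integral_add,
      intervalIntegral.integral_const_mul, intervalIntegral.integral_const_mul,
      intervalIntegral.integral_const_mul, mom0 n m hn hm, mom2 n m hn hm]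
    · apply Continuous.intervalIntegrable; fun_prop
    · apply Continuous.intervalIntegrable; fun_prop
    · apply Continuous.intervalIntegrable; fun_prop
    · apply Continuous.intervalIntegrable; fun_prop
  rw [h2] at h1
  -- the second moment
  have h3 : 2 * ((n : ℝ) * m) ^ 2 / (((n : ℝ) + m) * (((n : ℝ) + m) ^ 2 - 1)) ≤ 2 * (n : ℝ) ^ 2 / (m : ℝ) := by
    have hL : (m : ℝ) ^ 3 ≤ ((n : ℝ) + m) * (((n : ℝ) + m) ^ 2 - 1) := by
      have e1 : (m : ℝ) ≤ (n : ℝ) + m := by linarith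
      have e2 : (m : ℝ) ^ 2 ≤ ((n : ℝ) + m) ^ 2 - 1 := by nlinarith
      calc (m : ℝ) ^ 3 = m * m ^ 2 := by ring
        _ ≤ _ := by gcongr
    have hL0 : (0 : ℝ) < (m : ℝ) ^ 3 := by positivity
    calc 2 * ((n : ℝ) * m) ^ 2 / (((n : ℝ) + m) * (((n : ℝ) + m) ^ 2 - 1))
        ≤ 2 * ((n : ℝ) * m) ^ 2 / (m : ℝ) ^ 3 := by gcongr
      _ = 2 * (n : ℝ) ^ 2 / (m : ℝ) := by field_simp
  have h4 : t / 2 * μ ^ 2 * (2 * ((n : ℝ) * m) ^ 2 /
      (((n : ℝ) + m) * (((n : ℝ) + m) ^ 2 - 1))) ≤ a ^ 3 / 2 := by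
    calc _ ≤ t / 2 * μ ^ 2 * (2 * (n : ℝ) ^ 2 / (m : ℝ)) := by gcongr
      _ = a ^ 3 / 2 := by
        rw [hμ2, ht, ← ha4]
        field_simp
  have h5 : t / 2 * ((n : ℝ) * m) = a ^ 3 / 2 := by
    rw [ht, ← ha4]
    field_simp
  have h6 : 1 / (2 * t) * ∫ y in (0 : ℝ)..1, (1 + μ ^ 2 * (1 - y) ^ 2)⁻¹ ≤ 1.12 * a ^ 3 := by
    calc _ ≤ 1 / (2 * t) * (Real.pi / (2 * μ)) := by
          have := arctan_int μ hμ0
          gcongr
      _ = Real.pi * √2 / 4 * a ^ 3 := by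
          rw [ht, hμ]
          field_simp
          ring
      _ ≤ _ := by
          have h7 : Real.pi ≤ 3.15 := Real.pi_lt_d2.le
          have h8 : √2 ≤ 1.4143 := by
            rw [Real.sqrt_le_left (by norm_num)]
            norm_num
          have h9 : Real.pi * √2 ≤ 3.15 * 1.4143 := by
            have := Real.pi_pos
            gcongr
          have h10 : Real.pi * √2 / 4 ≤ 1.12 := by linarith
          gcongr
  rw [ha3]
  have : 0 < a ^ 3 := by positivity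
  nlinarith

end Pool.Agent.Q165.BP
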