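import Pool.Agent.Q165.BP.Den

/-!
# The inequality in `L^q`, `1 < q ≤ 2`, on the angular types `k ≥ n`, and the comparison of the constants
-/

set_option autoImplicit false

open MeasureTheory Set Filter Topology Finset
open scoped SchwartzMap ENNReal ContDiff
open Pool.Agent.Y282.RB (Tn)

namespace Pool.Agent.Q165.BP

lemma nrm_zero (m : ℕ) : nrm 0 m = 0 := by
  unfold nrm kap pp
  simp

lemma nrm_le' (n m : ℕ) (hm : n ≤ m) : nrm n m ≤ 11 / 5 * (n : ℝ) ^ (3 / 4 : ℝ) := by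
  rcases Nat.eq_zero_or_pos n with h | h
  · subst h
    rw [nrm_zero, Nat.cast_zero, Real.zero_rpow (by norm_num), mul_zero]
  · exact nrm_le n m h hm

/-- the constant -/
noncomputable def Bd (N : ℕ) : ℝ := 1 + 11 / 5 * (N : ℝ) ^ (3 / 4 : ℝ)

lemma Bd_pos (N : ℕ) : 0 < Bd N := by
  unfold Bd
  positivity

/-- **the inequality in `L^q`, `1 < q ≤ 2`, on the angular types `k ≥ n`** -/
theorem mainq (n k : ℕ) (hk : n ≤ k) {q : ℝ} (hq1 : 1 < q) (hq2 : q ≤ 2) (f : 𝓢(ℂ, ℂ)) (hf : Cls k f) :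
    eLpNorm (Tn n f) (ENNReal.ofReal q) (volume : Measure ℂ) ≤
      ENNReal.ofReal (Bd (min n (k - n)) ^ (2 / q - 1)) * eLpNorm (⇑f) (ENNReal.ofReal q) (volume : Measure ℂ) := by
  have hq0 : 0 < q := by linarith
  have hθ : 0 ≤ 2 / q - 1 := by
    rw [sub_nonneg, le_div_iff₀ hq0]
    linarith
  have mono : ∀ a b : ℕ, a ≤ b → ENNReal.ofReal ((1 + nrm a b) ^ (2 / q - 1)) ≤
      ENNReal.ofReal (Bd a ^ (2 / q - 1)) := by
    intro a b hab
    refine ENNReal.ofReal_le_ofReal (Real.rpow_le_rpow ?_ ?_ hθ)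
    · have := nrm_nonneg a b
      linarith
    · unfold Bd
      have := nrm_le' a b hab
      linarith
  rcases le_total n (k - n) with h | h
  · rw [min_eq_left h]
    refine dense n k _ _ (fun g a0 R0 h1 h2 h3 h4 => ?_) f hf
    have h5 := plane n (k - n) h hq1 hq2 h1 h2 h3 h4
    rw [show k - n + n = k by omega] at h5
    exact h5.trans (mul_le_mul_left (mono n (k - n) h) _)
  · rw [min_eq_right h]
    have hf' : Cls (n + (k - n)) f := by
      rw [show n + (k - n) = k by omega]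
      exact hf
    rw [refl_norm hf']
    refine dense (k - n) k _ _ (fun g a0 R0 h1 h2 h3 h4 => ?_) f hf
    have h5 := plane (k - n) n h hq1 hq2 h1 h2 h3 h4
    rw [show n + (k - n) = k by omega] at h5
    exact h5.trans (mul_le_mul_left (mono (k - n) n h) _)

/-! ### the constants -/

lemma exp_le_ratio {u : ℝ} (h0 : 0 ≤ u) (h1 : u < 1) : Real.exp (2 * u) ≤ (1 + u) / (1 - u) := by
  have h2 := Real.hasSum_log_sub_log_of_abs_lt_one (abs_lt.2 ⟨by linarith, h1⟩)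
  have h3 : 2 * u ≤ Real.log (1 + u) - Real.log (1 - u) := by
    have := le_hasSum h2 0 (fun k _ => by positivity)
    simpa using this
  have h4 : 0 < 1 - u := by linarith
  have h5 : 0 < 1 + u := by linarith
  rw [← Real.log_div h5.ne' h4.ne'] at h3
  calc Real.exp (2 * u) ≤ Real.exp (Real.log ((1 + u) / (1 - u))) := Real.exp_le_exp.2 h3
    _ = _ := Real.exp_log (by positivity)

/-- the constant `(1/q)_n / (1/p)_n` of the question -/
noncomputable def KK (n : ℕ) (p : ℝ) : ℝ :=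
  (ascPochhammer ℝ n).eval (1 - 1 / p) / (ascPochhammer ℝ n).eval (1 / p)

lemma asc_prod (n : ℕ) (x : ℝ) : (ascPochhammer ℝ n).eval x = ∏ j ∈ Finset.range n, (x + j) := by
  induction n with
  | zero => simp
  | succ n ih =>
    rw [ascPochhammer_succ_right, Polynomial.eval_mul, ih, Finset.prod_range_succ]
    simp

lemma KK_eq (n : ℕ) (p : ℝ) : KK n p = ∏ j ∈ Finset.range n, ((1 - 1 / p + j) / (1 / p + j)) := by
  unfold KK
  rw [asc_prod, asc_prod, Finset.prod_div_distrib]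

lemma KK_ge (n : ℕ) {p : ℝ} (hp : 2 ≤ p) :
    Real.exp (∑ j ∈ Finset.range n, 2 / (2 * (j : ℝ) + 1)) ^ (1 - 2 / p) ≤ KK n p := by
  have hp0 : 0 < p := by linarith
  have hθ0 : 0 ≤ 1 - 2 / p := by
    rw [sub_nonneg, div_le_one hp0]
    exact hp
  have hθ1 : 1 - 2 / p < 1 := by
    have : 0 < 2 / p := by positivity
    linarith
  rw [KK_eq, ← Real.exp_mul, sum_mul, Real.exp_sum]
  refine prod_le_prod (fun j _ => (Real.exp_pos _).le) fun j _ => ?_
  have hj : (0 : ℝ) ≤ j := Nat.cast_nonneg j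
  have hu0 : 0 ≤ (1 - 2 / p) / (2 * (j : ℝ) + 1) := by positivity
  have hu1 : (1 - 2 / p) / (2 * (j : ℝ) + 1) < 1 := by
    rw [div_lt_one (by positivity)]
    linarith
  have h := exp_le_ratio hu0 hu1
  have e1 : 2 / (2 * (j : ℝ) + 1) * (1 - 2 / p) = 2 * ((1 - 2 / p) / (2 * (j : ℝ) + 1)) := by ring
  rw [e1]
  refine h.trans (le_of_eq ?_)
  have h2 : 0 < 1 / p + j := by positivity
  have h3 : 0 < 1 - (1 - 2 / p) / (2 * (j : ℝ) + 1) := by linarith
  rw [div_eq_div_iff h3.ne' h2.ne']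
  field_simp
  ring

lemma exp_sum_ge (n : ℕ) (hn : 1 ≤ n) :
    7 / 3 * (2 * (n : ℝ) + 1) ≤ Real.exp (∑ j ∈ Finset.range n, 2 / (2 * (j : ℝ) + 1)) := by
  induction n with
  | zero => omega
  | succ n ih =>
    rcases Nat.eq_zero_or_pos n with h | h
    · subst h
      rw [zero_add, Finset.sum_range_one, Nat.cast_zero]
      have h1 : Real.exp (2 / (2 * 0 + 1)) = Real.exp 1 * Real.exp 1 := by
        rw [← Real.exp_add]
        norm_num
      rw [h1]
      have h2 := Real.exp_one_gt_d9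
      norm_num
      nlinarith [h2]
    · have h1 := ih h
      rw [sum_range_succ, Real.exp_add]
      have hn0 : (0 : ℝ) < 2 * (n : ℝ) + 1 := by positivity
      have h2 : 1 + 2 / (2 * (n : ℝ) + 1) ≤ Real.exp (2 / (2 * (n : ℝ) + 1)) := by
        have := Real.add_one_le_exp (2 / (2 * (n : ℝ) + 1))
        linarith
      calc 7 / 3 * (2 * ((n + 1 : ℕ) : ℝ) + 1) = 7 / 3 * (2 * (n : ℝ) + 1) * (1 + 2 / (2 * (n : ℝ) + 1)) := by
            push_cast
            field_simp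
            ring
        _ ≤ _ := by
            gcongr

lemma Bd_le (N n : ℕ) (hn : 1 ≤ n) (hN : N ≤ n) : Bd N ≤ 1 + 11 / 5 * (n : ℝ) := by
  unfold Bd
  have hn' : (1 : ℝ) ≤ n := by exact_mod_cast hn
  have h1 : (N : ℝ) ^ (3 / 4 : ℝ) ≤ (n : ℝ) ^ (3 / 4 : ℝ) :=
    Real.rpow_le_rpow (Nat.cast_nonneg _) (by exact_mod_cast hN) (by norm_num)
  have h2 : (n : ℝ) ^ (3 / 4 : ℝ) ≤ (n : ℝ) ^ (1 : ℝ) :=
    Real.rpow_le_rpow_of_exponent_le hn' (by norm_num)
  rw [Real.rpow_one] at h2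
  linarith

/-- comparison with the constant `(1/q)_n / (1/p)_n` -/
theorem Bd_KK (N n : ℕ) (hn : 1 ≤ n) (hN : N ≤ n) {p : ℝ} (hp : 2 ≤ p) :
    Bd N ^ (1 - 2 / p) ≤ KK n p := by
  have hp0 : 0 < p := by linarith
  have hθ0 : 0 ≤ 1 - 2 / p := by
    rw [sub_nonneg, div_le_one hp0]
    exact hp
  refine (Real.rpow_le_rpow (Bd_pos N).le ?_ hθ0).trans (KK_ge n hp)
  have h1 := Bd_le N n hn hN
  have h2 := exp_sum_ge n hn
  have hn' : (1 : ℝ) ≤ n := by exact_mod_cast hn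
  linarith

/-- comparison with the constant `n ^ (1 - 2 / p) (p - 1)` -/
theorem Bd_LL (N n : ℕ) (hn : 1 ≤ n) (hN : N ≤ n) {p : ℝ} (hp : 2 ≤ p) :
    Bd N ^ (1 - 2 / p) ≤ (n : ℝ) ^ (1 - 2 / p) * (p - 1) := by
  have hp0 : 0 < p := by linarith
  have hθ0 : 0 ≤ 1 - 2 / p := by
    rw [sub_nonneg, div_le_one hp0]
    exact hp
  have hθ1 : 1 - 2 / p < 1 := by
    have : 0 < 2 / p := by positivity
    linarith
  have hn' : (1 : ℝ) ≤ n := by exact_mod_cast hn
  have h1 := Bd_le N n hn hN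
  have h3 := exp_le_ratio hθ0 hθ1
  have h4 : (1 + (1 - 2 / p)) / (1 - (1 - 2 / p)) = p - 1 := by
    field_simp
    ring
  rw [h4] at h3
  have h5 : (7 : ℝ) ≤ Real.exp 2 := by
    have h1 : Real.exp 2 = Real.exp 1 * Real.exp 1 := by
      rw [← Real.exp_add]
      norm_num
    rw [h1]
    have h2 := Real.exp_one_gt_d9
    nlinarith
  calc Bd N ^ (1 - 2 / p) ≤ ((n : ℝ) * Real.exp 2) ^ (1 - 2 / p) := by
        refine Real.rpow_le_rpow (Bd_pos N).le ?_ hθ0
        nlinarith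
    _ = (n : ℝ) ^ (1 - 2 / p) * Real.exp (2 * (1 - 2 / p)) := by
        rw [Real.mul_rpow (by positivity) (Real.exp_pos _).le, ← Real.exp_mul]
    _ ≤ _ := by gcongr

end Pool.Agent.Q165.BP
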