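import Pool.Agent.Q165.BP.Rep
import Pool.Agent.Y282.RB.A2
import Pool.Agent.Y282.RB.A3

/-!
# The powers of the Beurling transform on one angular class
-/

set_option autoImplicit false

open Finset MeasureTheory Set Filter Topology
open scoped FourierTransform SchwartzMap LineDeriv ContDiff
open Pool.Agent.Y282.RB (Tn)
open Pool.Agent.Y282.RB.A2 (db dd HH)

namespace Pool.Agent.Q165.BP

/-- the functions of angular type `k` -/
noncomputable def radk (k : ℕ) (g : ℝ → ℂ) (z : ℂ) : ℂ := z ^ k * g (Complex.normSq z)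

lemma contDiff_normSq : ContDiff ℝ ∞ (Complex.normSq : ℂ → ℝ) := by
  have e : (Complex.normSq : ℂ → ℝ) = fun z => z.re * z.re + z.im * z.im := by
    funext z
    exact Complex.normSq_apply z
  rw [e]
  exact (Complex.reCLM.contDiff.mul Complex.reCLM.contDiff).add
    (Complex.imCLM.contDiff.mul Complex.imCLM.contDiff)

lemma schw (k : ℕ) {h : ℝ → ℂ} (hh : ContDiff ℝ (⊤ : ℕ∞) h) {R : ℝ} (hR : ∀ x, R ≤ x → h x = 0) :
    ∃ f : 𝓢(ℂ, ℂ), ⇑f = radk k h := by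
  have hs : ContDiff ℝ ∞ (radk k h) :=
    (contDiff_id.pow k).mul (hh.comp contDiff_normSq)
  have hc : HasCompactSupport (radk k h) := by
    refine HasCompactSupport.intro (isCompact_closedBall (0 : ℂ) (|R| + 1)) fun w hw => ?_
    rw [Metric.mem_closedBall, dist_zero_right, not_le] at hw
    have h1 : R ≤ Complex.normSq w := by
      rw [Complex.normSq_eq_norm_sq]
      nlinarith [le_abs_self R, abs_nonneg R]
    unfold radk
    rw [hR _ h1, mul_zero]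
  exact ⟨hc.toSchwartzMap hs, rfl⟩

lemma db_rad (n m : ℕ) {h : ℝ → ℂ} (hh : ContDiff ℝ (⊤ : ℕ∞) h) {f : 𝓢(ℂ, ℂ)}
    (hf : ⇑f = radk m h) : ⇑(db^[n] f) = radk (m + n) (iteratedDeriv n h) := by
  funext z
  rw [Pool.Agent.Y282.RB.A2.db_iter (m := m) (F := h) hh (fun z => by rw [hf]; rfl) n z]
  rfl

lemma dd_rad (n m : ℕ) (hm : n ≤ m) {h : ℝ → ℂ} (hh : ContDiff ℝ (⊤ : ℕ∞) h) {f : 𝓢(ℂ, ℂ)}
    (hf : ⇑f = radk m h) (z : ℂ) : (dd^[n] f) z = z ^ (m - n) * HH m h n (Complex.normSq z) :=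
  Pool.Agent.Y282.RB.A2.dd_iter (n := m) (h := h) hh (fun z => by rw [hf]; rfl) n hm z

/-- `T ^ n` on the class -/
theorem Tn_rad (n m : ℕ) (hm : n ≤ m) {h : ℝ → ℂ} (hh : ContDiff ℝ (⊤ : ℕ∞) h) {R : ℝ}
    (hR : ∀ x, R ≤ x → h x = 0) (z : ℂ) :
    Tn n (radk (m + n) (iteratedDeriv n h)) z = z ^ (m - n) * HH m h n (Complex.normSq z) := by
  obtain ⟨f, hf⟩ := schw m hh hR
  rw [← db_rad n m hh hf, Pool.Agent.Y282.RB.A2.Tn_db, dd_rad n m hm hh hf]

/-- the isometry -/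
lemma l2_iter (n : ℕ) (f : 𝓢(ℂ, ℂ)) : ∫ z : ℂ, ‖(dd^[n] f) z‖ ^ 2 = ∫ z : ℂ, ‖(db^[n] f) z‖ ^ 2 := by
  rw [← SchwartzMap.integral_norm_sq_fourier (dd^[n] f), ← SchwartzMap.integral_norm_sq_fourier (db^[n] f)]
  refine integral_congr_ae (Eventually.of_forall fun ξ => ?_)
  simp only
  rw [Pool.Agent.Y282.RB.A2.four_db_iter, Pool.Agent.Y282.RB.A2.four_dd_iter]
  simp [norm_pow]

/-- the profile of `T ^ n f` -/
noncomputable def vv (n m : ℕ) (h : ℝ → ℂ) (x : ℝ) : ℂ := ((√x : ℝ) : ℂ) ^ (m - n) * HH m h n x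

/-- the profile of `f` -/
noncomputable def GG (k : ℕ) (g : ℝ → ℂ) (x : ℝ) : ℂ := ((√x : ℝ) : ℂ) ^ k * g x

lemma norm_rad (k : ℕ) (g : ℝ → ℂ) (z : ℂ) : ‖z ^ k * g (Complex.normSq z)‖ = ‖GG k g (Complex.normSq z)‖ := by
  unfold GG
  have : √(Complex.normSq z) = ‖z‖ := rfl
  rw [this, norm_mul, norm_mul, norm_pow, norm_pow, Complex.norm_real, norm_norm]

lemma l2 (n m : ℕ) (hm : n ≤ m) {h : ℝ → ℂ} (hh : ContDiff ℝ (⊤ : ℕ∞) h) {R : ℝ}
    (hR : ∀ x, R ≤ x → h x = 0) :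
    ∫ x in Ioi (0 : ℝ), ‖vv n m h x‖ ^ 2 = ∫ x in Ioi (0 : ℝ), ‖GG (m + n) (iteratedDeriv n h) x‖ ^ 2 := by
  obtain ⟨f, hf⟩ := schw m hh hR
  have h1 := l2_iter n f
  have h2 : ∫ z : ℂ, ‖(dd^[n] f) z‖ ^ 2 = ∫ z : ℂ, ‖vv n m h (Complex.normSq z)‖ ^ 2 := by
    refine integral_congr_ae (Eventually.of_forall fun z => ?_)
    simp only
    rw [dd_rad n m hm hh hf, norm_rad]
    rfl
  have h3 : ∫ z : ℂ, ‖(db^[n] f) z‖ ^ 2 =
      ∫ z : ℂ, ‖GG (m + n) (iteratedDeriv n h) (Complex.normSq z)‖ ^ 2 := by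
    refine integral_congr_ae (Eventually.of_forall fun z => ?_)
    simp only
    rw [db_rad n m hh hf]
    unfold radk
    rw [norm_rad]
  rw [h2, h3, Pool.Agent.Y282.RB.A3.int_normSq (fun x => ‖vv n m h x‖ ^ 2),
    Pool.Agent.Y282.RB.A3.int_normSq (fun x => ‖GG (m + n) (iteratedDeriv n h) x‖ ^ 2)] at h1
  exact mul_left_cancel₀ Real.pi_ne_zero h1

/-- the representation of the profile -/
theorem vv_eq (n m : ℕ) (hm : n ≤ m) {h : ℝ → ℂ} (hh : ContDiff ℝ (⊤ : ℕ∞) h) {R : ℝ}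
    (hR : ∀ i, iteratedDeriv i h R = 0) {x : ℝ} (hx : 0 < x) (hxR : x ≤ R) :
    vv n m h x = GG (m + n) (iteratedDeriv n h) x -
      ∫ s in x..R, ((kap n m (x / s) / s : ℝ) : ℂ) * GG (m + n) (iteratedDeriv n h) s := by
  have h1 := repr_kern n m hm hh hR x
  rw [Pool.Agent.Y282.RB.A2.real_iter (n := m) hh n hm x] at h1
  set q : ℂ := ((√x : ℝ) : ℂ) with hq
  have hq2 : q ^ 2 = (x : ℂ) := by
    rw [hq, ← Complex.ofReal_pow, Real.sq_sqrt hx.le]
  have hq0 : q ≠ 0 := Complex.ofReal_ne_zero.2 (Real.sqrt_pos.2 hx).ne'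
  have hqk : q ^ (m - n) ≠ 0 := pow_ne_zero _ hq0
  refine mul_left_cancel₀ hqk ?_
  have e1 : q ^ (m - n) * vv n m h x = (x : ℂ) ^ (m - n) * HH m h n x := by
    unfold vv
    rw [← hq, ← mul_assoc, ← pow_add, ← two_mul, pow_mul, hq2]
  have e2 : q ^ (m - n) * GG (m + n) (iteratedDeriv n h) x = (x : ℂ) ^ m * iteratedDeriv n h x := by
    unfold GG
    rw [← hq, ← mul_assoc, ← pow_add, show m - n + (m + n) = 2 * m by omega, pow_mul, hq2]
  have e3 : q ^ (m - n) * ∫ s in x..R, ((kap n m (x / s) / s : ℝ) : ℂ) * GG (m + n) (iteratedDeriv n h) s =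
      ∫ s in x..R, ((Kern n m x s : ℝ) : ℂ) * iteratedDeriv n h s := by
    rw [← intervalIntegral.integral_const_mul]
    refine intervalIntegral.integral_congr fun s hs => ?_
    rw [uIcc_of_le hxR] at hs
    have hs0 : 0 < s := lt_of_lt_of_le hx hs.1
    rw [Kern_eq n m hm hs0]
    unfold GG kap
    have f1 : √(x / s) = √x / √s := Real.sqrt_div hx.le s
    have f2 : 0 < √s := Real.sqrt_pos.2 hs0
    have f3 : (√s) ^ 2 = s := Real.sq_sqrt hs0.le
    have f4 : (√x) ^ 2 = x := Real.sq_sqrt hx.le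
    rw [← mul_assoc, ← mul_assoc]
    congr 1
    rw [hq, ← Complex.ofReal_pow, ← Complex.ofReal_pow, ← Complex.ofReal_mul, ← Complex.ofReal_mul]
    congr 1
    rw [f1, div_pow]
    have f5 : (√x) ^ (m - n) * (√x) ^ (m - n) = x ^ (m - n) := by
      rw [← pow_add, ← two_mul, pow_mul, f4]
    have f6 : (√s) ^ (m + n) = (√s) ^ (m - n) * s ^ n := by
      have f0 : s ^ n = (√s) ^ (2 * n) := by rw [pow_mul, f3]
      rw [f0, ← pow_add, show m - n + 2 * n = m + n by omega]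
    rw [f6, div_pow]
    rcases Nat.eq_zero_or_pos n with h0 | h0
    · subst h0
      simp [pp]
    · have f7 : s ^ (m - 1) * s = s ^ (m - n) * s ^ n := by
        rw [← pow_succ, ← pow_add, show m - 1 + 1 = m - n + n by omega]
      have f8 : (√s) ^ (m - n) ≠ 0 := by positivity
      have f9 : s ^ (m - n) ≠ 0 := by positivity
      field_simp
      linear_combination (s ^ (m - n) * s ^ n * pp n m (x / s)) * f5 - (x ^ (m - n) * pp n m (x / s)) * f7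
  rw [e1, mul_sub, e2, e3, h1]

end Pool.Agent.Q165.BP
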