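import Pool.Agent.Q165.BP.Int5

/-!
# The inequality in `L^q` of the plane for smooth functions of one angular type
-/

set_option autoImplicit false

open MeasureTheory Set Filter Topology
open scoped ContDiff
open Pool.Agent.Y282.RB (Tn)
open Pool.Agent.Y282.RB.A2 (HH)

namespace Pool.Agent.Q165.BP

lemma GG_zero (k : ℕ) {g : ℝ → ℂ} {R : ℝ} (hR : ∀ x, R ≤ x → g x = 0) (x : ℝ) (hx : R ≤ x) :
    GG k g x = 0 := by
  unfold GG
  rw [hR x hx, mul_zero]

lemma eLp_radk (k : ℕ) {g : ℝ → ℂ} (hg : Continuous g) {R : ℝ} (hR : ∀ x, R ≤ x → g x = 0) {q : ℝ}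
    (hq : 1 ≤ q) : eLpNorm (radk k g) (ENNReal.ofReal q) (volume : Measure ℂ) =
      ENNReal.ofReal ((Real.pi * ∫ x in Ioi (0 : ℝ), ‖GG k g x‖ ^ q) ^ (1 / q)) := by
  have h5 : (fun z => ‖radk k g z‖) = fun z => (fun x : ℝ => ‖GG k g x‖) (Complex.normSq z) := by
    funext z
    exact norm_rad k g z
  rw [← eLpNorm_norm, h5]
  have := Pool.Agent.Y282.RB.A3.main q hq (fun x : ℝ => ‖GG k g x‖) (GG_cont k hg).norm
    ⟨R, fun x hx => by simp [GG_zero k hR x hx]⟩
  simp only [abs_norm] at this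
  exact this

/-- the inequality for smooth functions of type `m + n`, `n ≤ m` -/
theorem plane (n m : ℕ) (hm : n ≤ m) {q : ℝ} (hq1 : 1 < q) (hq2 : q ≤ 2) {g : ℝ → ℂ}
    (hg : ContDiff ℝ (⊤ : ℕ∞) g) {a0 R0 : ℝ} (ha : 0 < a0) (h0 : ∀ x, x ≤ a0 → g x = 0)
    (hR0 : ∀ x, R0 ≤ x → g x = 0) :
    eLpNorm (Tn n (radk (m + n) g)) (ENNReal.ofReal q) (volume : Measure ℂ) ≤
      ENNReal.ofReal ((1 + nrm n m) ^ (2 / q - 1)) *
        eLpNorm (radk (m + n) g) (ENNReal.ofReal q) (volume : Measure ℂ) := by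
  have hq0 : 0 < q := by linarith
  have hnrm := nrm_nonneg n m
  set R : ℝ := max R0 1 + 1 with hR
  have hRpos : 0 < R := by
    have : (1 : ℝ) ≤ max R0 1 := le_max_right _ _
    linarith
  have hgR : ∀ x, R - 1 ≤ x → g x = 0 := fun x hx => hR0 x (by
    have : R0 ≤ max R0 1 := le_max_left _ _
    linarith)
  obtain ⟨h, h1, h2, h3⟩ := Pool.Agent.Y282.RB.A1.key n (R - 1) g hg hgR
  have h5 : ∀ i, iteratedDeriv i h R = 0 := fun i => iter_zero h2 i R (by linarith)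
  -- the profile
  have hvc : Continuous (vv n m h) := by
    have := (Pool.Agent.Y282.RB.A2.HH_smooth m h1 n).continuous
    unfold vv
    exact ((Complex.continuous_ofReal.comp Real.continuous_sqrt).pow _).mul this
  have hv0 : ∀ x, R ≤ x → vv n m h x = 0 := by
    intro x hx
    have hx0 : (x : ℂ) ≠ 0 := Complex.ofReal_ne_zero.2 (by linarith)
    have h8 := Pool.Agent.Y282.RB.A2.real_iter (n := m) h1 n hm x
    rw [iter_zero (f := fun t : ℝ => (t : ℂ) ^ m * h t) (R := R - 1)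
      (fun y hy => by rw [h2 y hy, mul_zero]) n x (by linarith)] at h8
    have h9 : HH m h n x = 0 := by
      rcases mul_eq_zero.1 h8.symm with h | h
      · exact absurd h (pow_ne_zero _ hx0)
      · exact h
    unfold vv
    rw [h9, mul_zero]
  have hUV : ∀ x ∈ Ioc 0 R, UU n m R (GG (m + n) g) x = vv n m h x := by
    intro x hx
    have h8 := vv_eq n m hm h1 h5 hx.1 hx.2
    rw [h3] at h8
    rw [h8]
    rfl
  have hT : (fun z => ‖Tn n (radk (m + n) g) z‖) = fun z => (fun x : ℝ => ‖vv n m h x‖) (Complex.normSq z) := by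
    funext z
    rw [← h3, Tn_rad n m hm h1 h2, norm_rad]
    rfl
  have e1 : eLpNorm (Tn n (radk (m + n) g)) (ENNReal.ofReal q) (volume : Measure ℂ) =
      ENNReal.ofReal ((Real.pi * ∫ x in Ioi (0 : ℝ), ‖vv n m h x‖ ^ q) ^ (1 / q)) := by
    rw [← eLpNorm_norm, hT]
    have := Pool.Agent.Y282.RB.A3.main q hq1.le (fun x : ℝ => ‖vv n m h x‖) hvc.norm
      ⟨R, fun x hx => by simp [hv0 x hx]⟩
    simp only [abs_norm] at this
    exact this
  rw [e1, eLp_radk (m + n) hg.continuous hR0 hq1.le, ← ENNReal.ofReal_mul (by positivity)]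
  refine ENNReal.ofReal_le_ofReal ?_
  -- to the bounded interval
  have hsub : Ioc 0 R ⊆ Ioi (0 : ℝ) := fun x hx => hx.1
  have f1 : ∫ x in Ioi (0 : ℝ), ‖vv n m h x‖ ^ q = ∫ x in Ioc 0 R, ‖vv n m h x‖ ^ q := by
    refine setIntegral_eq_of_subset_of_forall_sdiff_eq_zero measurableSet_Ioi hsub fun x hx => ?_
    have hx1 : R < x := by
      by_contra hcon
      exact hx.2 ⟨hx.1, not_lt.1 hcon⟩
    rw [hv0 x hx1.le, norm_zero, Real.zero_rpow hq0.ne']
  have f2 : ∫ x in Ioi (0 : ℝ), ‖GG (m + n) g x‖ ^ q = ∫ x in Ioc 0 R, ‖GG (m + n) g x‖ ^ q := by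
    refine setIntegral_eq_of_subset_of_forall_sdiff_eq_zero measurableSet_Ioi hsub fun x hx => ?_
    have hx1 : R < x := by
      by_contra hcon
      exact hx.2 ⟨hx.1, not_lt.1 hcon⟩
    rw [GG_zero (m + n) hgR x (by linarith), norm_zero, Real.zero_rpow hq0.ne']
  have key : ∫ x in Ioc 0 R, ‖vv n m h x‖ ^ q ≤
      (1 + nrm n m) ^ (2 - q) * ∫ x in Ioc 0 R, ‖GG (m + n) g x‖ ^ q := by
    rcases hq2.eq_or_lt with h6 | h6
    · have h7 := UU_L2 n m hm hg hgR
      have h8 : ∫ x in Ioc 0 R, ‖UU n m R (GG (m + n) g) x‖ ^ 2 = ∫ x in Ioc 0 R, ‖vv n m h x‖ ^ 2 :=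
        setIntegral_congr_fun measurableSet_Ioc fun x hx => by rw [hUV x hx]
      rw [h8] at h7
      rw [h6]
      simp only [sub_self, Real.rpow_zero, one_mul, Real.rpow_two]
      exact h7.le
    · exact Lq n m hm hRpos ha hq1 h6 hg h0 hgR hvc hUV
  rw [f1, f2]
  have i1 : 0 ≤ ∫ x in Ioc 0 R, ‖vv n m h x‖ ^ q := integral_nonneg fun x => by positivity
  have i2 : 0 ≤ ∫ x in Ioc 0 R, ‖GG (m + n) g x‖ ^ q := integral_nonneg fun x => by positivity
  have e7 : (1 + nrm n m) ^ (2 / q - 1) = ((1 + nrm n m) ^ (2 - q)) ^ (1 / q) := by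
    rw [← Real.rpow_mul (by linarith)]
    congr 1
    field_simp
  rw [e7, ← Real.mul_rpow (by positivity) (by positivity)]
  refine Real.rpow_le_rpow (by positivity) ?_ (by positivity)
  calc Real.pi * ∫ x in Ioc 0 R, ‖vv n m h x‖ ^ q
      ≤ Real.pi * ((1 + nrm n m) ^ (2 - q) * ∫ x in Ioc 0 R, ‖GG (m + n) g x‖ ^ q) := by
        have := Real.pi_pos
        gcongr
    _ = _ := by ring

end Pool.Agent.Q165.BP
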