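import Pool.Agent.Q165.BP.Ker3
import Pool.Agent.Y282.RB.A1

/-!
# The integral representation of the powers of the Beurling transform on angular classes
-/

set_option autoImplicit false

open Finset MeasureTheory Set Filter Topology

namespace Pool.Agent.Q165.BP

lemma iter_pow (m i : ℕ) (x : ℝ) :
    iteratedDeriv i (fun t : ℝ => (t : ℂ) ^ m) x = (m.descFactorial i : ℂ) * (x : ℂ) ^ (m - i) := by
  induction i generalizing x with
  | zero => simp
  | succ i ih =>
    rw [iteratedDeriv_succ]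
    have h1 : iteratedDeriv i (fun t : ℝ => (t : ℂ) ^ m) =
        fun x : ℝ => (m.descFactorial i : ℂ) * (x : ℂ) ^ (m - i) := funext ih
    rw [h1]
    have h2 : HasDerivAt (fun t : ℝ => (t : ℂ) ^ (m - i)) (((m - i : ℕ) : ℂ) * (x : ℂ) ^ (m - i - 1)) x := by
      have := (hasDerivAt_pow (m - i) (x : ℂ)).comp_ofReal
      exact this
    rw [(h2.const_mul _).deriv, Nat.descFactorial_succ]
    push_cast
    rw [show m - (i + 1) = m - i - 1 by omega]
    ring

lemma iter_zero {f : ℝ → ℂ} {R : ℝ} (hf : ∀ x, R ≤ x → f x = 0) (n : ℕ) (x : ℝ)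
    (hx : R + 1 ≤ x) : iteratedDeriv n f x = 0 := by
  have h1 : f =ᶠ[𝓝 x] fun _ => (0 : ℂ) := by
    have h2 : Ioi R ∈ 𝓝 x := Ioi_mem_nhds (by linarith)
    filter_upwards [h2] with y hy
    exact hf y (le_of_lt hy)
  rw [Filter.EventuallyEq.iteratedDeriv_eq n h1]
  simp

lemma smooth_iter {φ : ℝ → ℂ} (hφ : ContDiff ℝ (⊤ : ℕ∞) φ) (n : ℕ) :
    ContDiff ℝ (⊤ : ℕ∞) (iteratedDeriv n φ) := by
  induction n with
  | zero => simpa using hφ
  | succ n ih =>
    rw [iteratedDeriv_succ]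
    exact (contDiff_infty_iff_deriv.1 ih).2

/-- Taylor's formula from the right end -/
lemma taylor {φ : ℝ → ℂ} (hφ : ContDiff ℝ (⊤ : ℕ∞) φ) {R : ℝ} (hR : ∀ i, iteratedDeriv i φ R = 0)
    (i : ℕ) (x : ℝ) :
    (i.factorial : ℂ) * φ x = (-1) ^ (i + 1) * ∫ s in x..R, ((s - x : ℝ) : ℂ) ^ i * iteratedDeriv (i + 1) φ s := by
  induction i with
  | zero =>
    have hd : ∀ s ∈ Set.uIcc x R, HasDerivAt φ (deriv φ s) s := fun s _ =>
      ((hφ.differentiable (by norm_num)) s).hasDerivAt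
    have h1 := intervalIntegral.integral_eq_sub_of_hasDerivAt hd (by
      apply Continuous.intervalIntegrable
      exact (contDiff_infty_iff_deriv.1 hφ).2.continuous)
    have h0 : φ R = 0 := by simpa using hR 0
    simp only [Nat.factorial_zero, Nat.cast_one, one_mul, pow_zero, zero_add, pow_one,
      iteratedDeriv_one]
    rw [h1, h0]
    ring
  | succ i ih =>
    have hd : ∀ s ∈ Set.uIcc x R, HasDerivAt (fun s : ℝ => ((s - x : ℝ) : ℂ) ^ (i + 1) * iteratedDeriv (i + 1) φ s)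
        (((i : ℂ) + 1) * (((s - x : ℝ) : ℂ) ^ i * iteratedDeriv (i + 1) φ s) +
          ((s - x : ℝ) : ℂ) ^ (i + 1) * iteratedDeriv (i + 1 + 1) φ s) s := by
      intro s _
      have h1 : HasDerivAt (fun s : ℝ => ((s - x : ℝ) : ℂ)) 1 s := by
        have := ((hasDerivAt_id s).sub_const x).ofReal_comp
        simpa using this
      have h2 : HasDerivAt (fun s : ℝ => ((s - x : ℝ) : ℂ) ^ (i + 1))
          (((i + 1 : ℕ) : ℂ) * ((s - x : ℝ) : ℂ) ^ i * 1) s := h1.pow (i + 1)
      have h3 : HasDerivAt (iteratedDeriv (i + 1) φ) (iteratedDeriv (i + 1 + 1) φ s) s := by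
        rw [iteratedDeriv_succ (n := i + 1)]
        exact (((smooth_iter hφ (i + 1)).differentiable (by norm_num)) s).hasDerivAt
      refine (h2.mul h3).congr_deriv ?_
      push_cast
      ring
    have hc1 : Continuous (iteratedDeriv (i + 1) φ) := (smooth_iter hφ _).continuous
    have hc2 : Continuous (iteratedDeriv (i + 1 + 1) φ) := (smooth_iter hφ _).continuous
    have h1 := intervalIntegral.integral_eq_sub_of_hasDerivAt hd (by
      apply Continuous.intervalIntegrable
      fun_prop)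
    rw [hR (i + 1), intervalIntegral.integral_add (by apply Continuous.intervalIntegrable; fun_prop)
      (by apply Continuous.intervalIntegrable; fun_prop), intervalIntegral.integral_const_mul] at h1
    have h2 : ((x - x : ℝ) : ℂ) ^ (i + 1) = 0 := by simp
    rw [h2] at h1
    rw [Nat.factorial_succ, Nat.cast_mul, Nat.cast_succ, mul_assoc, ih, pow_succ (-1 : ℂ) (i + 1)]
    linear_combination (-1) ^ (i + 1) * h1

/-- the kernel in polynomial form -/
noncomputable def Kern (n m : ℕ) (x s : ℝ) : ℝ :=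
  ∑ i ∈ range n, cc n m i * (x ^ (m - 1 - i) * (s - x) ^ i)

lemma Kern_eq (n m : ℕ) (hm : n ≤ m) {x s : ℝ} (hs : 0 < s) :
    Kern n m x s = s ^ (m - 1) * ((x / s) ^ (m - n) * pp n m (x / s)) := by
  unfold Kern pp
  rw [mul_sum, mul_sum]
  refine sum_congr rfl fun i hi => ?_
  have hi' := mem_range.1 hi
  have e1 : x ^ (m - 1 - i) = s ^ (m - 1 - i) * ((x / s) ^ (m - n) * (x / s) ^ (n - 1 - i)) := by
    rw [← pow_add, show m - n + (n - 1 - i) = m - 1 - i by omega, ← mul_pow, mul_div_cancel₀ _ hs.ne']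
  have e2 : (s - x) ^ i = s ^ i * (1 - x / s) ^ i := by
    rw [← mul_pow, mul_sub, mul_one, mul_div_cancel₀ _ hs.ne']
  have e3 : s ^ (m - 1) = s ^ (m - 1 - i) * s ^ i := by
    rw [← pow_add, show m - 1 - i + i = m - 1 by omega]
  rw [e1, e2, e3]
  ring

/-- the representation -/
theorem repr_kern (n m : ℕ) (hm : n ≤ m) {h : ℝ → ℂ} (hh : ContDiff ℝ (⊤ : ℕ∞) h) {R : ℝ}
    (hR : ∀ i, iteratedDeriv i h R = 0) (x : ℝ) :
    iteratedDeriv n (fun t : ℝ => (t : ℂ) ^ m * h t) x =
      (x : ℂ) ^ m * iteratedDeriv n h x -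
        ∫ s in x..R, ((Kern n m x s : ℝ) : ℂ) * iteratedDeriv n h s := by
  have hp : ContDiff ℝ (⊤ : ℕ∞) (fun t : ℝ => (t : ℂ) ^ m) := Complex.ofRealCLM.contDiff.pow m
  have h1 : (fun t : ℝ => (t : ℂ) ^ m * h t) = (fun t : ℝ => (t : ℂ) ^ m) * h := rfl
  rw [h1, iteratedDeriv_mul (hp.contDiffAt.of_le (by exact_mod_cast le_top))
    (hh.contDiffAt.of_le (by exact_mod_cast le_top)), sum_range_succ']
  simp only [Nat.choose_zero_right, Nat.cast_one, one_mul, iteratedDeriv_zero, Nat.sub_zero]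
  have hc : Continuous (iteratedDeriv n h) := (smooth_iter hh n).continuous
  have h2 : ∫ s in x..R, ((Kern n m x s : ℝ) : ℂ) * iteratedDeriv n h s =
      ∑ i ∈ range n, ((cc n m i : ℝ) : ℂ) * (x : ℂ) ^ (m - 1 - i) *
        ∫ s in x..R, ((s - x : ℝ) : ℂ) ^ i * iteratedDeriv n h s := by
    have h3 : ∀ s : ℝ, ((Kern n m x s : ℝ) : ℂ) * iteratedDeriv n h s =
        ∑ i ∈ range n, ((cc n m i : ℝ) : ℂ) * (x : ℂ) ^ (m - 1 - i) *
          (((s - x : ℝ) : ℂ) ^ i * iteratedDeriv n h s) := by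
      intro s
      unfold Kern
      rw [Complex.ofReal_sum, sum_mul]
      refine sum_congr rfl fun i _ => ?_
      push_cast
      ring
    simp_rw [h3]
    rw [intervalIntegral.integral_finsetSum (fun i _ => by
      apply Continuous.intervalIntegrable
      fun_prop)]
    refine sum_congr rfl fun i _ => ?_
    rw [intervalIntegral.integral_const_mul]
  rw [h2, add_comm, sub_eq_add_neg, ← sum_neg_distrib]
  congr 1
  refine sum_congr rfl fun i hi => ?_
  have hi' := mem_range.1 hi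
  -- Taylor
  have h4 : iteratedDeriv (i + 1) (iteratedDeriv (n - (i + 1)) h) = iteratedDeriv n h := by
    rw [iteratedDeriv_eq_iterate, iteratedDeriv_eq_iterate, iteratedDeriv_eq_iterate,
      ← Function.iterate_add_apply, show i + 1 + (n - (i + 1)) = n by omega]
  have h5 := taylor (φ := iteratedDeriv (n - (i + 1)) h) (smooth_iter hh _) (R := R) (fun j => by
    rw [iteratedDeriv_eq_iterate, iteratedDeriv_eq_iterate, ← Function.iterate_add_apply,
      ← iteratedDeriv_eq_iterate]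
    exact hR _) i x
  rw [h4] at h5
  rw [iter_pow, show m - (i + 1) = m - 1 - i by omega]
  have h6 : ((m.descFactorial (i + 1) : ℕ) : ℂ) = (i.factorial : ℂ) * (((i : ℂ) + 1) * (m.choose (i + 1) : ℂ)) := by
    rw [Nat.descFactorial_eq_factorial_mul_choose, Nat.factorial_succ]
    push_cast
    ring
  rw [h6]
  have h7 : ((cc n m i : ℝ) : ℂ) = (-1) ^ i * (((i : ℂ) + 1) * (n.choose (i + 1) : ℂ) * (m.choose (i + 1) : ℂ)) := by
    unfold cc
    push_cast
    ring
  rw [h7]
  rw [pow_succ] at h5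
  linear_combination ((n.choose (i + 1) : ℂ) * ((i : ℂ) + 1) * (m.choose (i + 1) : ℂ) * (x : ℂ) ^ (m - 1 - i)) * h5

end Pool.Agent.Q165.BP
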